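import Pool.Agent.Lib.MP_1b6faf_co.H8Count

/-!
Counting the clique bounds inside the windows.
-/

namespace Pool.Agent.Lib.MP_1b6faf_co.Un

open Finset Pool.Agent.Lib.MP_1b6faf_co.H8
open scoped Classical

theorem countU (C : ℕ) (P : ℕ → ℕ → Prop)
    (h : ∀ D s : ℕ, 2 ≤ s → s ≤ D → (3 * (D % s * (D / s + 1)) + C * (D / s) ≤ D ∨
      (D + 6 ≤ 3 * (D % s * (D / s + 1)) ∧ D % s + C ≤ s)) → P D s) (D : ℕ) :
    (((Icc 2 D).filter fun s => ¬ P D s).card : ℝ) ≤ (2 * C + 10) * Real.sqrt D := by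
  obtain ⟨m, hm⟩ : ∃ m, m = Nat.sqrt D := ⟨_, rfl⟩
  have m1 : (m : ℝ) ≤ Real.sqrt D := hm ▸ Real.nat_sqrt_le_real_sqrt
  have m2 : D < (m + 1) * (m + 1) := hm ▸ Nat.lt_succ_sqrt D
  have t2 : ∀ (Q : ℕ → Prop) [DecidablePred Q] (L : ℕ), (∀ s t, 1 ≤ D / s → D / s = D / t → Q s →
      Q t → s ≤ t + L) → ((Ioc m D).filter Q).card ≤ (L + 1) * m := fun Q _ L hQ => by
    have := card_le_mul_card_image_of_maps_to (s := (Ioc m D).filter Q) (t := Icc 1 m)
      (f := fun s => D / s) (fun s hs => by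
        obtain ⟨a1, a2⟩ := mem_Ioc.1 (mem_filter.1 hs).1
        refine mem_Icc.2 ⟨Nat.div_pos a2 (by omega), Nat.lt_succ_iff.1 ?_⟩
        exact (Nat.div_lt_iff_lt_mul (by omega)).2 (m2.trans_le (Nat.mul_le_mul_left _ a1))) _
      fun a ha => card_diam _ (L := L) (Nat.cast_nonneg _) fun s hs t ht => by
        obtain ⟨⟨-, a2⟩, a3⟩ := (mem_filter.1 hs).imp_left mem_filter.1
        obtain ⟨⟨-, b2⟩, b3⟩ := (mem_filter.1 ht).imp_left mem_filter.1
        exact_mod_cast hQ s t (a3 ▸ (mem_Icc.1 ha).1) (a3.trans b3.symm) a2 b2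
    rwa [Nat.floor_natCast, Nat.card_Icc, Nat.add_sub_cancel] at this
  have t3 := t2 (fun s => D < 3 * (D % s * (D / s + 1)) + C * (D / s) ∧
      3 * (D % s * (D / s + 1)) < D + 6) (C + 1) fun s t a1 a2 a3 a4 => by
    have b1 := Nat.div_add_mod D s
    have b2 := Nat.div_add_mod D t
    rw [← a2] at a4 b2
    generalize D / s = a at *
    generalize D % s = r at *
    generalize D % t = r' at *
    by_contra hc
    obtain ⟨e, rfl⟩ := Nat.exists_eq_add_of_le (not_le.1 hc).le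
    have b3 : r' = r + (C + 1 + e) * a := by nlinarith
    subst b3
    nlinarith [a3.1, a4.2, Nat.mul_le_mul a1 a1, Nat.zero_le (C * a * a), Nat.zero_le (e * a * a),
      Nat.zero_le (e * a), Nat.zero_le (C * a)]
  have t4 := t2 (fun s => 1 ≤ s ∧ s < D % s + C) C fun s t a1 a2 a3 a4 => by
    have b1 := Nat.div_add_mod D s
    have b2 := Nat.div_add_mod D t
    have b3 := Nat.mod_lt D a4.1
    rw [← a2] at b2
    generalize D / s = a at *
    generalize D % s = r at *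
    generalize D % t = r' at *
    by_contra hc
    nlinarith [a3.2, Nat.mul_le_mul_right a (show t ≤ s by omega)]
  have t5 := card_le_card (show ((Icc 2 D).filter fun s => ¬ P D s) ⊆ Icc 1 m ∪ (((Ioc m D).filter
      fun s => D < 3 * (D % s * (D / s + 1)) + C * (D / s) ∧ 3 * (D % s * (D / s + 1)) < D + 6) ∪
      (Ioc m D).filter fun s => 1 ≤ s ∧ s < D % s + C) from fun s hs => by
    obtain ⟨b1, b2⟩ := mem_filter.1 hs
    obtain ⟨b3, b4⟩ := mem_Icc.1 b1
    have b5 := mt (h D s b3 b4) b2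
    simp only [mem_union, mem_filter, mem_Icc, mem_Ioc]
    omega)
  have t6 := t5.trans ((card_union_le _ _).trans (Nat.add_le_add_left ((card_union_le _ _).trans
    (Nat.add_le_add t3 t4)) _))
  rw [Nat.card_Icc, Nat.add_sub_cancel] at t6
  have t7 := (Nat.cast_le (α := ℝ)).2 t6
  push_cast at t7
  nlinarith [mul_le_mul_of_nonneg_left m1 (show (0 : ℝ) ≤ 2 * C + 10 by positivity),
    Nat.cast_nonneg (α := ℝ) m]

theorem thirdU (P : ℕ → Prop) (D : ℕ) {K : ℝ} (h : (((Icc 2 D).filter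
    fun s => ¬ (P s ↔ 3 * (D % s * (D / s + 1)) < D)).card : ℝ) ≤ K * Real.sqrt D) :
    |(((Icc 2 D).filter fun s => P s).card : ℝ) - D / 3| ≤ (K + 4) * Real.sqrt D := by
  rcases Nat.eq_zero_or_pos D with rfl | hD
  · simp
  obtain ⟨m, hm⟩ : ∃ m, m = Nat.sqrt D := ⟨_, rfl⟩
  have m1 : (m : ℝ) ≤ Real.sqrt D := hm ▸ Real.nat_sqrt_le_real_sqrt
  have m2 : D < (m + 1) * (m + 1) := hm ▸ Nat.lt_succ_sqrt D
  have m3 : (1 : ℝ) ≤ m := by exact_mod_cast hm ▸ Nat.sqrt_pos.2 hD
  have t6 := third D m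
  have t7 : (((Icc 2 D).filter fun s => P s).card : ℝ) ≤ ((Icc 2 D).filter fun s =>
      ¬ (P s ↔ 3 * (D % s * (D / s + 1)) < D)).card + ((Icc 1 m).card
      + ((Icc 1 D).filter fun s => D / s ≤ m ∧ 3 * (D % s) * (D / s + 1) < D).card) := by
    exact_mod_cast (card_le_card fun s hs => by
      simp only [mem_union, mem_filter, mem_Icc, mul_assoc] at *
      by_contra hc
      have a1 : 1 ≤ s := by omega
      have a2 : D / s ≤ m := by
        refine Nat.lt_succ_iff.1 ((Nat.div_lt_iff_lt_mul a1).2 (m2.trans_le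
          (Nat.mul_le_mul_left _ ?_)))
        by_contra c
        exact hc (Or.inr (Or.inl ⟨a1, by omega⟩))
      tauto).trans ((card_union_le _ _).trans (Nat.add_le_add_left (card_union_le _ _) _))
  have t8 : (((Icc 1 D).filter fun s => D / s ≤ m ∧ 3 * (D % s) * (D / s + 1) < D).card : ℝ) ≤
      ((Icc 2 D).filter fun s => ¬ (P s ↔ 3 * (D % s * (D / s + 1)) < D)).card
      + (((Icc 2 D).filter fun s => P s).card + ({1} : Finset ℕ).card) := by
    exact_mod_cast (card_le_card fun s hs => by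
      simp only [mem_union, mem_filter, mem_Icc, mem_singleton, mul_assoc] at *
      by_contra hc
      have : s = 1 ∨ 2 ≤ s := by omega
      tauto).trans ((card_union_le _ _).trans (Nat.add_le_add_left (card_union_le _ _) _))
  have m4 : (D : ℝ) ≤ (m + 1) * (m + 1) := by exact_mod_cast m2.le
  have t9 : (D : ℝ) / 3 * (1 / (m + 1)) ≤ m := by
    rw [mul_one_div, div_le_iff₀ (by positivity)]
    nlinarith
  have t10 : (0 : ℝ) ≤ D / 3 * (1 / (m + 1)) := by positivity
  rw [card_singleton, Nat.cast_one] at t8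
  rw [Nat.card_Icc, Nat.add_sub_cancel] at t7
  rw [abs_le] at t6 ⊢
  constructor <;> nlinarith [t6.1, t6.2]

end Pool.Agent.Lib.MP_1b6faf_co.Un
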