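import Pool.Agent.Lib.MP_1b6faf_co.H8Aux

/-!
Definitions for the bounds that are uniform in the quotient.
-/

namespace Pool.Agent.Lib.MP_1b6faf_co

open Finset
open scoped Classical

namespace H8.Par

variable (x : Par)

/-- vertices of the Turan graph in large parts -/
noncomputable def xr : ℝ := (x.r + 1) * (x.a + 1)
/-- vertices in small parts of a full neighbourhood -/
noncomputable def Γ : ℝ := (x.q - x.r) * x.a
/-- pairs in a clique of the size under study -/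
noncomputable def J : ℝ := (x.k + 1) * (x.k + 2) / 2
/-- edges in a full neighbourhood -/
noncomputable def P2 : ℝ := Z (x.q + 1) x.Δ 2
/-- price of an edge that leaves a cluster -/
noncomputable def pr : ℝ := x.τ / (x.Δ + 1)

lemma Δ_xr : (x.Δ : ℝ) = x.xr + x.Γ := by rw [x.Δ_eq, xr, Γ]; push_cast; ring
lemma xr_pos : 0 < x.xr := by unfold xr; positivity
lemma aΓ : (x.a : ℝ) ≤ x.Γ := by
  have h1 : (x.r : ℝ) + 1 ≤ x.q := by exact_mod_cast x.hr
  unfold Γ
  nlinarith [x.a1]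
lemma φ_xr : x.φ * x.n = x.xr := x.φn
lemma τpos : 0 < x.τ := x.P1pos.trans x.P1τ
lemma kaΔ : (x.k : ℝ) * x.a ≤ x.Δ := by
  have h1 : (x.k : ℝ) ≤ x.q := by exact_mod_cast x.hkq
  rw [x.Δ_eq]
  push_cast
  nlinarith [x.a1, Nat.cast_nonneg (α := ℝ) x.r]

end H8.Par

namespace Un

open H8

section
variable {V : Type*}

/-- excess of the number of ordered non-adjacent pairs over the Turan bound -/
noncomputable def L2 (G : SimpleGraph V) (S : Finset V) (q a : ℕ) : ℝ :=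
  ∑ u ∈ S, ((nn G u S).card : ℝ) - (2 * a + 1) * S.card + q * (a * (a + 1))

/-- ordered edges together with a common non-neighbour in `Lt` -/
noncomputable def Hc (G : SimpleGraph V) (S Lt : Finset V) : ℝ :=
  ∑ u ∈ S, ∑ y ∈ nb G u S, ((nn G u S ∩ nn G y S ∩ Lt).card : ℝ)

/-- deficiency of the degree inside `C` -/
noncomputable def df (G : SimpleGraph V) (x : Par) (C : Finset V) (u : V) : ℕ :=
  x.Δ - (nb G u C).card

/-- gain of a vertex outside the cluster -/
noncomputable def gn (G : SimpleGraph V) (x : Par) (C : Finset V) (w : V) : ℝ :=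
  (x.k + 2) * kc G (x.k + 1) (nb G w C) - (nb G w C).card * x.pr

/-- excess of a cluster over the Turan density -/
noncomputable def ex (G : SimpleGraph V) (x : Par) (C : Finset V) : ℝ :=
  (x.k + 2) * kc G (x.k + 2) C - C.card * x.τ

end

variable {V : Type*} [Fintype V] {G : SimpleGraph V} {x : Par}

/-- edges lost in the neighbourhood -/
noncomputable def ls (G : SimpleGraph V) (x : Par) (u : V) : ℝ := x.P2 - kc G 2 (nb G u univ)

/-- total excess of the codegrees at `u` -/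
noncomputable def fw (G : SimpleGraph V) (x : Par) (u : V) : ℝ :=
  ∑ y ∈ nb G u univ, (((nb G y (nb G u univ)).card - x.N : ℕ) : ℝ)

lemma Bal_eq (C O : Finset V) : Bal G (x.k + 1) x.τ x.pr C O
    = ex G x C + ∑ w ∈ O, gn G x C w + (x.k + 2) * (Yc G (x.k + 2) C).card := by
  unfold Bal ex gn
  push_cast
  rw [show (x.k : ℝ) + 1 + 1 = x.k + 2 by ring]
  ring

lemma nb_df (h : InC G x) (C : Finset V) (u : V) : (nb G u C).card + df G x C u = x.Δ := by
  have := h.degS u C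
  unfold df
  omega

lemma df_nn (h : InC G x) (C : Finset V) (u : V) :
    df G x C u + C.card = x.Δ + (nn G u C).card := by
  have := nb_df h C u
  have := card_nb_add_nn (G := G) u C
  omega

lemma out_df (h : InC G x) (C : Finset V) (u : V) : (out G C u).card ≤ df G x C u := by
  have := df_nn h C u
  have := h.out_le C u
  omega

lemma sum_df (h : InC G x) (C : Finset V) : ∑ u ∈ C, (df G x C u : ℝ)
    = L2 G C (x.q + 2) x.a + x.xr + (x.n - C.card) * (C.card - (x.a + 1)) := by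
  have h1 : ∀ u ∈ C, (df G x C u : ℝ) = (nn G u C).card + (x.Δ - C.card) := fun u _ => by
    have : (df G x C u : ℝ) + C.card = x.Δ + (nn G u C).card := by exact_mod_cast df_nn h C u
    linarith
  have h2 := x.nR
  have h3 := x.nR'
  rw [sum_congr rfl h1, sum_add_distrib, sum_const, nsmul_eq_mul, L2, Par.xr,
    show (x.Δ : ℝ) = x.n - x.a by linarith, h3]
  push_cast
  ring

/-- edges from a set outside `C` into `C` -/
lemma bd_le (h : InC G x) {C B : Finset V} (hB : Disjoint B C) (u : V) :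
    (nb G u B).card ≤ df G x C u :=
  (card_le_card (nb_mono u fun y hy =>
    mem_sdiff.2 ⟨mem_univ y, disjoint_left.1 hB hy⟩)).trans (out_df h C u)

lemma out_sq (h : InC G x) (C : Finset V) :
    ∑ u ∈ C, ((out G C u).card : ℝ) * ((out G C u).card - 1)
      ≤ ∑ u ∈ C, (df G x C u : ℝ) * (df G x C u - 1) := by
  refine sum_le_sum fun u _ => ?_
  obtain ⟨d, hd⟩ := Nat.exists_eq_add_of_le (out_df h C u)
  rw [hd]
  push_cast
  rcases Nat.eq_zero_or_pos d with rfl | c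
  · simp
  · have c' : (1 : ℝ) ≤ d := by exact_mod_cast c
    nlinarith [Nat.cast_nonneg (α := ℝ) (out G C u).card]

lemma one_level (h : InC G x) (C : Finset V) : ((x.k : ℝ) + 2) * kc G (x.k + 2) C
    ≤ ∑ u ∈ C, Z (x.q + 1) (x.Δ - df G x C u) (x.k + 1) := by
  have h1 := kc_succ (G := G) (x.k + 1) C
  push_cast at h1
  rw [show (x.k : ℝ) + 2 = x.k + 1 + 1 by ring, h1]
  exact sum_le_sum fun u _ => zyk' _ (h.cf1 u C) (by have := nb_df h C u; omega)

lemma far' (h : InC G x) {C : Finset V} (hC : C.card = x.n) {u : V} (hu : u ∈ C) :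
    ex G x C ≤ -((x.k + 2) * (x.P1 - Z (x.q + 1) (x.Δ - df G x C u) (x.k + 1))) := by
  have a1 := kc_rec (G := G) (x.k + 1) u C
  have a2 := zyk' (x.k + 1 + 1) (h.cf.mono (subset_univ (C.erase u)))
    (show _ ≤ x.n - 1 by rw [card_erase_of_mem hu, hC])
  have a4 := zyk' (x.k + 1) (h.cf1 u C)
    (show _ ≤ x.Δ - df G x C u by have := nb_df h C u; omega)
  have a5 := x.τ_id
  rw [x.n_rec] at a5
  unfold ex
  rw [hC, ← a5]
  nlinarith [mul_le_mul_of_nonneg_left (show kc G (x.k + 1 + 1) C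
    ≤ Z (x.q + 1 + 1) (x.n - 1) (x.k + 1 + 1) + Z (x.q + 1) (x.Δ - df G x C u) (x.k + 1) by linarith)
    (show (0 : ℝ) ≤ x.k + 1 + 1 by positivity)]

lemma ex_zyk (h : InC G x) {C : Finset V} (hC : C.card = x.n) : ex G x C ≤ 0 := by
  have a2 := zyk' (x.k + 1 + 1) (h.cf.mono (subset_univ C)) hC.le
  have a5 := x.τ_id
  unfold ex
  rw [hC, ← a5]
  nlinarith [mul_le_mul_of_nonneg_left a2 (show (0 : ℝ) ≤ x.k + 1 + 1 by positivity)]

lemma ls_nonneg (h : InC G x) (u : V) : 0 ≤ ls G x u :=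
  sub_nonneg.2 (zyk' 2 (h.cf1 u univ) (h.deg u))

/-- conditions for cliques of moderate size -/
structure HI (x : Par) (E β : ℝ) : Prop where
  hE : 10 ^ 7 * ((x.k : ℝ) + 1) ^ 5 * (x.a + 1) ≤ E
  hΔ : 2000 * E ≤ x.Δ
  hβ : 1 / 4 ≤ β
  hβ1 : ((x.k : ℝ) + 2) * β ^ x.k ≤ 1 - E / x.Δ
  hx : x.xr + E ≤ β * x.Δ
  hμ : (x.k + 1) * x.Δ + E ≤ x.J * (1 - β) * x.Δ

/-- clusters for cliques of moderate size -/
structure Cl1 (G : SimpleGraph V) (x : Par) (C : Finset V) : Prop where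
  le : C.card ≤ x.n
  lo : (x.n : ℝ) - C.card ≤ 13000 * ((x.k : ℝ) + 1) ^ 2 * (x.a + 1)
  dfl : ∀ u ∈ C, 100 * ((x.k : ℝ) + 1) * df G x C u ≤ x.Δ
  miss : ∑ u ∈ C, ((nn G u C).card : ℝ) ≤ 378 * ((x.k : ℝ) + 1) * (x.a + 1) * x.Δ
  far : C.card < x.n → ∀ w, w ∉ C →
    ((nb G w C).card : ℝ) ≤ (1 - 1 / (400 * ((x.k : ℝ) + 1))) * x.Δ

/-- conditions for large cliques -/
structure HII (x : Par) : Prop where
  hk : 10 ^ 45 ≤ (x.k : ℝ)
  hx : 3 * x.xr ≤ x.Δ

/-- clusters for large cliques -/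
structure Cl2 (G : SimpleGraph V) (x : Par) (A C : Finset V) : Prop where
  sub : A ⊆ C
  cardA : A.card = x.Δ
  inA : ∀ u ∈ A, ((nn G u A).card : ℝ) * x.k ≤ 4 * x.Δ
  inC : ∀ u ∈ C, ((nn G u A).card : ℝ) * x.k ≤ 10 ^ 9 * x.Δ
  new : ((C \ A).card : ℝ) * x.k ≤ 4 * x.Δ
  outC : ∀ w, w ∉ C → 10 ^ 9 * (x.Δ : ℝ) < (nn G w A).card * x.k

/-- conditions when the remainder is close to the divisor -/
structure HIII (x : Par) : Prop where
  hΓ : 10 ^ 16 * x.Γ ≤ x.Δ
  hg : 10 ^ 10 * (x.a : ℝ) ≤ x.Γ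
  hk1 : 40 * (x.Δ : ℝ) ≤ x.k * x.Γ
  hk2 : (x.k + 1) * x.Γ ≤ 41 * x.Δ

end Un

end Pool.Agent.Lib.MP_1b6faf_co
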