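import Pool.Agent.Lib.MP_1b6faf_co.Un.Defs

/-!
Excess of non-edges and induced cherries of the complement.
-/

namespace Pool.Agent.Lib.MP_1b6faf_co.Un

open Finset Pool.Agent.Lib.MP_1b6faf_co.H8
open scoped Classical

variable {V : Type*} {G : SimpleGraph V}

namespace GAAux

/-- ordered edges inside `A` -/
noncomputable def ec (G : SimpleGraph V) (A : Finset V) : ℝ := ∑ u ∈ A, ((nb G u A).card : ℝ)

lemma ec_mono {A B : Finset V} (h : B ⊆ A) : ec G B ≤ ec G A :=
  (sum_le_sum fun u _ => by exact_mod_cast card_le_card (nb_mono u h)).trans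
    (sum_le_sum_of_subset_of_nonneg h fun _ _ _ => Nat.cast_nonneg _)

lemma ec_le {A B : Finset V} (h : B ⊆ A) {c : ℝ} (hc : (A.card : ℝ) = B.card + c) :
    ec G A ≤ ec G B + 2 * c * A.card := by
  have h0 : ((A \ B).card : ℝ) = c := by
    have : ((A \ B).card : ℝ) + B.card = A.card := by exact_mod_cast card_sdiff_add_card_eq_card h
    linarith
  have hc0 : 0 ≤ c := h0 ▸ Nat.cast_nonneg _
  have h1 : ∑ u ∈ B, ((nb G u A).card : ℝ) ≤ ∑ u ∈ B, (((nb G u B).card : ℝ) + c) :=
    sum_le_sum fun u _ => h0 ▸ nb_le u B A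
  have h2 : ∑ u ∈ A \ B, ((nb G u A).card : ℝ) ≤ (A \ B).card • (A.card : ℝ) :=
    sum_le_card_nsmul _ _ _ fun u _ => by exact_mod_cast card_le_card (nb_subset u A)
  have h3 := sum_sdiff (f := fun u => ((nb G u A).card : ℝ)) h
  rw [sum_add_distrib, sum_const, nsmul_eq_mul] at h1
  rw [nsmul_eq_mul, h0] at h2
  unfold ec
  nlinarith [mul_nonneg hc0 hc0]

lemma Hc_eq (S Lt : Finset V) : Hc G S Lt = ∑ z ∈ S ∩ Lt, ec G (nn G z S) := by
  have h1 : Hc G S Lt = ∑ u ∈ S, ∑ y ∈ S, ∑ z ∈ S ∩ Lt,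
      if G.Adj u y ∧ ¬ G.Adj z u ∧ ¬ G.Adj z y then (1 : ℝ) else 0 := by
    refine sum_congr rfl fun u _ => ?_
    rw [nb, sum_filter]
    refine sum_congr rfl fun y _ => ?_
    rw [sum_boole]
    split_ifs with huy
    · congr 2
      ext z
      simp only [mem_inter, mem_nn, mem_filter, huy, true_and, G.adj_comm z]
      tauto
    · simp [huy]
  have h2 : ∀ z, ec G (nn G z S) = ∑ u ∈ S, ∑ y ∈ S,
      if G.Adj u y ∧ ¬ G.Adj z u ∧ ¬ G.Adj z y then (1 : ℝ) else 0 := fun z => by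
    rw [ec, nn, sum_filter]
    refine sum_congr rfl fun u _ => ?_
    rw [sum_boole]
    split_ifs with hzu
    · simp [hzu]
    · congr 2
      ext y
      simp only [mem_nb, mem_filter, hzu, not_false_eq_true, true_and]
      tauto
  rw [h1, sum_congr rfl fun z _ => h2 z, sum_comm (s := S ∩ Lt)]
  exact sum_congr rfl fun u _ => sum_comm

lemma sum_split (v : V) (S Lt : Finset V) (f : V → ℝ) :
    ∑ z ∈ S ∩ Lt, f z = ∑ z ∈ nb G v S ∩ Lt, f z + ∑ z ∈ nn G v S ∩ Lt, f z := by
  rw [← sum_filter_add_sum_filter_not (S ∩ Lt) (fun y => G.Adj v y), nb, nn, filter_inter,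
    filter_inter]

lemma int_par (m a : ℕ) : (0 : ℝ) ≤ ((m : ℝ) - a) * (m - (a + 1)) := by
  rcases le_or_gt m a with c | c
  · have : (m : ℝ) ≤ a := by exact_mod_cast c
    exact mul_nonneg_of_nonpos_of_nonpos (by linarith) (by linarith)
  · have : (a : ℝ) + 1 ≤ m := by exact_mod_cast c
    exact mul_nonneg (by linarith) (by linarith)

lemma L2_step (q a : ℕ) (S : Finset V) (v : V) :
    L2 G (nb G v S) q a + 2 * ∑ x ∈ nn G v S, ((nn G x (nb G v S)).card : ℝ) - ec G (nn G v S)
      ≤ L2 G S (q + 1) a := by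
  have h1 := sum_filter_add_sum_filter_not S (fun y => G.Adj v y)
    (fun y => ((nn G y S).card : ℝ))
  change ∑ y ∈ nb G v S, _ + ∑ y ∈ nn G v S, _ = _ at h1
  rw [sum_congr rfl fun y _ => nn_split y v S, sum_congr (s₁ := nn G v S) rfl
    fun y _ => nn_split y v S, sum_add_distrib, sum_add_distrib] at h1
  have h2 := sum_nn_comm (G := G) (nb G v S) (nn G v S)
  have h3 : ec G (nn G v S) + ∑ y ∈ nn G v S, ((nn G y (nn G v S)).card : ℝ)
      = (nn G v S).card * (nn G v S).card := by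
    rw [ec, ← sum_add_distrib, sum_congr rfl fun y _ => card_nb_add_nn' y (nn G v S), sum_const,
      nsmul_eq_mul]
  have h4 := card_nb_add_nn' (G := G) v S
  have h5 := int_par (nn G v S).card a
  unfold L2
  rw [← h4]
  push_cast
  nlinarith

end GAAux

lemma L2_nonneg {q : ℕ} (a : ℕ) {S : Finset V} (h : CF G q S) : 0 ≤ L2 G S q a := by
  have := cw_miss a h
  unfold L2
  linarith

lemma cw_heavy {q : ℕ} (a : ℕ) {S : Finset V} (h : CF G q S) :
    ∑ u ∈ S.filter (fun u => 3 * a + 3 ≤ (nn G u S).card), (((nn G u S).card : ℝ) - (a + 1))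
      ≤ 3 / 2 * L2 G S q a := by
  have h1 := mul_le_mul_of_nonneg_left (caro_wei q S h) (show (0 : ℝ) ≤ a * (a + 1) by positivity)
  have h2 : ∀ u ∈ S, (if 3 * a + 3 ≤ (nn G u S).card then ((nn G u S).card : ℝ) - (a + 1) else 0)
      ≤ 3 / 2 * ((nn G u S).card - (2 * a + 1) + a * (a + 1) * (1 / (nn G u S).card)) := by
    intro u hu
    have a1 : (0 : ℝ) < (nn G u S).card := by exact_mod_cast nn_pos hu
    have a2 := GAAux.int_par (nn G u S).card a
    have a3 : ((nn G u S).card : ℝ) - (2 * a + 1) + a * (a + 1) * (1 / (nn G u S).card)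
        = ((nn G u S).card - a) * ((nn G u S).card - (a + 1)) / (nn G u S).card := by
      field_simp
      ring
    rw [a3]
    split_ifs with c
    · have c' : 3 * (a : ℝ) + 3 ≤ (nn G u S).card := by exact_mod_cast c
      have ha : (0 : ℝ) ≤ a := Nat.cast_nonneg _
      rw [← mul_div_assoc, le_div_iff₀ a1]
      nlinarith [mul_nonneg (show 0 ≤ ((nn G u S).card : ℝ) - (a + 1) by linarith)
        (show 0 ≤ ((nn G u S).card : ℝ) - 3 * a by linarith)]
    · positivity
  have h3 := sum_le_sum h2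
  rw [← mul_sum, sum_add_distrib, sum_sub_distrib, sum_const, ← mul_sum, nsmul_eq_mul] at h3
  rw [sum_filter]
  unfold L2
  linarith

theorem lemW (q a : ℕ) (S Lt : Finset V) (h : CF G q S) {lam : ℝ} (hl : 0 ≤ lam) (e : V → ℝ)
    (he : ∀ z, 0 ≤ e z) (hm : ∀ z ∈ S ∩ Lt, ((nn G z S).card : ℝ) ≤ lam + e z) :
    Hc G S Lt ≤ 5 * lam * L2 G S q a + 4 * ∑ z ∈ S ∩ Lt, e z * (nn G z S).card := by
  induction q generalizing S with
  | zero =>
    rw [eq_empty_of_forall_notMem (s := S) fun x hx => by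
      simpa using h {x} (by simpa using hx) (by simp)]
    simp [Hc, L2]
  | succ q ih =>
    rcases S.eq_empty_or_nonempty with rfl | hne
    · have := L2_nonneg (G := G) a h
      simp only [Hc, sum_empty, empty_inter, mul_zero, add_zero]
      positivity
    obtain ⟨v, hv, hmin⟩ := exists_min_image S (fun u => (nn G u S).card) hne
    have hsub : ∀ z, ((nn G z (nb G v S)).card : ℝ) ≤ (nn G z S).card := fun z => by
      exact_mod_cast card_le_card (nn_mono z (nb_subset _ _))
    have hin : ∀ z ∈ nb G v S ∩ Lt, z ∈ S ∩ Lt := fun z hz =>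
      inter_subset_inter_right (nb_subset v S) hz
    have hin' : ∀ z ∈ nn G v S ∩ Lt, z ∈ S ∩ Lt := fun z hz =>
      inter_subset_inter_right (nn_subset v S) hz
    have h1 := ih (nb G v S) (h.nb hv) fun z hz => (hsub z).trans (hm z (hin z hz))
    have h2 := GAAux.L2_step (G := G) q a S v
    obtain ⟨μ, hμ⟩ : ∃ μ, μ = ∑ x ∈ nn G v S, ((nn G x (nb G v S)).card : ℝ) := ⟨_, rfl⟩
    have hμ' : μ = ∑ z ∈ nb G v S, ((nn G z (nn G v S)).card : ℝ) := by rw [hμ, sum_nn_comm]
    have hp : (0 : ℝ) < (nn G v S).card := by exact_mod_cast nn_pos hv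
    have hmin' : ∀ z ∈ S, ((nn G v S).card : ℝ) ≤ (nn G z S).card := fun z hz => by
      exact_mod_cast hmin z hz
    have hι : GAAux.ec G (nn G v S) ≤ μ := by
      rw [hμ]
      refine sum_le_sum fun x hx => ?_
      linarith [card_nb_add_nn' (G := G) x (nn G v S), nn_split (G := G) x v S,
        hmin' x (nn_subset _ _ hx)]
    have hι2 : GAAux.ec G (nn G v S) ≤ (nn G v S).card * (nn G v S).card := by
      rw [← nsmul_eq_mul]
      exact sum_le_card_nsmul _ _ _ fun x _ => by exact_mod_cast card_le_card (nb_subset x _)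
    obtain ⟨r, hr⟩ : ∃ r, r = GAAux.ec G (nn G v S) / (nn G v S).card := ⟨_, rfl⟩
    have hr0 : 0 ≤ r := by
      rw [hr]
      exact div_nonneg (sum_nonneg fun _ _ => Nat.cast_nonneg _) hp.le
    have hr1 : r * (nn G v S).card = GAAux.ec G (nn G v S) := by
      rw [hr, div_mul_cancel₀ _ hp.ne']
    have hr2 : r ≤ (nn G v S).card := by rw [hr, div_le_iff₀ hp]; exact hι2
    have b1 : ∀ z ∈ nb G v S ∩ Lt, GAAux.ec G (nn G z S) ≤ GAAux.ec G (nn G z (nb G v S))
        + (2 * lam * (nn G z (nn G v S)).card + 2 * (e z * (nn G z (nn G v S)).card)) := by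
      intro z hz
      have c1 := GAAux.ec_le (G := G) (nn_mono z (nb_subset v S)) (nn_split (G := G) z v S)
      have c2 := mul_le_mul_of_nonneg_left (hm z (hin z hz))
        (Nat.cast_nonneg (α := ℝ) (nn G z (nn G v S)).card)
      nlinarith
    have b2 : ∀ z ∈ nn G v S ∩ Lt, GAAux.ec G (nn G z S) ≤ r * lam
        + (2 * lam * (nn G z (nb G v S)).card + 3 * (e z * (nn G z S).card)) := by
      intro z hz
      have c1 := GAAux.ec_le (G := G) (nn_mono z (nn_subset v S))
        ((nn_split (G := G) z v S).trans (add_comm _ _))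
      have c2 := mul_le_mul_of_nonneg_left (hm z (hin' z hz))
        (Nat.cast_nonneg (α := ℝ) (nn G z (nb G v S)).card)
      have c3 := GAAux.ec_mono (G := G) (nn_subset (G := G) z (nn G v S))
      have c4 := hmin' z (mem_inter.1 (hin' z hz)).1
      have c5 := mul_le_mul_of_nonneg_left (c4.trans (hm z (hin' z hz))) hr0
      have c6 := mul_le_mul_of_nonneg_left (hr2.trans c4) (he z)
      have c7 := mul_le_mul_of_nonneg_left (hsub z) (he z)
      nlinarith
    have s1 := sum_le_sum b1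
    have s2 := sum_le_sum b2
    rw [sum_add_distrib, sum_add_distrib, ← mul_sum, ← mul_sum, ← GAAux.Hc_eq] at s1
    rw [sum_add_distrib, sum_const, nsmul_eq_mul, sum_add_distrib, ← mul_sum, ← mul_sum] at s2
    have t1 : ∑ z ∈ nb G v S ∩ Lt, ((nn G z (nn G v S)).card : ℝ) ≤ μ := by
      rw [hμ']
      exact sum_le_sum_of_subset_of_nonneg inter_subset_left fun _ _ _ => Nat.cast_nonneg _
    have t2 : ∑ z ∈ nn G v S ∩ Lt, ((nn G z (nb G v S)).card : ℝ) ≤ μ := by
      rw [hμ]
      exact sum_le_sum_of_subset_of_nonneg inter_subset_left fun _ _ _ => Nat.cast_nonneg _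
    have t3 : ((nn G v S ∩ Lt).card : ℝ) * (r * lam) ≤ lam * μ := by
      have c1 : ((nn G v S ∩ Lt).card : ℝ) ≤ (nn G v S).card := by
        exact_mod_cast card_le_card inter_subset_left
      have c2 := mul_le_mul_of_nonneg_right c1 (mul_nonneg hr0 hl)
      have c3 := mul_le_mul_of_nonneg_left hι hl
      rw [← hr1] at c3
      nlinarith
    have t4 : ∑ z ∈ nb G v S ∩ Lt, e z * (nn G z S).card
        = ∑ z ∈ nb G v S ∩ Lt, e z * (nn G z (nb G v S)).card
          + ∑ z ∈ nb G v S ∩ Lt, e z * (nn G z (nn G v S)).card := by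
      rw [← sum_add_distrib]
      exact sum_congr rfl fun z _ => by rw [nn_split z v S, mul_add]
    have t5 : 0 ≤ ∑ z ∈ nb G v S ∩ Lt, e z * (nn G z (nn G v S)).card :=
      sum_nonneg fun z _ => mul_nonneg (he z) (Nat.cast_nonneg _)
    have t6 : 0 ≤ ∑ z ∈ nn G v S ∩ Lt, e z * (nn G z S).card :=
      sum_nonneg fun z _ => mul_nonneg (he z) (Nat.cast_nonneg _)
    have t7 : lam * (L2 G (nb G v S) q a + μ) ≤ lam * L2 G S (q + 1) a :=
      mul_le_mul_of_nonneg_left (by rw [← hμ] at h2; linarith) hl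
    have t8 := mul_le_mul_of_nonneg_left t1 hl
    have t9 := mul_le_mul_of_nonneg_left t2 hl
    rw [GAAux.Hc_eq, GAAux.sum_split (G := G) v, GAAux.sum_split (G := G) v S Lt, t4]
    linarith

lemma lemW0 (q a : ℕ) (S Lt : Finset V) (h : CF G q S) {lam : ℝ} (hl : 0 ≤ lam)
    (hm : ∀ z ∈ S ∩ Lt, ((nn G z S).card : ℝ) ≤ lam) : Hc G S Lt ≤ 5 * lam * L2 G S q a := by
  simpa using lemW q a S Lt h hl (fun _ => 0) (fun _ => le_rfl) (by simpa using hm)

end Pool.Agent.Lib.MP_1b6faf_co.Un
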