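import Pool.Agent.Lib.MP_1b6faf_co.Un.Defs

/-!
Recursions for the number of cliques.
-/

namespace Pool.Agent.Lib.MP_1b6faf_co.Un

open Finset Pool.Agent.Lib.MP_1b6faf_co.H8
open scoped Classical

variable {V : Type*} {G : SimpleGraph V}

lemma codeg (u y : V) (C : Finset V) : (nb G y (nb G u C)).card + (nn G u C).card + (nn G y C).card
    = C.card + (nn G u C ∩ nn G y C).card := by
  have h1 := card_union_add_card_inter (nn G u C) (nn G y C)
  have h2 : nb G y (nb G u C) = C \ (nn G u C ∪ nn G y C) := by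
    ext z
    simp only [mem_nb, mem_nn, mem_sdiff, mem_union]
    tauto
  have h3 := card_sdiff_add_card_eq_card (union_subset (nn_subset (G := G) u C) (nn_subset (G := G) y C))
  rw [h2]
  omega

lemma cnt2_zero {u y : V} (h : G.Adj u y) (S : Finset V) :
    ((clq G 1 S).filter fun Q => u ∈ Q ∧ y ∈ Q).card = 0 := by
  rw [card_eq_zero, filter_eq_empty_iff]
  rintro Q hQ ⟨h1, h2⟩
  exact h.ne (card_le_one.1 (mem_clq.1 hQ).2.2.le u h1 y h2)

lemma cnt2 {u y : V} (h : G.Adj u y) (l : ℕ) (S : Finset V) :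
    (((clq G (l + 2) S).filter fun Q => u ∈ Q ∧ y ∈ Q).card : ℝ) ≤ kc G l (nb G y (nb G u S)) := by
  refine card_le_kc _ {u, y} _ l fun Q hQ => ?_
  obtain ⟨a1, a2, a3⟩ := mem_filter.1 hQ
  obtain ⟨b1, b2, b3⟩ := mem_clq.1 a1
  refine ⟨b2, insert_subset a2 (singleton_subset_iff.2 a3), by rw [card_pair h.ne, b3], fun z hz => ?_⟩
  obtain ⟨c1, c2⟩ := mem_sdiff.1 hz
  simp only [mem_insert, mem_singleton, not_or] at c2
  exact mem_nb.2 ⟨mem_nb.2 ⟨b1 c1, b2 a2 c1 (Ne.symm c2.1)⟩, b2 a3 c1 (Ne.symm c2.2)⟩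

lemma cnt1 {u : V} {S : Finset V} (hu : u ∈ S) (k : ℕ) :
    (((clq G (k + 1) S).filter fun Q => u ∈ Q).card : ℝ) = kc G k (nb G u S) := by
  have h1 : kc G k (nb G u S) = ∑ K ∈ (cl G S).filter (fun K => u ∈ K), ind (k + 1) K.card := by
    rw [sum_cl_mem_card hu, ind_succ]; rfl
  rw [h1, clq, filter_comm, card_filter]
  push_cast
  rfl

/-- common neighbours of a set -/
noncomputable def cn (G : SimpleGraph V) (S Q : Finset V) : Finset V :=
  S.filter fun z => ∀ u ∈ Q, G.Adj u z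

lemma succ_le_cn (k : ℕ) (S : Finset V) :
    ((k : ℝ) + 1) * kc G (k + 1) S ≤ ∑ Q ∈ clq G k S, ((cn G S Q).card : ℝ) := by
  rw [kc_succ]
  have h1 : ∀ z ∈ S, kc G k (nb G z S)
      ≤ ∑ Q ∈ clq G k S, if (∀ u ∈ Q, G.Adj u z) then (1 : ℝ) else 0 := fun z _ => by
    rw [kc_clq, ← sum_filter, sum_const, nsmul_eq_mul, mul_one, Nat.cast_le]
    refine card_le_card fun Q hQ => ?_
    obtain ⟨b1, b2, b3⟩ := mem_clq.1 hQ
    exact mem_filter.2 ⟨mem_clq.2 ⟨b1.trans (nb_subset _ _), b2, b3⟩,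
      fun u hu => (mem_nb.1 (b1 hu)).2.symm⟩
  refine (sum_le_sum h1).trans (le_of_eq ?_)
  rw [sum_comm]
  refine sum_congr rfl fun Q _ => ?_
  rw [cn, card_filter]
  push_cast
  rfl

lemma bonf (S Lt Q : Finset V) : ((cn G S Q).card : ℝ) ≤ S.card
    - ∑ u ∈ Q, ((nn G u S ∩ Lt).card : ℝ)
    + 1 / 2 * ∑ u ∈ Q, ∑ y ∈ Q.erase u, ((nn G u S ∩ nn G y S ∩ Lt).card : ℝ) := by
  let f : V → V → ℝ := fun u z => if ¬ G.Adj u z ∧ z ∈ Lt then 1 else 0
  have e1 : ∀ u, ((nn G u S ∩ Lt).card : ℝ) = ∑ z ∈ S, f u z := fun u => by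
    rw [← sum_filter, sum_const, nsmul_eq_mul, mul_one]
    congr 2
    ext z
    simp [mem_nn, and_assoc]
  have e2 : ∀ u y, ((nn G u S ∩ nn G y S ∩ Lt).card : ℝ) = ∑ z ∈ S, f u z * f y z := fun u y => by
    simp only [f, ite_zero_mul_ite_zero, mul_one]
    rw [← sum_filter, sum_const, nsmul_eq_mul, mul_one]
    congr 2
    ext z
    simp only [mem_nn, mem_inter, mem_filter]
    tauto
  have e3 : ∀ u z, f u z * f u z = f u z := fun u z => by
    simp only [f]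
    split_ifs <;> simp
  simp only [e1, e2]
  rw [sum_comm, sum_congr rfl fun u _ => sum_comm, sum_comm (s := Q), cn, card_filter,
    card_eq_sum_ones S, mul_sum]
  push_cast
  rw [← sum_sub_distrib, ← sum_add_distrib]
  refine sum_le_sum fun z _ => ?_
  have e4 : ∑ u ∈ Q, ∑ y ∈ Q.erase u, f u z * f y z = (∑ u ∈ Q, f u z) ^ 2 - ∑ u ∈ Q, f u z := by
    rw [sq, sum_mul, ← sum_sub_distrib]
    refine sum_congr rfl fun u hu => ?_
    rw [← mul_sum, ← add_sum_erase Q (fun y => f y z) hu, mul_add, e3]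
    ring
  obtain ⟨c, hc⟩ : ∃ c : ℕ, ∑ u ∈ Q, f u z = c :=
    ⟨(Q.filter fun u => ¬ G.Adj u z ∧ z ∈ Lt).card, by
      rw [← sum_filter, sum_const, nsmul_eq_mul, mul_one]⟩
  rw [e4, hc]
  split_ifs with h
  · have : (c : ℝ) = 0 := by
      rw [← hc]
      exact sum_eq_zero fun u hu => if_neg fun e => e.1 (h u hu)
    rw [this]
    norm_num
  · rcases Nat.lt_or_ge c 2 with d | d
    · have : (c : ℝ) ≤ 1 := by exact_mod_cast Nat.lt_succ_iff.1 d
      nlinarith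
    · have : (2 : ℝ) ≤ c := by exact_mod_cast d
      nlinarith

lemma sum_mem_swap {F : Finset (Finset V)} {S : Finset V} (h : ∀ Q ∈ F, Q ⊆ S)
    (g : V → Finset V → ℝ) :
    ∑ Q ∈ F, ∑ u ∈ Q, g u Q = ∑ u ∈ S, ∑ Q ∈ F.filter (fun Q => u ∈ Q), g u Q :=
  sum_comm' fun Q u => by
    simp only [mem_filter]
    exact ⟨fun a => ⟨⟨a.1, a.2⟩, h Q a.1 a.2⟩, fun a => a.1⟩

theorem rec_up (k : ℕ) (S Lt : Finset V) (b : ℝ) {β : ℝ}
    (hβ : ∀ u ∈ S, ∀ y ∈ nb G u S,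
      (((clq G (k + 1) S).filter fun Q => u ∈ Q ∧ y ∈ Q).card : ℝ) ≤ β) :
    ((k : ℝ) + 2) * kc G (k + 2) S ≤ (S.card - (k + 1) * b) * kc G (k + 1) S
      + ∑ u ∈ S, (b - (nn G u S ∩ Lt).card) * kc G k (nb G u S) + β / 2 * Hc G S Lt := by
  have h1 := (succ_le_cn (G := G) (k + 1) S).trans (sum_le_sum fun Q _ => bonf S Lt Q)
  have hs : ∀ Q ∈ clq G (k + 1) S, Q ⊆ S := fun Q hQ => (mem_clq.1 hQ).1
  rw [sum_add_distrib, sum_sub_distrib, sum_const, nsmul_eq_mul, ← kc_clq, ← mul_sum,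
    sum_mem_swap hs, sum_mem_swap hs] at h1
  have h2 : ∑ u ∈ S, ∑ _Q ∈ (clq G (k + 1) S).filter (fun Q => u ∈ Q), ((nn G u S ∩ Lt).card : ℝ)
      = ∑ u ∈ S, ((nn G u S ∩ Lt).card : ℝ) * kc G k (nb G u S) :=
    sum_congr rfl fun u hu => by rw [sum_const, nsmul_eq_mul, cnt1 hu, mul_comm]
  have h3 : ∑ u ∈ S, ∑ Q ∈ (clq G (k + 1) S).filter (fun Q => u ∈ Q),
      ∑ y ∈ Q.erase u, ((nn G u S ∩ nn G y S ∩ Lt).card : ℝ) ≤ β * Hc G S Lt := by
    rw [Hc, mul_sum]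
    refine sum_le_sum fun u hu => ?_
    rw [sum_comm' (t' := nb G u S) (s' := fun y => (clq G (k + 1) S).filter fun Q => u ∈ Q ∧ y ∈ Q),
      mul_sum]
    · refine sum_le_sum fun y hy => ?_
      rw [sum_const, nsmul_eq_mul]
      exact mul_le_mul_of_nonneg_right (hβ u hu y hy) (Nat.cast_nonneg _)
    · intro Q y
      simp only [mem_filter, mem_erase, mem_nb]
      exact ⟨fun a => ⟨⟨a.1.1, a.1.2, a.2.2⟩, hs Q a.1.1 a.2.2,
        (mem_clq.1 a.1.1).2.1 a.1.2 a.2.2 (Ne.symm a.2.1)⟩,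
        fun a => ⟨⟨a.1.1, a.1.2.1⟩, a.2.2.ne', a.1.2.2⟩⟩
  have h4 := kc_succ (G := G) k S
  rw [h2] at h1
  simp only [sub_mul, sum_sub_distrib]
  rw [← mul_sum, ← h4]
  push_cast at h1
  linarith

theorem rec_low (k : ℕ) (S : Finset V) {X μ : ℝ} (hX : 0 < X) (hS : (S.card : ℝ) ≤ X)
    (hμ : ∑ u ∈ S, ((nn G u S).card : ℝ) ≤ μ * X) :
    X ^ k * (1 - k * ((X - S.card) / X) - k ^ 2 * (μ / X)) ≤ k.factorial * kc G k S := by
  induction k generalizing S with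
  | zero => simp [kc_zero]
  | succ k ih =>
    have hμ0 : 0 ≤ μ := nonneg_of_mul_nonneg_left
      ((sum_nonneg fun _ _ => Nat.cast_nonneg _).trans hμ) hX
    have key : ∀ u ∈ S, X ^ k * (1 - k * ((X - S.card) / X) - k ^ 2 * (μ / X))
        - X ^ k * (k / X) * (nn G u S).card ≤ k.factorial * kc G k (nb G u S) := fun u _ => by
      have a1 := card_nb_add_nn' (G := G) u S
      refine le_of_eq_of_le ?_ (ih (nb G u S) (by linarith [Nat.cast_nonneg (α := ℝ) (nn G u S).card])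
        (le_trans ((sum_le_sum fun z _ => ?_).trans (sum_le_sum_of_subset_of_nonneg (nb_subset _ _)
          fun _ _ _ => Nat.cast_nonneg _)) hμ))
      · rw [← a1]; ring
      · exact_mod_cast card_le_card (nn_mono z (nb_subset _ _))
    have h1 := sum_le_sum key
    rw [← mul_sum, ← kc_succ, sum_sub_distrib, sum_const, ← mul_sum, nsmul_eq_mul] at h1
    obtain ⟨α, hα⟩ : ∃ α, α = (X - S.card) / X := ⟨_, rfl⟩
    obtain ⟨m, hm⟩ : ∃ m, m = μ / X := ⟨_, rfl⟩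
    have hα0 : 0 ≤ α := by rw [hα]; exact div_nonneg (by linarith) hX.le
    have hm0 : 0 ≤ m := by rw [hm]; positivity
    have e1 : (S.card : ℝ) = (1 - α) * X := by rw [hα]; field_simp; ring
    have h2 := mul_le_mul_of_nonneg_left hμ (show 0 ≤ X ^ k * (k / X) by positivity)
    have e2 : X ^ k * (k / X) * (μ * X) = X ^ k * X * (k * m) := by rw [hm]; field_simp
    rw [← hα, ← hm] at h1 ⊢
    rw [e2] at h2
    rw [e1] at h1
    rw [Nat.factorial_succ, pow_succ]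
    push_cast
    have h3 : 0 ≤ X ^ k * X * (α * (k * α + k ^ 2 * m) + (k + 1) * m) := by positivity
    nlinarith

end Pool.Agent.Lib.MP_1b6faf_co.Un
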