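import Pool.Agent.Lib.MP_1b6faf_co.Un.GB

/-!
Cliques with at least two vertices outside a cluster.
-/

namespace Pool.Agent.Lib.MP_1b6faf_co.Un

open Finset Pool.Agent.Lib.MP_1b6faf_co.H8
open scoped Classical

variable {V : Type*} {G : SimpleGraph V}

lemma sq_mono {d c : ℕ} (h : d ≤ c) : (d : ℝ) * (d - 1) ≤ c * (c - 1) := by
  obtain ⟨e, rfl⟩ := Nat.exists_eq_add_of_le h
  push_cast
  rcases Nat.eq_zero_or_pos e with rfl | c
  · simp
  · have c' : (1 : ℝ) ≤ e := by exact_mod_cast c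
    nlinarith [Nat.cast_nonneg (α := ℝ) d]

lemma offDiag_cast (T : Finset V) : (T.offDiag.card : ℝ) = T.card * (T.card - 1) := by
  rw [offDiag_card, Nat.cast_sub (Nat.le_mul_self _)]
  push_cast
  ring

/-- double counting of pairs of a member of a family and an index -/
lemma dc {ι : Type*} (F : Finset (Finset V)) (P : Finset ι) (r : Finset V → ι → Prop)
    [∀ Q, DecidablePred (r Q)] [∀ p, DecidablePred fun Q => r Q p] {c β : ℝ}
    (hc : ∀ Q ∈ F, c ≤ (P.filter (r Q)).card) (hβ : ∀ p ∈ P, ((F.filter fun Q => r Q p).card : ℝ) ≤ β) :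
    c * F.card ≤ β * P.card := by
  have h1 := card_nsmul_le_sum F _ _ hc
  have h2 := sum_le_card_nsmul P _ _ hβ
  rw [nsmul_eq_mul] at h1 h2
  have h3 : ∑ Q ∈ F, ((P.filter (r Q)).card : ℝ) = ∑ p ∈ P, ((F.filter fun Q => r Q p).card : ℝ) := by
    simp only [card_filter]
    push_cast
    exact sum_comm
  linarith

lemma tail (l d : ℕ) (S O : Finset V) {β : ℝ} (hβ0 : 0 ≤ β)
    (hβ : ∀ z ∈ S, ∀ y ∈ nb G z S, kc G l (nb G y (nb G z S)) ≤ β) :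
    (d : ℝ) * (d - 1) * ((clq G (l + 2) S).filter fun R => d ≤ (R ∩ O).card).card
      ≤ (O.card : ℝ) ^ 2 * β := by
  refine (dc _ O.offDiag (fun R p => p.1 ∈ R ∧ p.2 ∈ R) (β := β) (fun R hR => ?_) fun p hp => ?_).trans ?_
  · refine (sq_mono (mem_filter.1 hR).2).trans ?_
    rw [← offDiag_cast, Nat.cast_le]
    refine card_le_card fun p hp => ?_
    simp only [mem_offDiag, mem_inter, mem_filter] at *
    tauto
  · rcases (((clq G (l + 2) S).filter fun R => d ≤ (R ∩ O).card).filter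
      fun R => p.1 ∈ R ∧ p.2 ∈ R).eq_empty_or_nonempty with e | ⟨R, hR⟩
    · rw [e, card_empty, Nat.cast_zero]; exact hβ0
    obtain ⟨a1, a2, a3⟩ := mem_filter.1 hR
    obtain ⟨b1, b2, -⟩ := mem_clq.1 (mem_filter.1 a1).1
    have a4 : G.Adj p.1 p.2 := b2 a2 a3 (mem_offDiag.1 hp).2.2
    refine le_trans ?_ ((cnt2 a4 l S).trans (hβ _ (b1 a2) _ (mem_nb.2 ⟨b1 a3, a4⟩)))
    exact_mod_cast card_le_card (filter_subset_filter _ (filter_subset _ _))
  · rw [offDiag_cast, mul_comm]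
    exact mul_le_mul_of_nonneg_right (by nlinarith [Nat.cast_nonneg (α := ℝ) O.card]) hβ0

variable [Fintype V]

lemma cnt3 (l : ℕ) {u w w' : V} (h1 : u ≠ w) (h2 : u ≠ w') (h3 : w ≠ w') (F : Finset (Finset V))
    (hF : F ⊆ clq G (l + 3) univ) :
    ((F.filter fun Q => u ∈ Q ∧ w ∈ Q ∧ w' ∈ Q).card : ℝ)
      ≤ kc G l (nb G w' (nb G w (nb G u univ))) := by
  refine card_le_kc _ {u, w, w'} _ l fun Q hQ => ?_
  obtain ⟨a1, a2, a3, a4⟩ := mem_filter.1 hQ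
  obtain ⟨-, b2, b3⟩ := mem_clq.1 (hF a1)
  refine ⟨b2, insert_subset a2 (insert_subset a3 (singleton_subset_iff.2 a4)),
    by rw [b3, card_eq_three.2 ⟨u, w, w', h1, h2, h3, rfl⟩], fun z hz => ?_⟩
  obtain ⟨c1, c2⟩ := mem_sdiff.1 hz
  simp only [mem_insert, mem_singleton, not_or] at c2
  exact mem_nb.2 ⟨mem_nb.2 ⟨mem_nb.2 ⟨mem_univ _, b2 a2 c1 (Ne.symm c2.1)⟩,
    b2 a3 c1 (Ne.symm c2.2.1)⟩, b2 a4 c1 (Ne.symm c2.2.2)⟩

theorem Ycount (t : ℕ) (C U : Finset V) (hU : U ⊆ C) (F : Finset (Finset V))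
    (hF : F ⊆ clq G t univ) {c β : ℝ} (hβ0 : 0 ≤ β)
    (hc : ∀ Q ∈ F, c ≤ (Q ∩ U).card * (((Q \ C).card : ℝ) * ((Q \ C).card - 1)))
    (hβ : ∀ u ∈ U, ∀ w ∈ out G C u, ∀ w' ∈ out G C u, w ≠ w' →
      ((F.filter fun Q => u ∈ Q ∧ w ∈ Q ∧ w' ∈ Q).card : ℝ) ≤ β) :
    c * F.card ≤ β * ∑ u ∈ C, ((out G C u).card : ℝ) * ((out G C u).card - 1) := by
  refine (dc F (U.sigma fun u => (out G C u).offDiag) (fun Q p => p.1 ∈ Q ∧ p.2.1 ∈ Q ∧ p.2.2 ∈ Q)
    (β := β) (fun Q hQ => (hc Q hQ).trans ?_) fun p hp => ?_).trans ?_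
  · have a1 : (((Q ∩ U).sigma fun _ => (Q \ C).offDiag).card : ℝ)
        = (Q ∩ U).card * (((Q \ C).card : ℝ) * ((Q \ C).card - 1)) := by
      rw [card_sigma, sum_const, smul_eq_mul, Nat.cast_mul, offDiag_cast]
    rw [← a1, Nat.cast_le]
    refine card_le_card fun p hp => ?_
    obtain ⟨b1, b2⟩ := mem_sigma.1 hp
    obtain ⟨b3, b4, b5⟩ := mem_offDiag.1 b2
    obtain ⟨c1, c2⟩ := mem_inter.1 b1
    have hq := (mem_clq.1 (hF hQ)).2.1
    have key : ∀ w ∈ Q \ C, w ∈ out G C p.1 := fun w hw => mem_out.2 ⟨(mem_sdiff.1 hw).2,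
      hq c1 (mem_sdiff.1 hw).1 fun e => (mem_sdiff.1 hw).2 (e ▸ hU c2)⟩
    exact mem_filter.2 ⟨mem_sigma.2 ⟨c2, mem_offDiag.2 ⟨key _ b3, key _ b4, b5⟩⟩, c1,
      (mem_sdiff.1 b3).1, (mem_sdiff.1 b4).1⟩
  · obtain ⟨b1, b2⟩ := mem_sigma.1 hp
    obtain ⟨b3, b4, b5⟩ := mem_offDiag.1 b2
    exact hβ _ b1 _ b3 _ b4 b5
  · refine mul_le_mul_of_nonneg_left ?_ hβ0
    rw [card_sigma]
    push_cast
    simp only [offDiag_cast]
    exact sum_le_sum_of_subset_of_nonneg hU fun u _ _ => by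
      rw [← offDiag_cast]; exact Nat.cast_nonneg _

theorem Ygen (l : ℕ) (C : Finset V) {β : ℝ} (hβ0 : 0 ≤ β)
    (hβ : ∀ u ∈ C, kc G l (nb G u univ) ≤ β) :
    2 * ((l : ℝ) + 1) * (Yc G (l + 3) C).card
      ≤ β * ∑ u ∈ C, ((out G C u).card : ℝ) * ((out G C u).card - 1) := by
  refine Ycount (l + 3) C C Subset.rfl _ (filter_subset _ _) hβ0 (fun Q hQ => ?_)
    fun u hu w hw w' hw' hne => ?_
  · obtain ⟨a1, a2, a3⟩ := mem_filter.1 hQ
    have b1 : (1 : ℝ) ≤ (Q ∩ C).card := by exact_mod_cast card_pos.2 a2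
    have b2 : (2 : ℝ) ≤ (Q \ C).card := by exact_mod_cast a3
    have b3 : ((Q \ C).card : ℝ) + (Q ∩ C).card = l + 3 := by
      exact_mod_cast (card_sdiff_add_card_inter Q C).trans (mem_clq.1 a1).2.2
    nlinarith [mul_nonneg (sub_nonneg.2 b1) (sub_nonneg.2 b2), mul_nonneg (mul_nonneg
      (zero_le_one.trans b1) (sub_nonneg.2 b2)) (show (0 : ℝ) ≤ (Q \ C).card - 1 by linarith)]
  · exact (cnt3 l (mem_out.1 hw).2.ne (mem_out.1 hw').2.ne hne _ (filter_subset _ _)).trans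
      ((kc_mono _ ((nb_subset _ _).trans (nb_subset _ _))).trans (hβ u hu))

/-- cliques with many vertices in `A` are counted from `A`, the others from all of `C` -/
theorem Ysp (t : ℕ) (A C : Finset V) (hA : A ⊆ C) {β1 β2 : ℝ} (h1 : 0 ≤ β1) (h2 : 0 ≤ β2)
    (hβ1 : ∀ u ∈ A, ∀ w ∈ out G C u, ∀ w' ∈ out G C u, w ≠ w' →
      (((clq G t univ).filter fun Q => u ∈ Q ∧ w ∈ Q ∧ w' ∈ Q).card : ℝ) ≤ β1)
    (hβ2 : ∀ u ∈ C, ∀ w ∈ out G C u, ∀ w' ∈ out G C u, w ≠ w' →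
      (((clq G t univ).filter fun Q => 2 * (Q ∩ A).card < t ∧ u ∈ Q ∧ w ∈ Q ∧ w' ∈ Q).card : ℝ) ≤ β2) :
    (t : ℝ) * (Yc G t C).card
      ≤ (β1 + t * β2 / 2) * ∑ u ∈ C, ((out G C u).card : ℝ) * ((out G C u).card - 1) := by
  have key : ∀ Q ∈ Yc G t C, (2 : ℝ) ≤ (Q \ C).card * ((Q \ C).card - 1) := fun Q hQ => by
    have := sq_mono (mem_filter.1 hQ).2.2
    norm_num at this
    exact this
  have a1 := Ycount (G := G) t C A hA ((Yc G t C).filter fun Q => ¬ 2 * (Q ∩ A).card < t)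
    ((filter_subset _ _).trans (filter_subset _ _)) (c := t) h1 (fun Q hQ => by
      have b1 : (t : ℝ) ≤ 2 * (Q ∩ A).card := by exact_mod_cast not_lt.1 (mem_filter.1 hQ).2
      nlinarith [mul_le_mul_of_nonneg_left (key Q (mem_filter.1 hQ).1)
        (Nat.cast_nonneg (α := ℝ) (Q ∩ A).card)])
    fun u hu w hw w' hw' hne => le_trans (by exact_mod_cast (card_le_card
      (filter_subset_filter _ ((filter_subset _ _).trans (filter_subset _ _))))) (hβ1 u hu w hw w' hw' hne)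
  have a2 := Ycount (G := G) t C C Subset.rfl ((Yc G t C).filter fun Q => 2 * (Q ∩ A).card < t)
    ((filter_subset _ _).trans (filter_subset _ _)) (c := 2) h2 (fun Q hQ => by
      have b1 : (1 : ℝ) ≤ (Q ∩ C).card := by
        exact_mod_cast card_pos.2 (mem_filter.1 (mem_filter.1 hQ).1).2.1
      nlinarith [key Q (mem_filter.1 hQ).1])
    fun u hu w hw w' hw' hne => le_trans (Nat.cast_le.2 (card_le_card fun Q hQ =>
      mem_filter.2 ⟨(mem_filter.1 (mem_filter.1 (mem_filter.1 hQ).1).1).1,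
        (mem_filter.1 (mem_filter.1 hQ).1).2, (mem_filter.1 hQ).2⟩)) (hβ2 u hu w hw w' hw' hne)
  have a3 : (((Yc G t C).filter fun Q => 2 * (Q ∩ A).card < t).card : ℝ)
      + ((Yc G t C).filter fun Q => ¬ 2 * (Q ∩ A).card < t).card = (Yc G t C).card := by
    exact_mod_cast card_filter_add_card_filter_not _
  rw [← a3]
  nlinarith [mul_le_mul_of_nonneg_left a2 (Nat.cast_nonneg (α := ℝ) t)]

end Pool.Agent.Lib.MP_1b6faf_co.Un
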