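import Pool.Agent.Lib.MP_1b6faf_co.Un.ZA

/-!
Cliques of moderate size: the cluster of a rich vertex.
-/

namespace Pool.Agent.Lib.MP_1b6faf_co.Un

open Finset Pool.Agent.Lib.MP_1b6faf_co.H8
open scoped Classical

variable {V : Type*} [Fintype V] {G : SimpleGraph V} {x : Par} {E β : ℝ}

namespace IAaux

lemma E1 (hI : HI x E β) : 1 ≤ E := by
  have h1 : (1 : ℝ) ≤ ((x.k : ℝ) + 1) ^ 5 := one_le_pow₀ (by linarith [x.k1])
  have h2 := hI.hE
  nlinarith [x.a1]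

lemma two_le (hI : HI x E β) : 2 ≤ ((x.k : ℝ) + 2) * (1 - β) := by
  have h1 := hI.hμ
  have h2 := E1 hI
  have h3 : 0 < ((x.k : ℝ) + 1) * x.Δ := mul_pos (by linarith [x.k1]) x.Δpos
  refine le_of_mul_le_mul_left ?_ h3
  unfold Par.J at h1
  linarith

lemma φΔ (hI : HI x E β) : x.φ * x.Δ + E ≤ β * x.Δ := by
  have h1 := hI.hx
  have h2 := x.φ_xr
  rw [x.nR] at h2
  nlinarith [mul_pos x.φpos (lt_of_lt_of_le zero_lt_one x.a1)]

lemma eps (hI : HI x E β) : 2 / ((x.k : ℝ) + 2) ≤ 1 - x.φ := by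
  have h1 := two_le hI
  have h2 : x.φ ≤ β := le_of_mul_le_mul_right (by linarith [φΔ hI, E1 hI]) x.Δpos
  have h3 : (0 : ℝ) < x.k + 2 := by positivity
  rw [div_le_iff₀ h3]
  nlinarith

lemma big (hI : HI x E β) : 2 * 10 ^ 10 * (((x.k : ℝ) + 1) ^ 3 * (x.a + 1)) ≤ x.Δ := by
  have h1 : ((x.k : ℝ) + 1) ^ 3 ≤ ((x.k : ℝ) + 1) ^ 5 :=
    pow_le_pow_right₀ (by linarith [x.k1]) (by norm_num)
  have h2 := mul_le_mul_of_nonneg_right h1 (show (0 : ℝ) ≤ x.a + 1 by positivity)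
  linarith [hI.hE, hI.hΔ]

omit [Fintype V] in
lemma trim {B C0 : Finset V} {n : ℕ} (h1 : B ⊆ C0) (h2 : B.card ≤ n) :
    ∃ C, B ⊆ C ∧ C ⊆ C0 ∧ C.card ≤ n ∧ (C.card < n → C = C0) := by
  rcases le_or_gt C0.card n with c | c
  · exact ⟨C0, h1, Subset.rfl, c, fun _ => rfl⟩
  · obtain ⟨C, a1, a2, a3⟩ := exists_subsuperset_card_eq h1 h2 c.le
    exact ⟨C, a1, a2, a3.le, fun e => absurd a3 e.ne⟩

end IAaux

open IAaux

lemma HI.price (hI : HI x E β) (b : ℕ) (h1 : 1 ≤ b) (h2 : b ≤ x.Δ) :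
    Z (x.q + 1) (x.Δ - b) (x.k + 1) < x.τ - b * x.pr := by
  have hΔ := x.Δpos
  refine x.price ?_ ?_ b h1 h2
  · rw [Par.pr, div_mul_eq_mul_div, div_lt_iff₀ (by linarith)]
    linarith [x.τpos]
  · have a1 := two_le hI
    have a2 := φΔ hI
    have a3 := E1 hI
    have k1 := x.k1
    have a4 : 0 < 1 - β := by
      by_contra hc
      nlinarith
    have a5 : 1 ≤ ((x.k : ℝ) + 1) * (1 - β) := by nlinarith
    have a6 := mul_le_mul_of_nonneg_right a5 hΔ.le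
    have a7 := mul_le_mul_of_nonneg_left a2 (show (0 : ℝ) ≤ x.k + 1 by positivity)
    have a8 := mul_le_mul_of_nonneg_left a3 (show (0 : ℝ) ≤ x.k + 1 by positivity)
    linarith

lemma rich_miss' (h : InC G x) {v : V} (hv : x.τ ≤ kc G (x.k + 1) (nb G v univ)) {ε : ℝ}
    (hε : 0 < ε) (hφ : ε ≤ 1 - x.φ) :
    ∑ u ∈ nb G v univ, ((nn G u (nb G v univ)).card : ℝ)
      ≤ (x.a + 1 + (18 * (x.a + 1) + 2) / ε) * x.Δ := by
  have hy : 0 < x.k / x.Δ * x.D := by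
    have := x.Dpos; have := x.Δpos; have := x.k1; positivity
  have top : ∀ u ∈ nb G v univ, kc G x.k (nb G u (nb G v univ))
      ≤ x.D + 18 * (x.a + 1) * (x.k / x.Δ * x.D) := fun u hu =>
    (zyk' x.k (h.cf2 (mem_nb.1 hu).2 univ) (h.degS _ _)).trans (top18 x)
  have hCa : (0 : ℝ) ≤ 18 * (x.a + 1) := by positivity
  generalize (18 * (x.a + 1) : ℝ) = Ca at *
  have key : ∀ u ∈ nb G v univ, kc G x.k (nb G u (nb G v univ)) ≤
      x.D + (Ca + ε * (x.a + 1)) * (x.k / x.Δ * x.D)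
        - ε * (x.k / x.Δ * x.D) * (nn G u (nb G v univ)).card := by
    intro u hu
    rcases le_or_gt (x.a + 1) (nn G u (nb G v univ)).card with c | c
    · have h1 := h.rich_decay hv c
      have h2 := (mul_le_mul_of_nonneg_right hφ x.Dpos.le).trans (h.rich_link hv hu)
      have h3 := zyk x.k _ _ (h.cf2 (mem_nb.1 hu).2 univ)
      have c' : (0 : ℝ) ≤ (nn G u (nb G v univ)).card - (x.a + 1) := by
        rw [sub_nonneg]; exact_mod_cast c
      have h4 := mul_le_mul_of_nonneg_right h2 (mul_nonneg c'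
        (show (0 : ℝ) ≤ x.k / x.Δ by positivity))
      nlinarith [mul_nonneg hCa hy.le]
    · have c' : ((nn G u (nb G v univ)).card : ℝ) ≤ x.a + 1 := by exact_mod_cast c.le
      nlinarith [top u hu, mul_le_mul_of_nonneg_left c' (mul_pos hε hy).le]
  have h1 := sum_le_sum key
  rw [← kc_succ, sum_sub_distrib, ← mul_sum, sum_const, nsmul_eq_mul, h.rich_card hv] at h1
  have h2 := mul_le_mul_of_nonneg_left hv (show (0 : ℝ) ≤ x.k + 1 by positivity)
  have h3 : x.Δ * (x.k / x.Δ * x.D) = x.k * x.D := by have := x.Δpos; field_simp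
  have h4 : x.Δ * x.D - 2 * (x.k * x.D) ≤ (x.k + 1) * x.τ := by
    have := mul_le_mul_of_nonneg_right x.φ1.le x.Dpos.le
    unfold Par.τ
    nlinarith [x.jP', x.k1, x.Dpos]
  generalize x.k / x.Δ * x.D = y at *
  refine le_of_mul_le_mul_left ?_ (mul_pos hε hy)
  have e : ε * y * ((x.a + 1 + (Ca + 2) / ε) * x.Δ) = (ε * (x.a + 1) + Ca + 2) * (x.Δ * y) := by
    field_simp
    ring
  rw [e]
  nlinarith

theorem cl1 (h : InC G x) (hI : HI x E β) {v : V} (hv : x.τ ≤ kc G (x.k + 1) (nb G v univ)) :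
    ∃ C, Cl1 G x C ∧ v ∈ C ∧ ∀ y ∈ C, x.Δ < 2 * (nb G y (C ∩ nb G v univ)).card := by
  have hΔ := x.Δpos
  have k1 := x.k1
  have a1 := x.a1
  have hm := rich_miss' h hv (show 0 < 2 / ((x.k : ℝ) + 2) by positivity) (eps hI)
  have hb := big hI
  obtain ⟨A, hA⟩ : ∃ A, A = nb G v univ := ⟨_, rfl⟩
  have hAc : A.card = x.Δ := hA ▸ h.rich_card hv
  have hvA : nb G v A = A := by rw [hA]; ext y; simp [mem_nb]
  rw [← hA] at hm ⊢
  obtain ⟨j, hj⟩ : ∃ j : ℝ, j = x.k + 1 := ⟨_, rfl⟩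
  obtain ⟨b, hb'⟩ : ∃ b : ℝ, b = x.a + 1 := ⟨_, rfl⟩
  have j2 : 2 ≤ j := by linarith
  have b2 : 2 ≤ b := by linarith
  have p0 : b ≤ j * b := by nlinarith
  have p1 : j * b ≤ j ^ 2 * b := by nlinarith
  have p2 : j ^ 2 * b ≤ j ^ 3 * b := by nlinarith
  rw [← hj, ← hb'] at hb
  have hM : ∑ u ∈ A, ((nn G u A).card : ℝ) ≤ 63 * j * b * A.card := by
    rw [hAc]
    refine hm.trans (mul_le_mul_of_nonneg_right ?_ hΔ.le)
    rw [div_div_eq_mul_div, ← hb', show (x.k : ℝ) + 2 = j + 1 by linarith]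
    nlinarith
  have hd : ∀ v, (nb G v univ).card ≤ A.card := fun v => hAc ▸ h.deg v
  have h0 : 0 < A.card := by rw [hAc]; exact_mod_cast hΔ
  obtain ⟨δ, hδ⟩ : ∃ δ : ℝ, δ = 1 / (200 * j) := ⟨_, rfl⟩
  have δ0 : 0 < δ := by rw [hδ]; positivity
  have δj : 200 * j * δ = 1 := by rw [hδ]; field_simp
  have δ4 : δ ≤ 1 / 400 := by nlinarith
  have h1 := clus_new hd h0 hM (δ := δ) (by linarith)
  have h2 := clus_lost (δ := δ) h0 hM
  have h3 := clus_miss hd h0 hM δ0 (by linarith) (by rw [hAc]; linarith)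
  have h4 := fun u => clus_nn (G := G) (A := A) (δ := δ) (u := u)
  have h5 := fun w => mem_clus (G := G) (A := A) (δ := δ) (w := w)
  generalize clus G A δ = C0 at *
  rw [hAc] at h3 h4 h5
  have h6 : ((A \ C0).card : ℝ) ≤ 12600 * (j ^ 2 * b) := by
    have := mul_le_mul_of_nonneg_left h2 (show 0 ≤ 200 * j by linarith)
    rw [← mul_assoc, δj] at this
    linarith
  have hv0 : v ∈ C0 := (h5 v).2 (by rw [hvA, hAc]; linarith [mul_pos δ0 hΔ])
  obtain ⟨C, c1, c2, c3, c4⟩ := trim (B := insert v (A ∩ C0)) (C0 := C0) (n := x.n)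
    (insert_subset hv0 inter_subset_right) (by
      have b1 := card_insert_le v (A ∩ C0)
      have b2 := card_le_card (inter_subset_left (s₁ := A) (s₂ := C0))
      have b3 := x.ha
      unfold Par.n
      omega)
  have s1 : A \ C ⊆ A \ C0 := fun y hy => mem_sdiff.2 ⟨(mem_sdiff.1 hy).1, fun e =>
    (mem_sdiff.1 hy).2 (c1 (mem_insert_of_mem (mem_inter.2 ⟨(mem_sdiff.1 hy).1, e⟩)))⟩
  have s2 : ((A \ C).card : ℝ) ≤ 12600 * (j ^ 2 * b) :=
    le_trans (by exact_mod_cast card_le_card s1) h6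
  have s3 : ((C \ A).card : ℝ) ≤ 2 * (63 * j * b) :=
    le_trans (by exact_mod_cast card_le_card (sdiff_subset_sdiff c2 Subset.rfl)) h1
  have s4 : (x.Δ : ℝ) ≤ (A \ C).card + C.card := by
    rw [← hAc]; exact_mod_cast card_le_card_sdiff_add_card
  refine ⟨C, ⟨c3, ?_, fun u hu => ?_, ?_, fun hc w hw => ?_⟩, c1 (mem_insert_self _ _),
    fun y hy => ?_⟩
  · rw [← hj, ← hb', x.nR]
    linarith
  · have e : (df G x C u : ℝ) + C.card = x.Δ + (nn G u C).card := by exact_mod_cast df_nn h C u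
    have e2 : (df G x C u : ℝ) ≤ δ * x.Δ + 12726 * (j ^ 2 * b) := by
      linarith [nn_le (G := G) u A C, h4 u (c2 hu)]
    have e3 := mul_le_mul_of_nonneg_left e2 (show 0 ≤ 100 * j by linarith)
    have e4 : 100 * j * (δ * x.Δ + 12726 * (j ^ 2 * b))
        = (200 * j * δ) * x.Δ / 2 + 1272600 * (j ^ 3 * b) := by ring
    rw [e4, δj] at e3
    rw [← hj]
    linarith
  · rw [← hj, ← hb']
    calc ∑ u ∈ C, ((nn G u C).card : ℝ) ≤ ∑ u ∈ C, ((nn G u C0).card : ℝ) :=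
          sum_le_sum fun u _ => by exact_mod_cast card_le_card (nn_mono u c2)
      _ ≤ ∑ u ∈ C0, ((nn G u C0).card : ℝ) :=
          sum_le_sum_of_subset_of_nonneg c2 fun _ _ _ => Nat.cast_nonneg _
      _ ≤ _ := by linarith
  · rw [← hj]
    have e1 := not_le.1 (mt (h5 w).2 (c4 hc ▸ hw))
    have e2 : 1 / (400 * j) = δ / 2 := by rw [hδ]; field_simp; norm_num
    have e3 : 252 * (j * b) ≤ δ * x.Δ := by
      refine le_of_mul_le_mul_left ?_ (show 0 < 200 * j by linarith)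
      rw [← mul_assoc (200 * j) δ, δj]
      nlinarith
    rw [e2]
    linarith [nb_le (G := G) w A C]
  · have e1 := nb_le (G := G) y (C ∩ A) A
    rw [sdiff_inter_self_right] at e1
    have e2 := mul_le_mul_of_nonneg_right δ4 hΔ.le
    have : (x.Δ : ℝ) < 2 * (nb G y (C ∩ A)).card := by linarith [(h5 y).1 (c2 hy)]
    exact_mod_cast this

end Pool.Agent.Lib.MP_1b6faf_co.Un
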