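import Pool.Agent.Lib.MP_1b6faf_co.Un.ZA
import Pool.Agent.Lib.MP_1b6faf_co.Un.GA
import Pool.Agent.Lib.MP_1b6faf_co.Un.GB

/-!
Cliques of moderate size: one step of the comparison with the Turan graph.
-/

namespace Pool.Agent.Lib.MP_1b6faf_co.Un

open Finset Pool.Agent.Lib.MP_1b6faf_co.H8
open scoped Classical

variable {V : Type*} [Fintype V] {G : SimpleGraph V} {x : Par} {E β : ℝ} {C : Finset V}

/-- ordered cliques lost by the cluster -/
noncomputable def el (G : SimpleGraph V) (x : Par) (C : Finset V) (l : ℕ) : ℝ :=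
  l.factorial * (Z (x.q + 2) x.n l - kc G l C)

namespace IB1Aux

lemma df_eq (h : InC G x) (C : Finset V) (u : V) :
    ((nn G u C).card : ℝ) - (x.a + 1) = df G x C u - (1 + (x.n - C.card)) := by
  have h1 : (df G x C u : ℝ) + C.card = x.Δ + (nn G u C).card := by exact_mod_cast df_nn h C u
  have h2 := x.nR
  linarith

omit [Fintype V] in
lemma sum_mb (G : SimpleGraph V) (x : Par) (C : Finset V) :
    ∑ u ∈ C, (((nn G u C).card : ℝ) - (x.a + 1))
      = L2 G C (x.q + 2) x.a - (x.n - x.xr) - x.a * (x.n - C.card) := by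
  rw [sum_sub_distrib, sum_const, nsmul_eq_mul, L2, Par.xr, x.nR']
  push_cast
  ring

lemma n_le (x : Par) : (x.n : ℝ) ≤ 2 * x.Δ := by
  have h1 := x.nR
  have h2 := x.ΔR
  have h3 : (0 : ℝ) ≤ x.N := Nat.cast_nonneg _
  linarith

lemma g_eq (x : Par) : (x.n : ℝ) - x.xr = (x.q + 1 - x.r) * x.a := by
  rw [Par.xr, x.nR']
  ring

lemma g_nonneg (x : Par) : (0 : ℝ) ≤ x.n - x.xr := by
  have h1 : (x.r : ℝ) + 1 ≤ x.q := by exact_mod_cast x.hr
  rw [g_eq]
  exact mul_nonneg (by linarith) (Nat.cast_nonneg _)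

lemma e_le (h : InC G x) (hC : C.card ≤ x.n) (u : V) :
    max (((nn G u C).card : ℝ) - (x.a + 1)) 0 ≤ df G x C u := by
  have h1 : (C.card : ℝ) ≤ x.n := by exact_mod_cast hC
  refine max_le ?_ (Nat.cast_nonneg _)
  rw [df_eq h]
  linarith

lemma bern {D y : ℝ} (hD : 0 < D) (hy : y ≤ D) (l : ℕ) :
    D ^ l * (1 - l * (y / D)) ≤ (D - y) ^ l := by
  have h1 : y / D ≤ 1 := (div_le_one hD).2 hy
  have h2 := one_add_mul_le_pow (a := -(y / D)) (by linarith) l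
  have h3 : D - y = D * (1 + -(y / D)) := by field_simp; ring
  rw [h3, mul_pow]
  exact mul_le_mul_of_nonneg_left (by linarith) (pow_nonneg hD.le l)

lemma num {κ lam ξ a j i γ : ℝ} (hκ : 0 ≤ κ) (hl : 0 ≤ lam) (hξ : 0 ≤ ξ) (ha : 0 ≤ a) (hi : 0 ≤ i)
    (hj : i + 1 ≤ j) (hγ : γ ≤ 2) :
    κ * ((i + 1) * ((i + 1) * (a + 1))) + (i + 1) * (γ * (i * (i * (a + 1)))) + (i + 1) * (a * κ)
      + (i + 1) * (i * ξ) + (i + 1) * (i ^ 2 * (378 * j * (a + 1)) * (lam + 2 * (1 + κ)))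
      + (i + 1) * i / 2 * (4 * ξ + 9 * (a + 1) * (lam + (1 + κ)))
      ≤ 3 * j ^ 2 * ξ + 1000 * j ^ 4 * (a + 1) * (1 + κ + lam) := by
  have j1 : 1 ≤ j := by linarith
  have j0 : 0 ≤ j := by linarith
  have ij : i ≤ j := by linarith
  have q12 : j ≤ j ^ 2 := by nlinarith
  have q23 : j ^ 2 ≤ j ^ 3 := pow_le_pow_right₀ j1 (by norm_num)
  have q34 : j ^ 3 ≤ j ^ 4 := pow_le_pow_right₀ j1 (by norm_num)
  have p1 : (i + 1) * (i + 1) ≤ j ^ 2 := by nlinarith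
  have p4 : (i + 1) * i ≤ j ^ 2 := by nlinarith
  have p2 : (i + 1) * i * i ≤ j ^ 3 := by
    calc (i + 1) * i * i ≤ j ^ 2 * j := mul_le_mul p4 ij hi (by positivity)
      _ = j ^ 3 := by ring
  have p5 : (i + 1) * i * i * j ≤ j ^ 4 := by
    calc (i + 1) * i * i * j ≤ j ^ 3 * j := mul_le_mul_of_nonneg_right p2 j0
      _ = j ^ 4 := by ring
  set W := 1 + κ + lam with hW
  have W1 : 1 ≤ W := by linarith
  have Wκ : κ ≤ W := by linarith
  have hb : 0 ≤ a + 1 := by linarith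
  have hbW : 0 ≤ (a + 1) * W := by positivity
  have t1 : κ * ((i + 1) * ((i + 1) * (a + 1))) ≤ j ^ 4 * ((a + 1) * W) := by
    calc κ * ((i + 1) * ((i + 1) * (a + 1))) = (i + 1) * (i + 1) * ((a + 1) * κ) := by ring
      _ ≤ j ^ 4 * ((a + 1) * W) :=
        mul_le_mul (by linarith) (mul_le_mul_of_nonneg_left Wκ hb) (by positivity) (by positivity)
  have t2 : (i + 1) * (γ * (i * (i * (a + 1)))) ≤ 2 * (j ^ 4 * ((a + 1) * W)) := by
    calc (i + 1) * (γ * (i * (i * (a + 1)))) = γ * ((i + 1) * i * i * ((a + 1) * 1)) := by ring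
      _ ≤ 2 * ((i + 1) * i * i * ((a + 1) * 1)) :=
        mul_le_mul_of_nonneg_right hγ (by positivity)
      _ ≤ 2 * (j ^ 4 * ((a + 1) * W)) := mul_le_mul_of_nonneg_left
        (mul_le_mul (by linarith) (mul_le_mul_of_nonneg_left W1 hb) (by positivity)
          (by positivity)) (by norm_num)
  have t3 : (i + 1) * (a * κ) ≤ j ^ 4 * ((a + 1) * W) :=
    mul_le_mul (by linarith) (mul_le_mul (by linarith) Wκ hκ hb) (by positivity) (by positivity)
  have t4 : (i + 1) * i * ξ ≤ j ^ 2 * ξ := mul_le_mul_of_nonneg_right p4 hξ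
  have t5 : (i + 1) * (i ^ 2 * (378 * j * (a + 1)) * (lam + 2 * (1 + κ)))
      ≤ 756 * (j ^ 4 * ((a + 1) * W)) := by
    calc (i + 1) * (i ^ 2 * (378 * j * (a + 1)) * (lam + 2 * (1 + κ)))
        = 378 * ((i + 1) * i * i * j * ((a + 1) * (lam + 2 * (1 + κ)))) := by ring
      _ ≤ 378 * (j ^ 4 * ((a + 1) * (2 * W))) := mul_le_mul_of_nonneg_left
        (mul_le_mul p5 (mul_le_mul_of_nonneg_left (by linarith) hb) (by positivity)
          (by positivity)) (by norm_num)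
      _ = 756 * (j ^ 4 * ((a + 1) * W)) := by ring
  have t6 : (i + 1) * i * ((a + 1) * W) ≤ j ^ 4 * ((a + 1) * W) :=
    mul_le_mul_of_nonneg_right (by linarith) hbW
  have t7 : 0 ≤ j ^ 4 * ((a + 1) * W) := by positivity
  have e1 : (i + 1) * i / 2 * (4 * ξ + 9 * (a + 1) * (lam + (1 + κ)))
      = 2 * ((i + 1) * i * ξ) + 9 / 2 * ((i + 1) * i * ((a + 1) * W)) := by
    rw [hW]; ring
  have e2 : (i + 1) * (i * ξ) = (i + 1) * i * ξ := by ring
  have e3 : 3 * j ^ 2 * ξ + 1000 * j ^ 4 * (a + 1) * W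
      = 3 * (j ^ 2 * ξ) + 1000 * (j ^ 4 * ((a + 1) * W)) := by ring
  rw [e1, e2, e3]
  linarith

lemma fin {X D κ L Ξ a j i g A B Sg H : ℝ} (hX : 0 ≤ X) (hD : 0 < D) (hκ : 0 ≤ κ) (hL : 0 ≤ L)
    (hΞ : 0 ≤ Ξ) (ha : 0 ≤ a) (hi : 0 ≤ i) (hj : i + 1 ≤ j) (hg : 0 ≤ g) (hg2 : g ≤ 2 * D)
    (hA : X * D * (1 - (i + 1) * ((i + 1) * (a + 1) / D)) ≤ A)
    (hB : X * (1 - i * (i * (a + 1) / D)) ≤ B)
    (hS : Sg ≤ X * (g + a * κ - L + i * (Ξ / D)
      + i ^ 2 * (378 * j * (a + 1)) * ((L + 2 * (1 + κ) * D) / D)))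
    (hH : H ≤ 4 * Ξ + 9 * (a + 1) * (L + (1 + κ) * D)) :
    X * (κ * D + (i + 1) * L - 3 * j ^ 2 * (Ξ / D) - 1000 * j ^ 4 * (a + 1) * (1 + κ + L / D))
      ≤ κ * A + (i + 1) * (g * B - Sg) - (i + 1) * i * (X / D) / 2 * H := by
  have h0 := num (lam := L / D) (ξ := Ξ / D) (γ := g / D) hκ (by positivity) (by positivity) ha hi hj
    ((div_le_iff₀ hD).2 hg2)
  have h1 := mul_le_mul_of_nonneg_left h0 hX
  have h2 := mul_le_mul_of_nonneg_left hA hκ
  have h3 := mul_le_mul_of_nonneg_left (mul_le_mul_of_nonneg_left hB hg)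
    (show 0 ≤ i + 1 by linarith)
  have h4 := mul_le_mul_of_nonneg_left hS (show 0 ≤ i + 1 by linarith)
  have h5 := mul_le_mul_of_nonneg_left hH (show 0 ≤ (i + 1) * i * (X / D) / 2 by positivity)
  have e : κ * (X * D * (1 - (i + 1) * ((i + 1) * (a + 1) / D)))
      + (i + 1) * (g * (X * (1 - i * (i * (a + 1) / D))))
      - (i + 1) * (X * (g + a * κ - L + i * (Ξ / D)
        + i ^ 2 * (378 * j * (a + 1)) * ((L + 2 * (1 + κ) * D) / D)))
      - (i + 1) * i * (X / D) / 2 * (4 * Ξ + 9 * (a + 1) * (L + (1 + κ) * D))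
      = X * (κ * D + (i + 1) * L) - X * (κ * ((i + 1) * ((i + 1) * (a + 1)))
        + (i + 1) * (g / D * (i * (i * (a + 1)))) + (i + 1) * (a * κ) + (i + 1) * (i * (Ξ / D))
        + (i + 1) * (i ^ 2 * (378 * j * (a + 1)) * (L / D + 2 * (1 + κ)))
        + (i + 1) * i / 2 * (4 * (Ξ / D) + 9 * (a + 1) * (L / D + (1 + κ)))) := by
    field_simp
    ring
  have e2 : X * (κ * D + (i + 1) * L - 3 * j ^ 2 * (Ξ / D)
      - 1000 * j ^ 4 * (a + 1) * (1 + κ + L / D)) = X * (κ * D + (i + 1) * L)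
      - X * (3 * j ^ 2 * (Ξ / D) + 1000 * j ^ 4 * (a + 1) * (1 + κ + L / D)) := by ring
  have e3 : (i + 1) * (g * B - Sg) = (i + 1) * (g * B) - (i + 1) * Sg := by ring
  rw [e2, e3]
  linarith

lemma jb_le (hI : HI x E β) : ((x.k : ℝ) + 1) * (x.a + 1) ≤ x.Δ := by
  have j1 : (1 : ℝ) ≤ x.k + 1 := by linarith [Nat.cast_nonneg (α := ℝ) x.k]
  have h1 : ((x.k : ℝ) + 1) ≤ (x.k + 1) ^ 5 := le_self_pow₀ j1 (by norm_num)
  have h2 : ((x.k : ℝ) + 1) * (x.a + 1) ≤ (x.k + 1) ^ 5 * (x.a + 1) :=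
    mul_le_mul_of_nonneg_right h1 (by positivity)
  have h3 : (0 : ℝ) ≤ (x.k + 1) ^ 5 * (x.a + 1) := by positivity
  have h4 := hI.hE
  have h5 := hI.hΔ
  have e : 10 ^ 7 * ((x.k : ℝ) + 1) ^ 5 * (x.a + 1) = 10 ^ 7 * ((x.k + 1) ^ 5 * (x.a + 1)) := by ring
  rw [e] at h4
  linarith

lemma beta (h : InC G x) (C : Finset V) (i : ℕ) : ∀ u ∈ C, ∀ y ∈ nb G u C,
    (((clq G (i + 1) C).filter fun Q => u ∈ Q ∧ y ∈ Q).card : ℝ)
      ≤ i * ((x.Δ : ℝ) ^ i / x.Δ) / i.factorial := by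
  intro u _ y hy
  have hadj := (mem_nb.1 hy).2
  rcases i with _ | l
  · rw [cnt2_zero hadj]
    simp
  · refine (cnt2 hadj l C).trans ?_
    have h1 := kc_fact (G := G) l (nb G y (nb G u C))
    have h2 : ((nb G y (nb G u C)).card : ℝ) ≤ x.Δ := by exact_mod_cast h.degS y _
    have h3 := pow_le_pow_left₀ (Nat.cast_nonneg _) h2 l
    have h4 : (0 : ℝ) < l.factorial := by exact_mod_cast l.factorial_pos
    have h5 := x.Δpos
    have e : ((l + 1 : ℕ) : ℝ) * ((x.Δ : ℝ) ^ (l + 1) / x.Δ) / (l + 1).factorial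
        = (x.Δ : ℝ) ^ l / l.factorial := by
      rw [Nat.factorial_succ]
      push_cast
      field_simp
      ring
    rw [e, le_div_iff₀ h4]
    linarith

/-- the contribution of one vertex -/
lemma vert (h : InC G x) (hC : Cl1 G x C) (i : ℕ) (u : V) :
    ((x.a + 1 : ℝ) - (nn G u C).card) * (i.factorial * kc G i (nb G u C))
      ≤ (x.Δ : ℝ) ^ i * (-(((nn G u C).card : ℝ) - (x.a + 1)) + i * ((df G x C u : ℝ) ^ 2 / x.Δ)
        + i ^ 2 * (378 * (x.k + 1) * (x.a + 1))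
          * (max (((nn G u C).card : ℝ) - (x.a + 1)) 0 / x.Δ)) := by
  have hD := x.Δpos
  have hX : (0 : ℝ) ≤ (x.Δ : ℝ) ^ i := by positivity
  have h2 : ((nb G u C).card : ℝ) ≤ x.Δ := by exact_mod_cast h.degS u _
  rcases le_total ((nn G u C).card : ℝ) (x.a + 1) with c | c
  · have h1 := (kc_fact (G := G) i (nb G u C)).trans (pow_le_pow_left₀ (Nat.cast_nonneg _) h2 i)
    have h3 := mul_le_mul_of_nonneg_left h1 (sub_nonneg.2 c)
    have h4 : (0 : ℝ) ≤ (x.Δ : ℝ) ^ i * (i * ((df G x C u : ℝ) ^ 2 / x.Δ)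
        + i ^ 2 * (378 * (x.k + 1) * (x.a + 1))
          * (max (((nn G u C).card : ℝ) - (x.a + 1)) 0 / x.Δ)) := by
      have := le_max_right (((nn G u C).card : ℝ) - (x.a + 1)) 0
      positivity
    nlinarith
  · have hμ : ∑ y ∈ nb G u C, ((nn G y (nb G u C)).card : ℝ)
        ≤ 378 * ((x.k : ℝ) + 1) * (x.a + 1) * x.Δ := by
      refine le_trans ?_ hC.miss
      refine le_trans (sum_le_sum fun y _ => ?_)
        (sum_le_sum_of_subset_of_nonneg (nb_subset u C) fun _ _ _ => Nat.cast_nonneg _)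
      exact_mod_cast card_le_card (nn_mono y (nb_subset u C))
    have h1 := rec_low (G := G) i (nb G u C) hD h2 hμ
    have h3 : (x.Δ : ℝ) - (nb G u C).card = df G x C u := by
      have : ((nb G u C).card : ℝ) + df G x C u = x.Δ := by exact_mod_cast nb_df h C u
      linarith
    rw [h3] at h1
    have h4 := e_le h hC.le u
    rw [max_eq_left (sub_nonneg.2 c)] at h4 ⊢
    set e : ℝ := ((nn G u C).card : ℝ) - (x.a + 1) with he
    have e0 : 0 ≤ e := sub_nonneg.2 c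
    have h5 := mul_le_mul_of_nonneg_left h1 e0
    have h6 : e * (df G x C u : ℝ) ≤ (df G x C u : ℝ) ^ 2 := by
      rw [sq]
      exact mul_le_mul_of_nonneg_right h4 (Nat.cast_nonneg _)
    have h7 := mul_le_mul_of_nonneg_left h6
      (show (0 : ℝ) ≤ (x.Δ : ℝ) ^ i * (i / x.Δ) by positivity)
    have e1 : ((x.a + 1 : ℝ) - (nn G u C).card) = -e := by rw [he]; ring
    rw [e1]
    generalize (i.factorial : ℝ) * kc G i (nb G u C) = K at h5 ⊢
    generalize (x.Δ : ℝ) ^ i = X at h5 h7 ⊢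
    generalize (df G x C u : ℝ) = d at h5 h7 ⊢
    generalize 378 * ((x.k : ℝ) + 1) * (x.a + 1) = μ at h5 ⊢
    have e2 : e * (X * (1 - i * (d / x.Δ) - i ^ 2 * (μ / x.Δ)))
        = X * e - X * (i / x.Δ) * (e * d) - X * (i ^ 2 * μ * (e / x.Δ)) := by ring
    have e3 : X * (-e + i * (d ^ 2 / x.Δ) + i ^ 2 * μ * (e / x.Δ))
        = -(X * e) + X * (i / x.Δ) * d ^ 2 + X * (i ^ 2 * μ * (e / x.Δ)) := by ring
    rw [e2] at h5
    rw [e3]
    linarith

end IB1Aux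

open IB1Aux

/-- total excess of the non-degrees over the size of a large part -/
lemma Splus (h : InC G x) (hC : C.card ≤ x.n) :
    ∑ u ∈ C, max (((nn G u C).card : ℝ) - (x.a + 1)) 0
      ≤ L2 G C (x.q + 2) x.a + 2 * (1 + (x.n - C.card)) * x.Δ := by
  have h1 : (C.card : ℝ) ≤ x.n := by exact_mod_cast hC
  have h2 : ∀ u ∈ C, max (((nn G u C).card : ℝ) - (x.a + 1)) 0
      ≤ (((nn G u C).card : ℝ) - (x.a + 1)) + (1 + (x.n - C.card)) := fun u _ => by
    refine max_le (by linarith) ?_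
    rw [df_eq h]
    linarith [Nat.cast_nonneg (α := ℝ) (df G x C u)]
  refine (sum_le_sum h2).trans ?_
  rw [sum_add_distrib, sum_mb, sum_const, nsmul_eq_mul]
  have h3 := g_nonneg x
  have h4 : (0 : ℝ) ≤ x.a * (x.n - C.card) := mul_nonneg (Nat.cast_nonneg _) (by linarith)
  have h5 : (C.card : ℝ) * (1 + (x.n - C.card)) ≤ 2 * x.Δ * (1 + (x.n - C.card)) :=
    mul_le_mul_of_nonneg_right (h1.trans (n_le x)) (by linarith)
  linarith

lemma HcI (h : InC G x) (hC : C.card ≤ x.n) : Hc G C univ ≤ 4 * ∑ u ∈ C, (df G x C u : ℝ) ^ 2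
    + 9 * (x.a + 1) * (L2 G C (x.q + 2) x.a + (1 + (x.n - C.card)) * x.Δ) := by
  have h1 : (C.card : ℝ) ≤ x.n := by exact_mod_cast hC
  have hb : (0 : ℝ) ≤ x.a + 1 := by positivity
  have h2 := lemW (G := G) (x.q + 2) x.a C univ (h.cf.mono (subset_univ C)) hb
    (fun z => max (((nn G z C).card : ℝ) - (x.a + 1)) 0) (fun z => le_max_right _ _)
    (fun z _ => by linarith [le_max_left (((nn G z C).card : ℝ) - (x.a + 1)) 0])
  rw [inter_univ] at h2
  have h3 : ∀ z ∈ C, max (((nn G z C).card : ℝ) - (x.a + 1)) 0 * (nn G z C).card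
      ≤ (df G x C z : ℝ) ^ 2 + (x.a + 1) * max (((nn G z C).card : ℝ) - (x.a + 1)) 0 := by
    intro z _
    have h4 := e_le h hC z
    have h5 := le_max_right (((nn G z C).card : ℝ) - (x.a + 1)) 0
    have h6 := le_max_left (((nn G z C).card : ℝ) - (x.a + 1)) 0
    generalize max (((nn G z C).card : ℝ) - (x.a + 1)) 0 = e at h4 h5 h6 ⊢
    nlinarith [mul_le_mul_of_nonneg_left h6 h5, mul_self_le_mul_self h5 h4]
  have h4 := sum_le_sum h3
  rw [sum_add_distrib, ← mul_sum] at h4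
  have h5 := mul_le_mul_of_nonneg_left (Splus h hC) hb
  have h6 : (0 : ℝ) ≤ (x.a + 1) * ((1 + (x.n - C.card)) * x.Δ) :=
    mul_nonneg hb (mul_nonneg (by linarith) x.Δpos.le)
  nlinarith

theorem stepI (h : InC G x) (hI : HI x E β) (hC : Cl1 G x C) {i : ℕ} (hi : i ≤ x.k) :
    (C.card - (i + 1) * (x.a + 1)) * el G x C (i + 1) + (x.Δ : ℝ) ^ i * ((x.n - C.card) * x.Δ
      + (i + 1) * L2 G C (x.q + 2) x.a
      - 3 * (x.k + 1) ^ 2 * ((∑ u ∈ C, (df G x C u : ℝ) ^ 2) / x.Δ)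
      - 1000 * (x.k + 1) ^ 4 * (x.a + 1) * (1 + (x.n - C.card) + L2 G C (x.q + 2) x.a / x.Δ))
      ≤ el G x C (i + 2) := by
  have hD := x.Δpos
  have hcn : (C.card : ℝ) ≤ x.n := by exact_mod_cast hC.le
  have hik : (i : ℝ) ≤ x.k := by exact_mod_cast hi
  have hb : (0 : ℝ) ≤ x.a + 1 := by positivity
  have hjb := jb_le hI
  have hlb : ((i : ℝ) + 1) * (x.a + 1) ≤ x.Δ :=
    (mul_le_mul_of_nonneg_right (by linarith) hb).trans hjb
  have hib : (i : ℝ) * (x.a + 1) ≤ x.Δ := by nlinarith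
  have hr := x.hr
  -- the recursion of the Turan graph
  have z1 := Zrec2 (q := x.q + 1) (a := x.a) (r := x.r + 1) (by omega) i
  rw [← x.n_eq, ← x.Δ_eq] at z1
  have z2 : ((i : ℝ) + 2) * Z (x.q + 2) x.n (i + 2)
      = (x.n - (i + 1) * (x.a + 1)) * Z (x.q + 2) x.n (i + 1)
        + (x.n - x.xr) * Z (x.q + 1) x.Δ i := by
    rw [g_eq]
    refine z1.trans ?_
    rw [x.nR']
    push_cast
    ring
  -- the recursion of the cluster
  have r1 := rec_up (G := G) i C univ (x.a + 1) (beta h C i)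
  simp only [inter_univ] at r1
  -- lower bounds for the Turan graphs
  have hA : (x.Δ : ℝ) ^ i * x.Δ * (1 - (i + 1) * ((i + 1) * (x.a + 1) / x.Δ))
      ≤ (i + 1).factorial * Z (x.q + 2) x.n (i + 1) := by
    have a1 : (i + 1) * (x.a + 1) ≤ x.Δ := by exact_mod_cast hlb
    have a2 := Zlow (q := x.q + 2) (N := x.Δ) (b := x.a + 1) (k := i + 1)
      (by rw [x.Δ_eq]; nlinarith) a1
    have a3 := bern hD hlb (i + 1)
    have a4 : Z (x.q + 2) x.Δ (i + 1) ≤ Z (x.q + 2) x.n (i + 1) :=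
      Z_mono _ _ (by unfold Par.n; omega)
    have a5 := mul_le_mul_of_nonneg_left a4 (Nat.cast_nonneg (α := ℝ) (i + 1).factorial)
    push_cast at a2 a3
    rw [pow_succ] at a3
    linarith
  have hB : (x.Δ : ℝ) ^ i * (1 - i * (i * (x.a + 1) / x.Δ)) ≤ i.factorial * Z (x.q + 1) x.Δ i := by
    have a1 : i * (x.a + 1) ≤ x.Δ := by exact_mod_cast hib
    have a2 := Zlow (q := x.q + 1) (N := x.Δ) (b := x.a + 1) (k := i)
      (by rw [x.Δ_eq]; nlinarith) a1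
    have a3 := bern hD hib i
    push_cast at a2
    linarith
  have hS : ∑ u ∈ C, ((x.a + 1 : ℝ) - (nn G u C).card) * (i.factorial * kc G i (nb G u C))
      ≤ (x.Δ : ℝ) ^ i * ((x.n - x.xr) + x.a * (x.n - C.card) - L2 G C (x.q + 2) x.a
        + i * ((∑ u ∈ C, (df G x C u : ℝ) ^ 2) / x.Δ)
        + i ^ 2 * (378 * (x.k + 1) * (x.a + 1))
          * ((L2 G C (x.q + 2) x.a + 2 * (1 + (x.n - C.card)) * x.Δ) / x.Δ)) := by
    refine (sum_le_sum fun u _ => vert h hC i u).trans ?_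
    rw [← mul_sum, sum_add_distrib, sum_add_distrib, sum_neg_distrib, sum_mb, ← mul_sum, ← mul_sum,
      ← sum_div, ← sum_div]
    refine mul_le_mul_of_nonneg_left ?_ (by positivity)
    have a1 := mul_le_mul_of_nonneg_left (div_le_div_of_nonneg_right (Splus h hC.le) hD.le)
      (show (0 : ℝ) ≤ i ^ 2 * (378 * (x.k + 1) * (x.a + 1)) by positivity)
    linarith
  have key := IB1Aux.fin (j := (x.k : ℝ) + 1) (by positivity) hD (sub_nonneg.2 hcn)
    (L2_nonneg x.a (h.cf.mono (subset_univ C))) (sum_nonneg fun _ _ => sq_nonneg _)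
    (Nat.cast_nonneg x.a) (Nat.cast_nonneg i) (by linarith) (g_nonneg x)
    (by linarith [n_le x, x.xr_pos]) hA hB hS (HcI h hC.le)
  have hf : (0 : ℝ) < i.factorial := by exact_mod_cast i.factorial_pos
  have r2 := mul_le_mul_of_nonneg_left r1 (show (0 : ℝ) ≤ (i + 1) * i.factorial by positivity)
  have s1 : ∑ u ∈ C, ((x.a + 1 : ℝ) - (nn G u C).card) * (i.factorial * kc G i (nb G u C))
      = i.factorial * ∑ u ∈ C, ((x.a + 1 : ℝ) - (nn G u C).card) * kc G i (nb G u C) := by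
    rw [mul_sum]
    exact sum_congr rfl fun u _ => by ring
  rw [s1] at key
  have f1 : (((i + 1).factorial : ℕ) : ℝ) = (i + 1) * i.factorial := by
    rw [Nat.factorial_succ]; push_cast; ring
  have f2 : (((i + 2).factorial : ℕ) : ℝ) = (i + 2) * ((i + 1) * i.factorial) := by
    rw [Nat.factorial_succ, Nat.factorial_succ]; push_cast; ring
  unfold el
  rw [f1] at key
  rw [f1, f2]
  have z3 : ((i : ℝ) + 2) * ((i + 1) * i.factorial) * (Z (x.q + 2) x.n (i + 2) - kc G (i + 2) C)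
      = (i + 1) * i.factorial * (((i : ℝ) + 2) * Z (x.q + 2) x.n (i + 2))
        - (i + 1) * i.factorial * (((i : ℝ) + 2) * kc G (i + 2) C) := by ring
  rw [z3, z2]
  generalize ∑ u ∈ C, ((x.a + 1 : ℝ) - (nn G u C).card) * kc G i (nb G u C) = Sg at key r2
  generalize (x.Δ : ℝ) ^ i * ((x.n - C.card) * x.Δ + (i + 1) * L2 G C (x.q + 2) x.a
      - 3 * (x.k + 1) ^ 2 * ((∑ u ∈ C, (df G x C u : ℝ) ^ 2) / x.Δ)
      - 1000 * (x.k + 1) ^ 4 * (x.a + 1)
        * (1 + (x.n - C.card) + L2 G C (x.q + 2) x.a / x.Δ)) = T at key ⊢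
  have z4 : ((i : ℝ) + 1) * i.factorial * ((C.card - (i + 1) * (x.a + 1)) * kc G (i + 1) C + Sg
      + i * ((x.Δ : ℝ) ^ i / x.Δ) / i.factorial / 2 * Hc G C univ)
      = (i + 1) * i.factorial * ((C.card - (i + 1) * (x.a + 1)) * kc G (i + 1) C)
        + (i + 1) * (i.factorial * Sg) + (i + 1) * i * ((x.Δ : ℝ) ^ i / x.Δ) / 2 * Hc G C univ := by
    field_simp
  rw [z4] at r2
  linarith

end Pool.Agent.Lib.MP_1b6faf_co.Un
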