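import Pool.Agent.Lib.MP_1b6faf_co.Un.IB1

/-!
Cliques of moderate size: the count inside a cluster.
-/

namespace Pool.Agent.Lib.MP_1b6faf_co.Un

open Finset Pool.Agent.Lib.MP_1b6faf_co.H8
open scoped Classical

lemma seqI (e ρ : ℕ → ℝ) (j : ℕ) {X η κ L R : ℝ} (hX : 0 < X) (hη : 0 ≤ η) (hκ : 0 ≤ κ)
    (hL : 0 ≤ L) (hR : 0 ≤ R) (hρ : ∀ i < j, 0 ≤ ρ i ∧ X - η ≤ ρ i ∧ ρ i ≤ X) (h1 : κ ≤ e 1)
    (hs : ∀ i < j, ρ i * e (i + 1) + X ^ i * (κ * X + (i + 1) * L - R) ≤ e (i + 2)) :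
    X ^ j * ((j + 1) * κ * X + j * (j + 1) / 2 * L - j * R - j * η * (j * κ + j ^ 2 * (L / X)))
      ≤ X * e (j + 1) := by
  have hK0 : 0 ≤ (j : ℝ) * κ + (j : ℝ) ^ 2 * (L / X) := by positivity
  have hXK : X * ((j : ℝ) * κ + (j : ℝ) ^ 2 * (L / X)) = j * κ * X + (j : ℝ) ^ 2 * L := by
    field_simp
  generalize (j : ℝ) * κ + (j : ℝ) ^ 2 * (L / X) = K at hK0 hXK ⊢
  have key : ∀ m : ℕ, m ≤ j →
      X ^ m * ((m + 1) * κ * X + m * (m + 1) / 2 * L - m * R - m * η * K) ≤ X * e (m + 1) := by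
    intro m
    induction m with
    | zero =>
      intro _
      have := mul_le_mul_of_nonneg_left h1 hX.le
      simp only [pow_zero, Nat.cast_zero, zero_add]
      linarith
    | succ m ih =>
      intro hm
      have hm' : m < j := hm
      have h2 := ih hm'.le
      obtain ⟨r0, r1, r2⟩ := hρ m hm'
      have h3 := hs m hm'
      have hmj : (m : ℝ) + 1 ≤ j := by exact_mod_cast hm
      have hm0 : (0 : ℝ) ≤ m := Nat.cast_nonneg m
      set Gm : ℝ := (m + 1) * κ * X + m * (m + 1) / 2 * L - m * R - m * η * K with hG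
      have h4 : Gm ≤ X * K := by
        have a1 : ((m : ℝ) + 1) * (κ * X) ≤ j * (κ * X) :=
          mul_le_mul_of_nonneg_right hmj (by positivity)
        have a2 : (m : ℝ) * (m + 1) / 2 ≤ (j : ℝ) ^ 2 := by nlinarith
        have a3 := mul_le_mul_of_nonneg_right a2 hL
        have a4 : 0 ≤ (m : ℝ) * R := by positivity
        have a5 : 0 ≤ (m : ℝ) * η * K := by positivity
        rw [hXK, hG]
        linarith
      have h5 : (X - ρ m) * Gm ≤ η * (X * K) := by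
        have a1 : (X - ρ m) * Gm ≤ (X - ρ m) * (X * K) :=
          mul_le_mul_of_nonneg_left h4 (by linarith)
        have a2 : (X - ρ m) * (X * K) ≤ η * (X * K) :=
          mul_le_mul_of_nonneg_right (by linarith) (by positivity)
        linarith
      have h6 := mul_le_mul_of_nonneg_left h2 r0
      have h7 := mul_le_mul_of_nonneg_left h3 hX.le
      have h8 := mul_le_mul_of_nonneg_left h5 (pow_nonneg hX.le m)
      have e1 : X ^ (m + 1) * ((((m + 1 : ℕ) : ℝ) + 1) * κ * X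
          + ((m + 1 : ℕ) : ℝ) * (((m + 1 : ℕ) : ℝ) + 1) / 2 * L - ((m + 1 : ℕ) : ℝ) * R
          - ((m + 1 : ℕ) : ℝ) * η * K)
          = X ^ m * (X * Gm) - X ^ m * (η * (X * K))
            + X * (X ^ m * (κ * X + (m + 1) * L - R)) := by
        rw [hG]
        push_cast
        ring
      rw [e1]
      linarith
  exact key j le_rfl

variable {V : Type*} [Fintype V] {G : SimpleGraph V} {x : Par} {E β : ℝ} {C : Finset V}

theorem cntI (h : InC G x) (hI : HI x E β) (hC : Cl1 G x C) :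
    (x.k + 1).factorial * ex G x C ≤ (x.Δ : ℝ) ^ x.k * (-((x.k + 1) * (x.n - C.card) * x.Δ)
      - x.J * L2 G C (x.q + 2) x.a
      + 3 * (x.k + 1) ^ 3 * ((∑ u ∈ C, (df G x C u : ℝ) ^ 2) / x.Δ)
      + 10 ^ 5 * (x.k + 1) ^ 5 * (x.a + 1) * (1 + (x.n - C.card) + L2 G C (x.q + 2) x.a / x.Δ)) := by
  have hX := x.Δpos
  have hk := x.k1
  have ha := x.a1
  have hκ : (0 : ℝ) ≤ x.n - C.card := sub_nonneg.2 (by exact_mod_cast hC.le)
  have hL : 0 ≤ L2 G C (x.q + 2) x.a := L2_nonneg x.a (h.cf.mono (subset_univ C))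
  have hΞ : 0 ≤ (∑ u ∈ C, (df G x C u : ℝ) ^ 2) / x.Δ := by positivity
  have hn := x.nR
  have hlo := hC.lo
  have hη : (x.n - C.card) + ((x.k : ℝ) + 1) * (x.a + 1)
      ≤ 14000 * (((x.k : ℝ) + 1) ^ 2 * (x.a + 1)) := by
    have a1 : ((x.k : ℝ) + 1) * (x.a + 1) ≤ ((x.k : ℝ) + 1) ^ 2 * (x.a + 1) :=
      mul_le_mul_of_nonneg_right (by nlinarith) (by positivity)
    have a2 : 0 ≤ ((x.k : ℝ) + 1) ^ 2 * (x.a + 1) := by positivity
    linarith
  have hηX : 14000 * (((x.k : ℝ) + 1) ^ 2 * (x.a + 1)) ≤ x.Δ := by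
    have a1 : ((x.k : ℝ) + 1) ^ 2 ≤ ((x.k : ℝ) + 1) ^ 5 :=
      pow_le_pow_right₀ (by linarith) (by norm_num)
    have a2 : ((x.k : ℝ) + 1) ^ 2 * (x.a + 1) ≤ ((x.k : ℝ) + 1) ^ 5 * (x.a + 1) :=
      mul_le_mul_of_nonneg_right a1 (by positivity)
    have a3 : 0 ≤ ((x.k : ℝ) + 1) ^ 2 * (x.a + 1) := by positivity
    linarith [hI.hE, hI.hΔ]
  have h1 : (x.n : ℝ) - C.card ≤ el G x C 1 := by
    unfold el
    rw [show x.q + 2 = x.q + 1 + 1 from rfl, Z_one, kc_one]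
    simp
  have hseq := seqI (el G x C) (fun i => (C.card : ℝ) - (i + 1) * (x.a + 1)) (x.k + 1)
    (X := x.Δ) (η := (x.n - C.card) + ((x.k : ℝ) + 1) * (x.a + 1)) (κ := x.n - C.card)
    (L := L2 G C (x.q + 2) x.a)
    (R := 3 * (x.k + 1) ^ 2 * ((∑ u ∈ C, (df G x C u : ℝ) ^ 2) / x.Δ)
      + 1000 * (x.k + 1) ^ 4 * (x.a + 1) * (1 + (x.n - C.card) + L2 G C (x.q + 2) x.a / x.Δ))
    hX (by positivity) hκ hL (by positivity)
    (fun i hi => by
      have hi' : (i : ℝ) + 1 ≤ x.k + 1 := by exact_mod_cast hi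
      have a1 : ((i : ℝ) + 1) * (x.a + 1) ≤ (x.k + 1) * (x.a + 1) :=
        mul_le_mul_of_nonneg_right hi' (by positivity)
      have a2 : 1 * ((x.a : ℝ) + 1) ≤ ((i : ℝ) + 1) * (x.a + 1) :=
        mul_le_mul_of_nonneg_right (by linarith [Nat.cast_nonneg (α := ℝ) i]) (by positivity)
      refine ⟨?_, ?_, ?_⟩ <;> linarith)
    h1
    (fun i hi => by
      have := stepI h hI hC (Nat.lt_succ_iff.1 hi)
      rw [← sub_sub]
      exact this)
  have hel : el G x C (x.k + 1 + 1)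
      = (x.n - C.card) * ((x.k + 1).factorial * x.τ) - (x.k + 1).factorial * ex G x C := by
    have a1 := x.τ_id
    unfold el ex
    rw [Nat.factorial_succ (x.k + 1)]
    push_cast
    change _ * (Z (x.q + 1 + 1) x.n (x.k + 1 + 1) - kc G (x.k + 2) C) = _
    linear_combination ((x.k + 1).factorial : ℝ) * a1
  have hτ : ((x.k + 1).factorial : ℝ) * x.τ ≤ (x.Δ : ℝ) ^ (x.k + 1) :=
    (mul_le_mul_of_nonneg_left x.τP (Nat.cast_nonneg _)).trans (Z_le_pow _ _ _)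
  have hτ' := mul_le_mul_of_nonneg_left hτ hκ
  rw [hel, pow_succ', mul_assoc] at hseq
  have h2 := le_of_mul_le_mul_left hseq hX
  push_cast at h2
  rw [pow_succ] at hτ'
  have hP : 0 ≤ (x.Δ : ℝ) ^ x.k := by positivity
  have hLX : 0 ≤ L2 G C (x.q + 2) x.a / x.Δ := by positivity
  unfold Par.J
  generalize L2 G C (x.q + 2) x.a / x.Δ = y at *
  generalize L2 G C (x.q + 2) x.a = L at *
  generalize (∑ u ∈ C, (df G x C u : ℝ) ^ 2) / x.Δ = Ξ at *
  generalize (x.n : ℝ) - C.card = κ at *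
  generalize (x.Δ : ℝ) ^ x.k = Pw at *
  have hj : (x.k : ℝ) + 2 = x.k + 1 + 1 := by ring
  rw [hj]
  have hj1 : (1 : ℝ) ≤ x.k + 1 := by linarith
  generalize (x.k : ℝ) + 1 = j at *
  have hb : (0 : ℝ) ≤ x.a + 1 := by positivity
  generalize (x.a : ℝ) + 1 = b at *
  have h3 : j * (κ + j * b) * (j * κ + j ^ 2 * y) ≤ 14000 * j ^ 5 * b * (1 + κ + y) := by
    have a1 : j * κ + j ^ 2 * y ≤ j ^ 2 * (1 + κ + y) := by
      have b1 : j * κ ≤ j ^ 2 * κ := mul_le_mul_of_nonneg_right (by nlinarith) hκ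
      have b2 : 0 ≤ j ^ 2 := by positivity
      linarith
    have a2 : j * (κ + j * b) ≤ j * (14000 * (j ^ 2 * b)) :=
      mul_le_mul_of_nonneg_left hη (by linarith)
    have a3 := mul_le_mul a2 a1 (by positivity) (by positivity)
    linarith
  have h4 : 0 ≤ j ^ 5 * b * (1 + κ + y) := by positivity
  have h5 : κ * x.Δ - ((j + 1) * κ * x.Δ + j * (j + 1) / 2 * L
      - j * (3 * j ^ 2 * Ξ + 1000 * j ^ 4 * b * (1 + κ + y))
      - j * (κ + j * b) * (j * κ + j ^ 2 * y))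
      ≤ -(j * κ * x.Δ) - j * (j + 1) / 2 * L + 3 * j ^ 3 * Ξ
        + 10 ^ 5 * j ^ 5 * b * (1 + κ + y) := by
    linarith
  have h6 := mul_le_mul_of_nonneg_left h5 hP
  linarith

end Pool.Agent.Lib.MP_1b6faf_co.Un
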