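import Pool.Agent.Lib.MP_1b6faf_co.Un.ZA
import Pool.Agent.Lib.MP_1b6faf_co.Un.GA
import Pool.Agent.Lib.MP_1b6faf_co.Un.GC

/-!
Cliques of moderate size: gains, boundary and cliques that leave the cluster.
-/

namespace Pool.Agent.Lib.MP_1b6faf_co.Un

open Finset Pool.Agent.Lib.MP_1b6faf_co.H8
open scoped Classical

variable {V : Type*} [Fintype V] {G : SimpleGraph V} {x : Par} {E β : ℝ} {C : Finset V}

lemma bernIC {D s : ℝ} (hD : 0 < D) (hs : s ≤ D) (j : ℕ) :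
    D ^ j * (1 - j * (s / D)) ≤ (D - s) ^ j := by
  have h1 : s / D ≤ 1 := (div_le_one hD).2 hs
  have h2 := one_add_mul_le_pow (a := -(s / D)) (by linarith) j
  have h3 : D - s = D * (1 + -(s / D)) := by field_simp; ring
  rw [h3, mul_pow]
  exact mul_le_mul_of_nonneg_left (by linarith) (by positivity)

lemma chordIC {b t : ℝ} (hb : 0 ≤ b) (h1 : b ≤ t) (h2 : t ≤ 1) (k : ℕ) :
    (1 - b) * t ^ k ≤ (1 - t) * b ^ k + (t - b) := by
  induction k with
  | zero => simp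
  | succ k ih =>
    have a1 : b ^ k ≤ 1 := pow_le_one₀ hb (h1.trans h2)
    have a2 := mul_le_mul_of_nonneg_left ih (hb.trans h1)
    have a3 := mul_le_mul_of_nonneg_left a1 (mul_nonneg (sub_nonneg.2 h2) (sub_nonneg.2 h1))
    rw [pow_succ, pow_succ]
    nlinarith

lemma HI.sqIC (hI : HI x E β) : 10 ^ 7 * (((x.k : ℝ) + 1) ^ 2 * (x.a + 1)) ≤ E := by
  have a1 : ((x.k : ℝ) + 1) ^ 2 ≤ ((x.k : ℝ) + 1) ^ 5 :=
    pow_le_pow_right₀ (by linarith [x.k1]) (by norm_num)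
  have a2 := mul_le_mul_of_nonneg_right a1 (show (0 : ℝ) ≤ x.a + 1 by positivity)
  linarith [hI.hE]

lemma HI.EposIC (hI : HI x E β) : 0 < E := lt_of_lt_of_le (by positivity) hI.sqIC

lemma HI.lt1IC (hI : HI x E β) : β < 1 := by
  by_contra hc
  have a1 : 1 ≤ β ^ x.k := one_le_pow₀ (not_lt.1 hc)
  have a2 := div_pos hI.EposIC x.Δpos
  nlinarith [hI.hβ1, x.k1]

lemma jbIC (x : Par) : (1 : ℝ) + (x.k + 1) * (1 + (x.k + 1) * (x.a + 1))
    ≤ 3 * (((x.k : ℝ) + 1) ^ 2 * (x.a + 1)) := by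
  have a1 := x.k1
  have a2 := x.a1
  nlinarith [mul_nonneg (sq_nonneg ((x.k : ℝ) + 1)) (show (0 : ℝ) ≤ x.a by linarith)]

lemma priceIC (hI : HI x E β) :
    (1 - E / (4 * x.Δ)) * (x.Δ : ℝ) ^ x.k ≤ (x.k + 1).factorial * x.pr := by
  have hD := x.Δpos
  have a0 := hI.sqIC
  have a0' := jbIC x
  have hE := hI.EposIC
  have hΔ := hI.hΔ
  have hk := x.k1
  have hs0 : (0 : ℝ) ≤ (x.k + 1) * (x.a + 1) := by positivity
  have hs : (1 : ℝ) + (x.k + 1) * (x.a + 1) ≤ x.Δ := by nlinarith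
  have a1 : x.N + x.a ≤ (x.q + 1) * (x.a + 1) := by
    have := x.hr
    rw [x.Na]
    nlinarith
  have a2 : (x.k + 1) * (x.a + 1) ≤ x.N + x.a := by
    have : ((x.k : ℝ) + 1) * (x.a + 1) ≤ x.N + x.a := by linarith [x.ΔR]
    exact_mod_cast this
  have a3 := Zlow a1 a2
  push_cast at a3
  rw [show (x.N : ℝ) + x.a - (x.k + 1) * (x.a + 1) = x.Δ - (1 + (x.k + 1) * (x.a + 1)) by
    rw [x.ΔR]; ring] at a3
  have a4 := bernIC hD hs (x.k + 1)
  push_cast at a4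
  have a5 : (x.Δ : ℝ) ^ (x.k + 1) * (1 - (x.k + 1) * ((1 + (x.k + 1) * (x.a + 1)) / x.Δ))
      = (x.Δ : ℝ) ^ x.k * (x.Δ - (x.k + 1) * (1 + (x.k + 1) * (x.a + 1))) := by
    rw [pow_succ]
    field_simp
  have a6 : ((x.k + 1).factorial : ℝ) * x.P1 ≤ (x.k + 1).factorial * x.τ :=
    mul_le_mul_of_nonneg_left x.P1τ.le (Nat.cast_nonneg _)
  have a7 : (1 - E / (4 * x.Δ)) * (x.Δ + 1) ≤ x.Δ - (x.k + 1) * (1 + (x.k + 1) * (x.a + 1)) := by
    have b1 : E / (4 * x.Δ) * x.Δ = E / 4 := by field_simp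
    have b2 : 0 ≤ E / (4 * x.Δ) := by positivity
    nlinarith
  have a8 := mul_le_mul_of_nonneg_left a7 (pow_nonneg hD.le x.k)
  unfold Par.pr
  rw [← mul_div_assoc, le_div_iff₀ (by positivity)]
  change _ ≤ _ * x.P1 at a3
  linarith

omit [Fintype V] in
lemma gnIC (hI : HI x E β) (C : Finset V) (w : V) : (x.k + 1).factorial * gn G x C w
    ≤ (nb G w C).card * ((x.k + 2) * ((nb G w C).card : ℝ) ^ x.k
      - (1 - E / (4 * x.Δ)) * (x.Δ : ℝ) ^ x.k) := by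
  have a1 := kc_fact (G := G) (x.k + 1) (nb G w C)
  have a2 := mul_le_mul_of_nonneg_left a1 (show (0 : ℝ) ≤ x.k + 2 by positivity)
  have a3 := mul_le_mul_of_nonneg_left (priceIC hI) (Nat.cast_nonneg (α := ℝ) (nb G w C).card)
  rw [pow_succ] at a2
  unfold gn
  linarith

lemma HI.xiIC (hI : HI x E β) : ((x.k : ℝ) + 2) * β ^ x.k ≤ 1 - E / (4 * x.Δ) := by
  have a1 : E / (4 * x.Δ) ≤ E / x.Δ :=
    div_le_div_of_nonneg_left hI.EposIC.le x.Δpos (by linarith [x.Δpos])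
  linarith [hI.hβ1]

lemma xr_leIC (x : Par) : x.xr ≤ x.Δ := by linarith [x.Δ_xr, x.aΓ, x.a1]

lemma gainI0 (h : InC G x) (hI : HI x E β) (C : Finset V) {w : V}
    (hw : ((nb G w C).card : ℝ) ≤ β * x.Δ) : gn G x C w ≤ 0 := by
  have a1 := gnIC (G := G) hI C w
  have a2 : ((nb G w C).card : ℝ) ^ x.k ≤ β ^ x.k * (x.Δ : ℝ) ^ x.k := by
    rw [← mul_pow]
    exact pow_le_pow_left₀ (Nat.cast_nonneg _) hw _
  have a3 := mul_le_mul_of_nonneg_left a2 (show (0 : ℝ) ≤ x.k + 2 by positivity)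
  have a4 := mul_le_mul_of_nonneg_right hI.xiIC (pow_nonneg x.Δpos.le x.k)
  have a5 := mul_nonpos_of_nonneg_of_nonpos (Nat.cast_nonneg (α := ℝ) (nb G w C).card)
    (show (x.k + 2) * ((nb G w C).card : ℝ) ^ x.k
      - (1 - E / (4 * x.Δ)) * (x.Δ : ℝ) ^ x.k ≤ 0 by linarith)
  have a6 : (0 : ℝ) < (x.k + 1).factorial := by exact_mod_cast Nat.factorial_pos _
  exact nonpos_of_mul_nonpos_right (a1.trans a5) a6

lemma gainI1 (h : InC G x) (hI : HI x E β) (C : Finset V) {w : V}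
    (hw : β * x.Δ ≤ (nb G w C).card) : (1 - β) * ((x.k + 1).factorial * gn G x C w)
      ≤ (x.Δ : ℝ) ^ x.k * ((nb G w C).card / x.Δ * (x.k + 1 + E / (4 * x.Δ))
        * ((nb G w C).card - β * x.Δ)) := by
  have hD := x.Δpos
  have a1 := gnIC (G := G) hI C w
  have hy : ((nb G w C).card : ℝ) ≤ x.Δ := by exact_mod_cast h.degS w C
  obtain ⟨t, ht⟩ : ∃ t : ℝ, ((nb G w C).card : ℝ) = t * x.Δ :=
    ⟨(nb G w C).card / x.Δ, (div_mul_cancel₀ _ hD.ne').symm⟩
  rw [ht] at a1 hw hy ⊢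
  have t1 : β ≤ t := le_of_mul_le_mul_right hw hD
  have t2 : t ≤ 1 := le_of_mul_le_mul_right (by linarith) hD
  have b0 : 0 ≤ β := by linarith [hI.hβ]
  have a2 := chordIC b0 t1 t2 x.k
  have a3 := mul_le_mul_of_nonneg_left a2 (show (0 : ℝ) ≤ x.k + 2 by positivity)
  have a4 := mul_le_mul_of_nonneg_left hI.xiIC (sub_nonneg.2 t2)
  have a5 : (1 - β) * ((x.k + 2) * t ^ x.k - (1 - E / (4 * x.Δ)))
      ≤ (x.k + 1 + E / (4 * x.Δ)) * (t - β) := by linarith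
  have a6 := mul_le_mul_of_nonneg_left a5
    (mul_nonneg (pow_nonneg hD.le x.k) (mul_nonneg (b0.trans t1) hD.le))
  have a7 := mul_le_mul_of_nonneg_left a1 (sub_nonneg.2 hI.lt1IC.le)
  rw [mul_pow] at a7
  rw [mul_div_cancel_right₀ _ hD.ne']
  linarith

lemma YI (h : InC G x) (C : Finset V) :
    2 * x.k.factorial * (Yc G (x.k + 2) C).card * (x.Δ : ℝ)
      ≤ (x.Δ : ℝ) ^ x.k * ∑ u ∈ C, (df G x C u : ℝ) * (df G x C u - 1) := by
  obtain ⟨l, hl⟩ : ∃ l, x.k = l + 1 := ⟨x.k - 1, by have := x.hk; omega⟩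
  have hD := x.Δpos
  have hf : (0 : ℝ) < l.factorial := by exact_mod_cast Nat.factorial_pos _
  have a1 := Ygen (G := G) l C (β := (x.Δ : ℝ) ^ l / l.factorial) (by positivity) fun u _ => by
    rw [le_div_iff₀ hf, mul_comm]
    exact (kc_fact l _).trans (pow_le_pow_left₀ (Nat.cast_nonneg _) (by exact_mod_cast h.deg u) l)
  have a2 := mul_le_mul_of_nonneg_left (out_sq h C)
    (show (0 : ℝ) ≤ (x.Δ : ℝ) ^ l / l.factorial by positivity)
  have a3 := a1.trans a2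
  rw [div_mul_eq_mul_div, le_div_iff₀ hf] at a3
  have a4 := mul_le_mul_of_nonneg_right a3 hD.le
  rw [hl, Nat.factorial_succ, pow_succ, show l + 1 + 2 = l + 3 from rfl]
  push_cast
  linarith

theorem bdI (h : InC G x) (hI : HI x E β) (hC : Cl1 G x C) {B : Finset V} (hB : Disjoint B C)
    (hb : ∀ w ∈ B, β * x.Δ ≤ (nb G w C).card) : ∃ W : ℝ, 0 ≤ W ∧ W ≤ 3 / 2 * L2 G C (x.q + 2) x.a ∧
      ∑ w ∈ B, ((nb G w C).card : ℝ) ≤ L2 G C (x.q + 2) x.a - W + x.xr + (x.n - C.card) * x.Δ ∧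
      ∑ u ∈ C, (df G x C u : ℝ) ^ 2 ≤ 210000 * (x.k + 1) ^ 2 * (x.a + 1)
        * (L2 G C (x.q + 2) x.a + (1 + (x.n - C.card)) * x.Δ) + x.Δ / (50 * (x.k + 1)) * W := by
  have hD := x.Δpos
  have hk := x.k1
  have ha := x.a1
  have hn := x.nR
  have hc : (C.card : ℝ) ≤ x.n := by exact_mod_cast hC.le
  have hc0 : (0 : ℝ) ≤ C.card := Nat.cast_nonneg _
  have hlo := hC.lo
  have haD : (x.a : ℝ) ≤ x.Δ := by linarith [x.ΔR, Nat.cast_nonneg (α := ℝ) x.N]
  obtain ⟨M, hM⟩ : ∃ M : ℝ, M = ((x.k : ℝ) + 1) ^ 2 * (x.a + 1) := ⟨_, rfl⟩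
  have hM1 : 2 * (((x.k : ℝ) + 1) * (x.a + 1)) ≤ M := by
    rw [hM]
    nlinarith [mul_nonneg (show (0 : ℝ) ≤ (x.k + 1) * (x.a + 1) by positivity) (sub_nonneg.2 hk)]
  have hM2 : (x.a : ℝ) + 1 ≤ M := by nlinarith
  rw [mul_assoc, ← hM] at hlo
  have hdf : ∀ u, (df G x C u : ℝ) + C.card = x.Δ + (nn G u C).card := fun u => by
    exact_mod_cast df_nn h C u
  have hbd : ∀ u, ((nb G u B).card : ℝ) ≤ df G x C u := fun u => by
    exact_mod_cast bd_le h hB u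
  have hI1 : ∑ u ∈ C, (df G x C u : ℝ) ≤ 26189 * M * x.Δ := by
    have b1 : ∑ u ∈ C, (df G x C u : ℝ) ≤ ∑ u ∈ C, (((nn G u C).card : ℝ) + 13000 * M) :=
      sum_le_sum fun u _ => by linarith [hdf u]
    rw [sum_add_distrib, sum_const, nsmul_eq_mul] at b1
    have b2 := mul_le_mul_of_nonneg_right (show (C.card : ℝ) ≤ 2 * x.Δ by linarith)
      (show 0 ≤ 13000 * M by linarith)
    have b3 := mul_le_mul_of_nonneg_right hM1 hD.le
    linarith [hC.miss]
  have hI2 : ∑ u ∈ C, (df G x C u : ℝ)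
      ≤ L2 G C (x.q + 2) x.a + x.xr + (x.n - C.card) * x.Δ := by
    rw [sum_df h C]
    linarith [mul_le_mul_of_nonneg_left (show (C.card : ℝ) - (x.a + 1) ≤ x.Δ by linarith)
      (sub_nonneg.2 hc)]
  have hBT : (B.card : ℝ) ≤ 105000 * M := by
    have b1 := card_nsmul_le_sum B (fun w => ((nb G w C).card : ℝ)) _ hb
    rw [nsmul_eq_mul, sum_nb_comm] at b1
    have b2 : ∑ u ∈ C, ((nb G u B).card : ℝ) ≤ ∑ u ∈ C, (df G x C u : ℝ) :=
      sum_le_sum fun u _ => hbd u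
    have b3 := mul_le_mul_of_nonneg_left (mul_le_mul_of_nonneg_right hI.hβ hD.le)
      (Nat.cast_nonneg (α := ℝ) B.card)
    refine le_of_mul_le_mul_right ?_ hD
    nlinarith [mul_nonneg (show 0 ≤ M by linarith) hD.le]
  refine ⟨∑ u ∈ C, if 210000 * M ≤ df G x C u then (df G x C u : ℝ) - 105000 * M else 0,
    sum_nonneg fun u _ => ?_, ?_, ?_, ?_⟩
  · split_ifs with c
    · linarith
    · rfl
  · refine le_trans ?_ (cw_heavy x.a (h.cf.mono (subset_univ C)))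
    rw [sum_filter]
    refine sum_le_sum fun u _ => ?_
    have b1 := hdf u
    split_ifs with c1 c2 c2
    · linarith
    · exact absurd (by exact_mod_cast
        (show 3 * (x.a : ℝ) + 3 ≤ (nn G u C).card by linarith)) c2
    · have : 3 * (x.a : ℝ) + 3 ≤ (nn G u C).card := by exact_mod_cast c2
      linarith
    · rfl
  · rw [sum_nb_comm]
    have b1 : ∑ u ∈ C, ((nb G u B).card : ℝ) ≤ ∑ u ∈ C, ((df G x C u : ℝ)
        - if 210000 * M ≤ df G x C u then (df G x C u : ℝ) - 105000 * M else 0) :=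
      sum_le_sum fun u _ => by
        have b2 : ((nb G u B).card : ℝ) ≤ B.card := by
          exact_mod_cast card_le_card (nb_subset u B)
        split_ifs with c
        · linarith
        · linarith [hbd u]
    rw [sum_sub_distrib] at b1
    linarith
  · have b1 : ∑ u ∈ C, (df G x C u : ℝ) ^ 2 ≤ ∑ u ∈ C, (210000 * M * (df G x C u : ℝ)
        + x.Δ / (50 * (x.k + 1))
          * if 210000 * M ≤ df G x C u then (df G x C u : ℝ) - 105000 * M else 0) :=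
      sum_le_sum fun u hu => by
        have b0 : (0 : ℝ) ≤ df G x C u := Nat.cast_nonneg _
        split_ifs with c
        · have b2 : 2 * (df G x C u : ℝ) ≤ x.Δ / (50 * (x.k + 1)) := by
            rw [le_div_iff₀ (by positivity)]
            linarith [hC.dfl u hu]
          have b3 := mul_le_mul_of_nonneg_right b2
            (show 0 ≤ (df G x C u : ℝ) - 105000 * M by linarith)
          nlinarith [mul_nonneg (show 0 ≤ M by linarith) b0]
        · nlinarith [mul_le_mul_of_nonneg_right (not_le.1 c).le b0]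
    rw [sum_add_distrib, ← mul_sum, ← mul_sum] at b1
    have b4 := mul_le_mul_of_nonneg_left (show ∑ u ∈ C, (df G x C u : ℝ)
      ≤ L2 G C (x.q + 2) x.a + (1 + (x.n - C.card)) * x.Δ by linarith [xr_leIC x])
      (show 0 ≤ 210000 * M by linarith)
    rw [mul_assoc 210000, ← hM]
    linarith

theorem n0I (h : InC G x) (hI : HI x E β) (hC : Cl1 G x C) (hc : C.card = x.n)
    (hL : 5 * L2 G C (x.q + 2) x.a < x.Δ) {u : V} (hu : u ∈ C) (h2 : 2 ≤ df G x C u) :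
    ex G x C + (x.k + 2) * (Yc G (x.k + 2) C).card < 0 := by
  have hD := x.Δpos
  have hk := x.k1
  have ha := x.a1
  obtain ⟨v, hv, hmax⟩ := exists_max_image C (df G x C) ⟨u, hu⟩
  have i2 : (2 : ℝ) ≤ df G x C v := by exact_mod_cast h2.trans (hmax u hu)
  have a1 := far' h hc hv
  have a2 := x.steps (df G x C v) (by have := nb_df h C v; omega)
  have a3 := hC.dfl v hv
  have a4 := hI.sqIC
  have a5 := hI.hΔ
  have hE := hI.EposIC
  have hb : (0 : ℝ) ≤ (x.k + 1) * (x.a + 1) := by positivity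
  have b1 : 100 * (x.k * (df G x C v + (x.k + 1) * (x.a + 1))) ≤ 2 * (x.Δ : ℝ) := by nlinarith
  have b2 : (df G x C v : ℝ) + (x.k + 1) * (x.a + 1) ≤ x.Δ := by
    nlinarith [mul_nonneg (sub_nonneg.2 hk)
      (show (0 : ℝ) ≤ df G x C v + (x.k + 1) * (x.a + 1) by positivity)]
  have b3 : df G x C v + x.k * (x.a + 1) ≤ x.N := by
    have : (df G x C v : ℝ) + x.k * (x.a + 1) ≤ x.N := by linarith [x.ΔR]
    exact_mod_cast this
  have b4 := Zlow (q := x.q) (N := x.N - df G x C v) (b := x.a + 1) (k := x.k)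
    ((Nat.sub_le _ _).trans (by have := x.hr; unfold Par.N; nlinarith)) (by omega)
  rw [Nat.cast_sub (by omega)] at b4
  push_cast at b4
  rw [show (x.N : ℝ) - df G x C v - x.k * (x.a + 1)
    = x.Δ - (df G x C v + (x.k + 1) * (x.a + 1)) by rw [x.ΔR]; ring] at b4
  have b5 := bernIC hD b2 x.k
  have b6 : (x.k : ℝ) * ((df G x C v + (x.k + 1) * (x.a + 1)) / x.Δ) ≤ 1 / 50 := by
    rw [← mul_div_assoc, div_le_iff₀ hD]
    linarith
  have hP := pow_pos hD x.k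
  have b7 : 49 / 50 * (x.Δ : ℝ) ^ x.k ≤ x.k.factorial * Z x.q (x.N - df G x C v) x.k := by
    nlinarith [mul_le_mul_of_nonneg_left b6 hP.le]
  have b8 : x.k.factorial * x.D ≤ (x.Δ : ℝ) ^ x.k :=
    (Z_le_pow _ _ _).trans (pow_le_pow_left₀ (Nat.cast_nonneg _) (by linarith [x.ΔR]) _)
  have c1 : ∑ u ∈ C, (df G x C u : ℝ) * (df G x C u - 1)
      ≤ ∑ u ∈ C, (df G x C u : ℝ) * (df G x C v - 1) := sum_le_sum fun y hy =>
    mul_le_mul_of_nonneg_left (by
      have : (df G x C y : ℝ) ≤ df G x C v := by exact_mod_cast hmax y hy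
      linarith) (Nat.cast_nonneg _)
  rw [← sum_mul, sum_df h C, hc, sub_self, zero_mul, add_zero] at c1
  have c2 := mul_le_mul_of_nonneg_right
    (show L2 G C (x.q + 2) x.a + x.xr ≤ 6 / 5 * x.Δ by linarith [xr_leIC x])
    (show (0 : ℝ) ≤ df G x C v - 1 by linarith)
  have c3 := (YI h C).trans (mul_le_mul_of_nonneg_left (c1.trans c2) hP.le)
  have c4 : x.k.factorial * ((Yc G (x.k + 2) C).card : ℝ)
      ≤ 3 / 5 * (df G x C v - 1) * (x.Δ : ℝ) ^ x.k :=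
    le_of_mul_le_mul_right (by linarith) hD
  have hf : (0 : ℝ) < x.k.factorial := by exact_mod_cast Nat.factorial_pos _
  have d1 : (df G x C v : ℝ) * Z x.q (x.N - df G x C v) x.k - x.D
      ≤ x.P1 - Z (x.q + 1) (x.Δ - df G x C v) (x.k + 1) := by linarith [x.P_eq]
  have d2 := mul_le_mul_of_nonneg_left d1 hf.le
  have d3 := mul_le_mul_of_nonneg_left b7 (show (0 : ℝ) ≤ df G x C v by linarith)
  have d4 := mul_le_mul_of_nonneg_right i2 hP.le
  have d5 : x.k.factorial * ((Yc G (x.k + 2) C).card : ℝ)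
      < x.k.factorial * (x.P1 - Z (x.q + 1) (x.Δ - df G x C v) (x.k + 1)) := by linarith
  have d6 := mul_lt_mul_of_pos_left (lt_of_mul_lt_mul_left d5 hf.le)
    (show (0 : ℝ) < x.k + 2 by positivity)
  linarith

end Pool.Agent.Lib.MP_1b6faf_co.Un
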