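import Pool.Agent.Lib.MP_1b6faf_co.Un.IA
import Pool.Agent.Lib.MP_1b6faf_co.Un.IB2
import Pool.Agent.Lib.MP_1b6faf_co.Un.IC

/-!
Cliques of moderate size: the balance of a cluster and the global bound.
-/

namespace Pool.Agent.Lib.MP_1b6faf_co.Un

open Finset Pool.Agent.Lib.MP_1b6faf_co.H8
open scoped Classical

lemma numI {j J D E β L W xr Bs Gn c : ℝ} (κ t : ℕ) (hj : 2 ≤ j) (hJ : 2 * J = j * (j + 1))
    (hE : 0 < E) (hD : 2000 * E ≤ D) (hβ : 0 ≤ β) (hx : xr + E ≤ β * D)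
    (hμ : j * D + E ≤ J * (1 - β) * D) (hL : 0 ≤ L) (hW : 0 ≤ W) (hWL : W ≤ 3 / 2 * L)
    (hB1 : Bs ≤ L - W + xr + κ * D) (hB2 : Bs ≤ t * D)
    (hc : (κ = 0 ∧ c = 1) ∨ (1 ≤ κ ∧ c = 1 - 1 / (400 * j)))
    (hG : (1 - β) * Gn ≤ c * (j + E / (4 * D)) * (Bs - t * (β * D)))
    (hcase : 1 ≤ κ ∨ 1 ≤ t ∨ D ≤ 5 * L) :
    -(j * κ * D) - J * L + 4 / 25 * J * W + E / 4 * (1 + κ + L / D) + Gn < 0 := by
  have hD0 : 0 < D := by linarith
  have hJj : 3 / 2 * j ≤ J := by nlinarith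
  have hJ3 : 3 ≤ J := by linarith
  have hκ0 : (0 : ℝ) ≤ κ := Nat.cast_nonneg κ
  have ht0 : (0 : ℝ) ≤ t := Nat.cast_nonneg t
  obtain ⟨ξ, hξ⟩ : ∃ ξ, ξ = E / (4 * D) := ⟨_, rfl⟩
  have hξD : ξ * D = E / 4 := by rw [hξ]; field_simp
  have hξ0 : 0 < ξ := by rw [hξ]; positivity
  have hξ1 : ξ ≤ 1 / 8000 := by
    rw [hξ, div_le_iff₀ (by positivity)]; linarith
  have hEL : E / 4 * (1 + κ + L / D) = E / 4 + E / 4 * κ + ξ * L := by
    rw [hξ]; field_simp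
  rw [hEL]
  rw [← hξ] at hG
  have hs1 : j + 4 * ξ ≤ J * (1 - β) := by
    refine le_of_mul_le_mul_right ?_ hD0
    nlinarith
  have hs : 0 < 1 - β := by
    by_contra hn
    have := mul_nonpos_of_nonneg_of_nonpos (show 0 ≤ J by linarith) (not_lt.1 hn)
    linarith
  have hj0 : 0 < j := by linarith
  have hi : 1 / (400 * j) * j = 1 / 400 := by field_simp
  have hi0 : 0 < 1 / (400 * j) := by positivity
  have hi1 : 1 / (400 * j) ≤ 1 / 800 := by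
    apply one_div_le_one_div_of_le <;> linarith
  have hc1 : c ≤ 1 := by rcases hc with ⟨-, h⟩ | ⟨-, h⟩ <;> linarith
  have hc2 : 1 / 2 ≤ c := by rcases hc with ⟨-, h⟩ | ⟨-, h⟩ <;> linarith
  have hcκ : c * (j + ξ) * (κ * D) ≤ j * κ * D - 4 * E * κ - E / 4 * κ := by
    rcases hc with ⟨h, -⟩ | ⟨-, h⟩
    · simp [h]
    · have a1 : c * (j + ξ) ≤ j - 1 / 400 + ξ := by
        rw [h]; nlinarith [mul_pos hi0 hξ0]
      have a2 : c * (j + ξ) * D ≤ j * D - 4 * E - E / 4 := by nlinarith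
      nlinarith [mul_le_mul_of_nonneg_right a2 hκ0]
  obtain ⟨μ, hμ'⟩ : ∃ μ, μ = c * (j + ξ) / (1 - β) := ⟨_, rfl⟩
  have hμs : μ * (1 - β) = c * (j + ξ) := by rw [hμ']; field_simp
  have hcj : 1 ≤ c * (j + ξ) := by nlinarith
  have hμ0 : 0 ≤ μ := by rw [hμ']; exact div_nonneg (by linarith) hs.le
  have hμ1 : 1 ≤ μ := by nlinarith [mul_nonneg hμ0 hβ]
  have hμ2 : μ ≤ J - 3 * ξ := by
    refine le_of_mul_le_mul_right ?_ hs
    nlinarith [mul_nonneg hξ0.le hβ]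
  have hGn : Gn ≤ μ * (Bs - t * (β * D)) := by
    refine le_of_mul_le_mul_left ?_ hs
    rw [← hμs] at hG
    linarith
  have hβD : 0 ≤ β * D := mul_nonneg hβ hD0.le
  have hJW : J * W ≤ J * (3 / 2 * L) := mul_le_mul_of_nonneg_left hWL (by linarith)
  have hξL : ξ * L ≤ 1 / 8000 * L := mul_le_mul_of_nonneg_right hξ1 hL
  have hJL : 3 * L ≤ J * L := mul_le_mul_of_nonneg_right hJ3 hL
  have hEκ : 0 ≤ E * κ := mul_nonneg hE.le hκ0
  rcases Nat.lt_or_ge κ t with h1 | h1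
  · have a1 : (κ : ℝ) + 1 ≤ t := by exact_mod_cast h1
    have a2 : Bs - t * (β * D) ≤ L - W - E + κ * D * (1 - β) := by
      nlinarith [mul_le_mul_of_nonneg_right a1 hβD]
    have a3 := hGn.trans (mul_le_mul_of_nonneg_left a2 hμ0)
    have a4 : μ * (L - W - E + κ * D * (1 - β))
        = μ * L - μ * W - μ * E + c * (j + ξ) * (κ * D) := by rw [← hμs]; ring
    have a5 : E ≤ μ * E := by nlinarith
    have a6 : -(J * L) + 4 / 25 * J * W + ξ * L + μ * L - μ * W ≤ 0 := by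
      rcases le_total (4 / 25 * J) μ with a | a
      · nlinarith [mul_le_mul_of_nonneg_right a hW, mul_le_mul_of_nonneg_right hμ2 hL,
          mul_nonneg hξ0.le hL]
      · nlinarith [mul_le_mul_of_nonneg_left hWL (sub_nonneg.2 a), mul_nonneg hμ0 hL]
    linarith
  · have a1 : (t : ℝ) ≤ κ := by exact_mod_cast h1
    have a2 : Bs - t * (β * D) ≤ κ * D * (1 - β) := by
      nlinarith [mul_le_mul_of_nonneg_right a1 (mul_pos hD0 hs).le]
    have a3 := hGn.trans (mul_le_mul_of_nonneg_left a2 hμ0)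
    have a4 : μ * (κ * D * (1 - β)) = c * (j + ξ) * (κ * D) := by rw [← hμs]; ring
    rcases Nat.eq_zero_or_pos κ with h2 | h2
    · have a5 : D ≤ 5 * L := by
        rcases hcase with h | h | h
        · omega
        · omega
        · exact h
      linarith
    · have a5 : (1 : ℝ) ≤ κ := by exact_mod_cast h2
      have a6 : E ≤ E * κ := by nlinarith
      linarith

variable {V : Type*} [Fintype V] {G : SimpleGraph V} {x : Par} {E β : ℝ} {C : Finset V}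

theorem balI (h : InC G x) (hI : HI x E β) (hC : Cl1 G x C) {B : Finset V} (hB : Disjoint B C)
    (hb : ∀ w ∈ B, β * x.Δ ≤ (nb G w C).card)
    (hcase : C.card < x.n ∨ B.Nonempty ∨ x.Δ ≤ 5 * L2 G C (x.q + 2) x.a) :
    Bal G (x.k + 1) x.τ x.pr C B < 0 := by
  obtain ⟨W, hW0, hWL, hB1, hΞ⟩ := bdI h hI hC hB hb
  have hcnt := cntI h hI hC
  have hY := YI h C
  have hL := L2_nonneg x.a (h.cf.mono (subset_univ C))
  change 0 ≤ L2 G C (x.q + 2) x.a at hL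
  have hD := x.Δpos
  have hk := x.k1
  have ha := x.a1
  obtain ⟨κ, hκ⟩ := Nat.exists_eq_add_of_le hC.le
  have hκ' : (x.n : ℝ) - C.card = κ := by rw [hκ]; push_cast; ring
  rw [hκ'] at hB1 hΞ hcnt
  have hκ0 : (0 : ℝ) ≤ κ := Nat.cast_nonneg κ
  obtain ⟨j, hj⟩ : ∃ j : ℝ, j = x.k + 1 := ⟨_, rfl⟩
  have hj2 : 2 ≤ j := by linarith
  have hJ : 2 * x.J = j * (j + 1) := by rw [hj, Par.J]; ring
  have hE := hI.hE
  have hμ := hI.hμ
  rw [← hj] at hE hμ hΞ hcnt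
  obtain ⟨b, hbd⟩ : ∃ b : ℝ, b = x.a + 1 := ⟨_, rfl⟩
  have hb0 : 0 < b := by linarith
  rw [← hbd] at hE hΞ hcnt
  have hE0 : 0 < E := lt_of_lt_of_le (by positivity) hE
  obtain ⟨c, hc, hcw⟩ : ∃ c : ℝ, ((κ = 0 ∧ c = 1) ∨ (1 ≤ κ ∧ c = 1 - 1 / (400 * j))) ∧
      ∀ w ∈ B, ((nb G w C).card : ℝ) ≤ c * x.Δ := by
    rcases Nat.eq_zero_or_pos κ with h0 | h0
    · refine ⟨1, Or.inl ⟨h0, rfl⟩, fun w _ => ?_⟩
      rw [one_mul]
      exact_mod_cast h.degS w C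
    · refine ⟨_, Or.inr ⟨h0, rfl⟩, fun w hw => ?_⟩
      rw [hj]
      exact hC.far (by omega) w (disjoint_left.1 hB hw)
  obtain ⟨X, hX⟩ : ∃ X : ℝ, X = (x.Δ : ℝ) ^ x.k := ⟨_, rfl⟩
  have hX0 : 0 < X := by rw [hX]; positivity
  obtain ⟨F, hF⟩ : ∃ F : ℝ, F = ((x.k + 1).factorial : ℕ) := ⟨_, rfl⟩
  have hF0 : 0 < F := by rw [hF]; exact_mod_cast Nat.factorial_pos _
  have hFk : F = j * x.k.factorial := by rw [hF, hj, Nat.factorial_succ]; push_cast; ring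
  have hξ : 0 ≤ j + E / (4 * x.Δ) := by positivity
  have hG : (1 - β) * ((∑ w ∈ B, F * gn G x C w) / X) ≤ c * (j + E / (4 * x.Δ))
      * (∑ w ∈ B, ((nb G w C).card : ℝ) - B.card * (β * x.Δ)) := by
    rw [← mul_div_assoc, div_le_iff₀ hX0, mul_sum, ← nsmul_eq_mul, ← sum_const, ← sum_sub_distrib,
      mul_sum, sum_mul]
    refine sum_le_sum fun w hw => ?_
    have a1 := gainI1 h hI C (hb w hw)
    rw [← hF, ← hX, ← hj] at a1
    refine a1.trans ?_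
    rw [mul_comm X]
    refine mul_le_mul_of_nonneg_right (mul_le_mul_of_nonneg_right
      (mul_le_mul_of_nonneg_right ?_ hξ) (sub_nonneg.2 (hb w hw))) hX0.le
    rw [div_le_iff₀ hD]
    exact hcw w hw
  have hB2 : ∑ w ∈ B, ((nb G w C).card : ℝ) ≤ B.card * x.Δ := by
    rw [← nsmul_eq_mul]
    exact sum_le_card_nsmul _ _ _ fun w _ => by exact_mod_cast h.degS w C
  have hnum := numI κ B.card hj2 hJ hE0 hI.hΔ (by linarith [hI.hβ]) hI.hx hμ hL hW0 hWL hB1 hB2 hc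
    hG (by
      rcases hcase with a | a | a
      · exact Or.inl (by omega)
      · exact Or.inr (Or.inl (card_pos.2 a))
      · exact Or.inr (Or.inr a))
  rw [← hX, ← hF] at hcnt
  rw [← hX] at hY
  obtain ⟨Ξ, hΞd⟩ : ∃ Ξ : ℝ, Ξ = ∑ u ∈ C, (df G x C u : ℝ) ^ 2 := ⟨_, rfl⟩
  have hΞ1 : ∑ u ∈ C, (df G x C u : ℝ) * (df G x C u - 1) ≤ Ξ := by
    rw [hΞd]
    exact sum_le_sum fun u _ => by nlinarith [Nat.cast_nonneg (α := ℝ) (df G x C u)]
  rw [← hΞd] at hΞ hcnt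
  generalize L2 G C (x.q + 2) x.a = L at *
  have hJ0 : 0 ≤ x.J := by nlinarith
  have hY2 : F * ((x.k + 2) * (Yc G (x.k + 2) C).card) ≤ X * (x.J * (Ξ / x.Δ)) := by
    have a1 : 2 * x.k.factorial * ((Yc G (x.k + 2) C).card : ℝ) ≤ X * (Ξ / x.Δ) := by
      rw [← mul_div_assoc, le_div_iff₀ hD]
      exact hY.trans (mul_le_mul_of_nonneg_left hΞ1 hX0.le)
    have a2 : F * ((x.k + 2) * (Yc G (x.k + 2) C).card)
        = x.J * (2 * x.k.factorial * ((Yc G (x.k + 2) C).card : ℝ)) := by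
      rw [hFk, hj, Par.J]; ring
    rw [a2, mul_left_comm X]
    exact mul_le_mul_of_nonneg_left a1 hJ0
  obtain ⟨T, hT⟩ : ∃ T : ℝ, T = 1 + κ + L / x.Δ := ⟨_, rfl⟩
  have hT0 : 0 ≤ T := by rw [hT]; positivity
  have hΞ2 : Ξ / x.Δ ≤ 210000 * j ^ 2 * b * T + W / (50 * j) := by
    rw [div_le_iff₀ hD]
    refine hΞ.trans (le_of_eq ?_)
    rw [hT]
    field_simp
    ring
  rw [← hT] at hcnt hnum
  have hj3 : x.J ≤ j ^ 3 := by nlinarith
  have e1 : (3 * j ^ 3 + x.J) * (210000 * j ^ 2 * b * T) ≤ 840000 * (j ^ 5 * b * T) := by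
    have := mul_le_mul_of_nonneg_right (show 3 * j ^ 3 + x.J ≤ 4 * j ^ 3 by linarith)
      (show 0 ≤ 210000 * j ^ 2 * b * T by positivity)
    linarith
  have e2 : (3 * j ^ 3 + x.J) * (W / (50 * j)) ≤ 4 / 25 * x.J * W := by
    have a1 : 3 * j ^ 3 + x.J ≤ 8 * j * x.J := by nlinarith
    have a2 := mul_le_mul_of_nonneg_right a1 (show 0 ≤ W / (50 * j) by positivity)
    refine a2.trans (le_of_eq ?_)
    field_simp
    ring
  have e3 := mul_le_mul_of_nonneg_left hΞ2 (show 0 ≤ 3 * j ^ 3 + x.J by positivity)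
  have e4 := mul_le_mul_of_nonneg_right hE hT0
  have e5 : 0 ≤ j ^ 5 * b * T := by positivity
  have hsum : ∑ w ∈ B, F * gn G x C w = X * ((∑ w ∈ B, F * gn G x C w) / X) := by
    field_simp
  generalize (∑ w ∈ B, F * gn G x C w) / X = Gn at hnum hsum
  have key : -(j * κ * x.Δ) - x.J * L + 3 * j ^ 3 * (Ξ / x.Δ) + 10 ^ 5 * j ^ 5 * b * T
      + Gn + x.J * (Ξ / x.Δ) < 0 := by linarith
  rw [Bal_eq]
  refine lt_of_mul_lt_mul_left ?_ hF0.le
  rw [mul_add, mul_add, mul_sum, hsum]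
  linarith [mul_neg_of_pos_of_neg hX0 key]

theorem goodI (h : InC G x) (hI : HI x E β) (v : V) (hv : x.τ ≤ kc G (x.k + 1) (nb G v univ)) :
    ∃ C, Good G x.Δ x.n (x.k + 1) x.τ x.pr v C := by
  obtain ⟨C, hC, hvC, hy⟩ := cl1 h hI hv
  refine ⟨C, hvC, hy, fun O hO => ?_⟩
  obtain ⟨B, hBd⟩ : ∃ B, B = O.filter fun w => β * x.Δ ≤ (nb G w C).card := ⟨_, rfl⟩
  have hB : Disjoint B C := by rw [hBd]; exact hO.mono_left (filter_subset _ _)
  have hb : ∀ w ∈ B, β * x.Δ ≤ (nb G w C).card := fun w hw => by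
    rw [hBd] at hw; exact (mem_filter.1 hw).2
  have hle : Bal G (x.k + 1) x.τ x.pr C O ≤ Bal G (x.k + 1) x.τ x.pr C B := by
    rw [Bal_eq, Bal_eq, ← sum_filter_add_sum_filter_not O fun w => β * x.Δ ≤ (nb G w C).card,
      ← hBd]
    have := sum_nonpos (s := O.filter fun w => ¬ β * x.Δ ≤ (nb G w C).card) (f := gn G x C)
      fun w hw => gainI0 h hI C (not_le.1 (mem_filter.1 hw).2).le
    linarith
  by_cases hcase : C.card < x.n ∨ B.Nonempty ∨ x.Δ ≤ 5 * L2 G C (x.q + 2) x.a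
  · exact Or.inl (hle.trans_lt (balI h hI hC hB hb hcase))
  obtain ⟨a1, a2⟩ := not_or.1 hcase
  obtain ⟨a2, a3⟩ := not_or.1 a2
  have hc : C.card = x.n := le_antisymm hC.le (not_lt.1 a1)
  rw [not_nonempty_iff_eq_empty.1 a2, Bal_eq C ∅, sum_empty, add_zero] at hle
  by_cases hdf : ∀ u ∈ C, df G x C u ≤ 1
  · have hout : ∀ u ∈ C, (out G C u).card ≤ 1 := fun u hu => (out_df h C u).trans (hdf u hu)
    refine Or.inr ⟨?_, hC.le, hout⟩
    rw [Yc_empty hout, card_empty, Nat.cast_zero, mul_zero, add_zero] at hle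
    exact hle.trans (ex_zyk h hc)
  · obtain ⟨u, hu⟩ := not_forall.1 hdf
    obtain ⟨hu, h2⟩ := Classical.not_imp.1 hu
    exact Or.inl (hle.trans_lt (n0I h hI hC hc (not_le.1 a3) hu (by omega)))

theorem regI (h : InC G x) (hI : HI x E β) :
    ((x.k + 1 : ℕ) + 1) * kc G (x.k + 1 + 1) univ ≤ (univ : Finset V).card * x.τ ∧
      (((x.k + 1 : ℕ) + 1) * kc G (x.k + 1 + 1) univ = (univ : Finset V).card * x.τ →
        x.n * kc G 3 univ ≤ (univ : Finset V).card * Z (x.q + 1 + 1) x.n 3) :=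
  glob (by have := x.hk; omega) h.deg h.cf hI.price (goodI h hI)

end Pool.Agent.Lib.MP_1b6faf_co.Un
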