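import Pool.Agent.Lib.MP_1b6faf_co.Un.ZA

/-!
Large cliques: the cluster of a rich vertex and the gains.
-/

namespace Pool.Agent.Lib.MP_1b6faf_co.Un

open Finset Pool.Agent.Lib.MP_1b6faf_co.H8
open scoped Classical

variable {V : Type*} [Fintype V] {G : SimpleGraph V} {x : Par} {A C : Finset V}

namespace IIAAux

lemma bk (x : Par) : ((x.a : ℝ) + 1) * x.k ≤ 2 * x.Δ := by
  nlinarith [x.kaΔ, mul_le_mul_of_nonneg_left x.a1 (Nat.cast_nonneg (α := ℝ) x.k)]

lemma φ23 (hI : HII x) : 2 / 3 ≤ 1 - x.φ := by linarith [φ3 x hI.hx]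

lemma tinyZ (x : Par) {M : ℕ} {t y : ℝ} (hy : 0 ≤ y) (ht : 0 ≤ t) (h : (M : ℝ) + t ≤ x.N)
    (h2 : y * (3 * x.Δ) ≤ t * x.k) : Z x.q M x.k * y ^ 3 ≤ x.D := by
  have hN : (0 : ℝ) < x.N := by linarith [x.aNR, x.a1]
  refine le_trans (mul_le_mul_of_nonneg_left (pow_le_pow_left₀ hy ?_ 3) (Z_nonneg _ _ _))
    (Zdec3 ht h (x.hkq.trans x.qN))
  rw [le_div_iff₀ (by positivity)]
  exact le_trans (mul_le_mul_of_nonneg_left (by linarith [x.ΔR, x.a1]) hy) h2

lemma links (h : InC G x) (C : Finset V) (w : V) : ((x.k : ℝ) + 2) * kc G (x.k + 1) (nb G w C)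
    ≤ 2 * ((nb G w C).card * Z x.q (nb G w C).card x.k) := by
  have a2 := sum_le_card_nsmul (nb G w C) (fun u => kc G x.k (nb G u (nb G w C))) _ fun u hu =>
    zyk' x.k (h.cf2 (mem_nb.1 hu).2 C) (card_le_card (nb_subset _ _))
  rw [← kc_succ, nsmul_eq_mul] at a2
  have a3 : 0 ≤ kc G (x.k + 1) (nb G w C) := by rw [kc_clq]; positivity
  nlinarith [mul_nonneg (Nat.cast_nonneg (α := ℝ) x.k) a3]

end IIAAux

open IIAAux

lemma HII.price (hI : HII x) (b : ℕ) (h1 : 1 ≤ b) (h2 : b ≤ x.Δ) :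
    Z (x.q + 1) (x.Δ - b) (x.k + 1) < x.τ - b * x.pr := by
  have hΔ := x.Δpos
  have hk := hI.hk
  refine x.price ?_ ?_ b h1 h2
  · rw [Par.pr, div_mul_eq_mul_div, div_lt_iff₀ (by positivity)]
    nlinarith [x.τpos]
  · have a1 : (x.k : ℝ) + 1 ≤ x.Δ := by rw [x.ΔR]; linarith [x.kN, x.a1]
    nlinarith [mul_le_mul_of_nonneg_right (φ23 hI)
      (show (0 : ℝ) ≤ (x.k + 1) * x.Δ by positivity),
      mul_le_mul_of_nonneg_right (show (2 : ℝ) ≤ x.k by linarith) hΔ.le]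

theorem cl2 (h : InC G x) (hI : HII x) {v : V} (hv : x.τ ≤ kc G (x.k + 1) (nb G v univ)) :
    ∃ C, Cl2 G x (nb G v univ) C ∧ v ∈ C ∧
      ∀ y ∈ C, x.Δ < 2 * (nb G y (C ∩ nb G v univ)).card := by
  have hΔ := x.Δpos
  have hk := hI.hk
  obtain ⟨A, hA⟩ : ∃ A, A = nb G v univ := ⟨_, rfl⟩
  have hAc : A.card = x.Δ := hA ▸ h.rich_card hv
  have hn : ∀ u ∈ A, ((nn G u A).card : ℝ) * x.k ≤ 7 / 2 * x.Δ := fun u hu => by
    have a1 := h.rich_nn hv (by norm_num) (φ23 hI) (hA ▸ hu)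
    rw [← hA] at a1
    linarith [bk x]
  have cA : ∀ w, ((nb G w A).card : ℝ) + (nn G w A).card = x.Δ := fun w => by
    rw [card_nb_add_nn', hAc]
  obtain ⟨C, hC⟩ : ∃ C : Finset V,
      C = univ.filter fun w => ((nn G w A).card : ℝ) * x.k ≤ 10 ^ 9 * x.Δ := ⟨_, rfl⟩
  have mC : ∀ w, w ∈ C ↔ ((nn G w A).card : ℝ) * x.k ≤ 10 ^ 9 * x.Δ := fun w => by
    rw [hC, mem_filter, and_iff_right (mem_univ w)]
  have hAC : A ⊆ C := fun u hu => (mC u).2 (by linarith [hn u hu])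
  have big : ∀ w ∈ C, 7 / 8 * (x.Δ : ℝ) ≤ (nb G w A).card := fun w hw => by
    nlinarith [(mC w).1 hw, cA w,
      mul_le_mul_of_nonneg_left hk (Nat.cast_nonneg (α := ℝ) (nn G w A).card)]
  rw [← hA]
  refine ⟨C, ⟨hAC, hAc, fun u hu => by linarith [hn u hu], fun u hu => (mC u).1 hu, ?_,
    fun w hw => not_le.1 (mt (mC w).2 hw)⟩, (mC v).2 ?_, fun y hy => ?_⟩
  · have h1 := card_nsmul_le_sum (C \ A) (fun w => ((nb G w A).card : ℝ)) _
      fun w hw => big w (mem_sdiff.1 hw).1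
    rw [nsmul_eq_mul, sum_nb_comm] at h1
    have h2 := sum_le_card_nsmul A (fun u => ((nb G u (C \ A)).card : ℝ) * x.k) (7 / 2 * x.Δ)
      fun u hu => by
        have a1 := nb_two (G := G) u (disjoint_sdiff (s := A) (t := C))
        have a2 := card_nb_add_nn (G := G) u A
        have a3 := h.deg u
        refine le_trans (mul_le_mul_of_nonneg_right ?_ (Nat.cast_nonneg _)) (hn u hu)
        exact_mod_cast (by omega)
    rw [← sum_mul, nsmul_eq_mul, hAc] at h2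
    refine le_of_mul_le_mul_right ?_ hΔ
    linarith [mul_le_mul_of_nonneg_right h1 (Nat.cast_nonneg (α := ℝ) x.k)]
  · have a1 : nb G v A = A := by rw [hA]; ext y; simp [mem_nb]
    have a2 := cA v
    rw [a1, hAc] at a2
    rw [show ((nn G v A).card : ℝ) = 0 by linarith, zero_mul]
    positivity
  · rw [inter_eq_right.2 hAC]
    have : (x.Δ : ℝ) < 2 * (nb G y A).card := by linarith [big y hy]
    exact_mod_cast this

lemma Cl2.dfk (h : InC G x) (hC : Cl2 G x A C) {u : V} (hu : u ∈ C) :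
    (df G x C u : ℝ) * x.k ≤ 10 ^ 9 * x.Δ := by
  refine le_trans (mul_le_mul_of_nonneg_right ?_ (Nat.cast_nonneg _)) (hC.inC u hu)
  have a1 := nb_df h C u
  have a2 := card_le_card (nb_mono (G := G) u hC.sub)
  have a3 := card_nb_add_nn (G := G) u A
  have a4 := hC.cardA
  exact_mod_cast (by omega)

lemma gainII1 (h : InC G x) (hI : HII x) (hC : Cl2 G x A C) {w : V} (hw : w ∉ C) :
    gn G x C w ≤ (nb G w C).card * x.D / 10 ^ 23 := by
  have hΔ := x.Δpos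
  have hk : (0 : ℝ) < x.k := by linarith [x.k1]
  have a1 := nb_le (G := G) w A C
  have a2 := card_nb_add_nn' (G := G) w A
  rw [hC.cardA] at a2
  have a3 : ((nb G w C).card : ℝ) + (10 ^ 9 - 6) * x.Δ / x.k ≤ x.N := by
    rw [← le_sub_iff_add_le', div_le_iff₀ hk]
    have b1 : ((nn G w A).card : ℝ) - (C \ A).card - (x.a + 1) ≤ x.N - (nb G w C).card := by
      linarith [x.ΔR]
    linarith [mul_le_mul_of_nonneg_right b1 hk.le, hC.outC w hw, hC.new, bk x]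
  have a4 := tinyZ x (y := 10 ^ 8) (by norm_num) (by positivity) a3 (by
    rw [div_mul_cancel₀ _ hk.ne']
    linarith)
  have a5 := links h C w
  have a6 : 0 ≤ ((nb G w C).card : ℝ) * x.pr :=
    mul_nonneg (Nat.cast_nonneg _) (div_nonneg x.τpos.le (by positivity))
  have a7 := mul_le_mul_of_nonneg_left a4 (Nat.cast_nonneg (α := ℝ) (nb G w C).card)
  have a8 := mul_nonneg (Nat.cast_nonneg (α := ℝ) (nb G w C).card) x.Dpos.le
  unfold gn
  linarith

lemma gainII0 (h : InC G x) (hI : HII x) (C : Finset V) {w : V}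
    (hw : 10 * (nb G w C).card ≤ 9 * x.Δ) : gn G x C w ≤ 0 := by
  have hΔ := x.Δpos
  have hk := hI.hk
  have hD := x.Dpos
  have hw' : 10 * ((nb G w C).card : ℝ) ≤ 9 * x.Δ := by exact_mod_cast hw
  have a1 : 20 * ((x.a : ℝ) + 1) ≤ x.Δ := by
    nlinarith [bk x, mul_le_mul_of_nonneg_left hk (show (0 : ℝ) ≤ x.a + 1 by positivity)]
  have a4 := tinyZ x (M := (nb G w C).card) (t := x.Δ / 20) (y := x.k / 60) (by positivity)
    (by positivity) (by linarith [x.ΔR]) (le_of_eq (by ring))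
  have a5 := links h C w
  have hz := Z_nonneg x.q (nb G w C).card x.k
  generalize Z x.q (nb G w C).card x.k = z at a4 a5 hz
  have a6 : 4 * ((x.k : ℝ) + 1) ≤ (x.k / 60) ^ 3 := by
    have b1 : (10 : ℝ) ^ 6 ≤ (x.k / 60) ^ 2 := by nlinarith
    nlinarith [mul_le_mul_of_nonneg_right b1 (show (0 : ℝ) ≤ x.k / 60 by positivity)]
  have a7 := jτ x hI.hx (by
    have : (4 : ℝ) ≤ x.k := by linarith
    exact_mod_cast this)
  have a8 : 2 * z ≤ x.pr := by
    rw [Par.pr, le_div_iff₀ (by positivity)]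
    refine le_of_mul_le_mul_left ?_ (show (0 : ℝ) < x.k + 1 by positivity)
    have b1 : z * (4 * (x.k + 1)) ≤ x.D := (mul_le_mul_of_nonneg_left a6 hz).trans a4
    have b2 : (1 : ℝ) ≤ x.Δ := by linarith [x.a1]
    nlinarith [mul_le_mul_of_nonneg_right b1 (show (0 : ℝ) ≤ x.Δ + 1 by positivity),
      mul_le_mul_of_nonneg_right b2 hD.le, mul_pos (show (0 : ℝ) < x.k by linarith) hD]
  unfold gn
  linarith [mul_le_mul_of_nonneg_left a8 (Nat.cast_nonneg (α := ℝ) (nb G w C).card)]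

end Pool.Agent.Lib.MP_1b6faf_co.Un
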