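import Pool.Agent.Lib.MP_1b6faf_co.Un.ZA
import Pool.Agent.Lib.MP_1b6faf_co.Un.GA
import Pool.Agent.Lib.MP_1b6faf_co.Un.GB

/-!
Large cliques: clusters with too many vertices.
-/

namespace Pool.Agent.Lib.MP_1b6faf_co.Un

open Finset Pool.Agent.Lib.MP_1b6faf_co.H8
open scoped Classical

variable {V : Type*} [Fintype V] {G : SimpleGraph V} {x : Par} {A C : Finset V}

/-- a link with `m` fewer and `h` more vertices than the large link -/
lemma link2 (x : Par) {c m h : ℕ} (h1 : c ≤ x.Δ) (h2 : c + m ≤ x.N + h)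
    (h3 : (m : ℝ) * x.k ≤ 2 * 10 ^ 9 * x.Δ) :
    Z x.q c x.k ≤ x.D - x.k / x.Δ * x.D * m / (3 * 10 ^ 9) + 82 * (x.k / x.Δ * x.D) * h := by
  have hD := x.Dpos
  have hΔ := x.Δpos
  have hθ : (0 : ℝ) ≤ x.k / x.Δ := by positivity
  have hm : (m : ℝ) * (x.k / x.Δ) ≤ 2 * 10 ^ 9 := by
    rw [← mul_div_assoc, div_le_iff₀ hΔ]
    exact h3
  have hh : (0 : ℝ) ≤ x.k / x.Δ * x.D * h := by positivity
  rcases le_total h m with c1 | c1
  · obtain ⟨i, rfl⟩ := Nat.exists_eq_add_of_le c1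
    have a0 : c + i ≤ x.N := by omega
    have a1 := decay' x.q c x.k i hΔ (by
      have : (c : ℝ) + i ≤ x.N := by exact_mod_cast a0
      linarith [x.ΔR, x.a1])
    have a2 : Z x.q (c + i) x.k ≤ x.D := Z_mono _ _ a0
    push_cast at hm ⊢
    have a3 : (0 : ℝ) ≤ h * (x.k / x.Δ) := by positivity
    have a4 := cost_aux (d := x.D * (i * (x.k / x.Δ))) (Z_nonneg x.q c x.k) (by positivity)
      (a1.trans a2) (by linarith) le_rfl
    generalize (x.k : ℝ) / x.Δ = θ at *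
    linarith
  · obtain ⟨j, hj⟩ : ∃ j, x.k = j + 1 := ⟨x.k - 1, by have := x.hk; omega⟩
    have a1 := link_up x (c := c) (h := h) h1 (by omega) j
    have e : (j : ℝ) + 1 = x.k := by rw [hj]; push_cast; ring
    rw [← hj, e] at a1
    change _ ≤ _ * x.D at a1
    have a2 : Z x.q c x.k ≤ x.D + 81 * (x.k / x.Δ * x.D) * h := by
      refine le_of_mul_le_mul_left (a1.trans (le_of_eq ?_)) hΔ
      field_simp
    have a3 : x.k / x.Δ * x.D * m ≤ x.k / x.Δ * x.D * h :=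
      mul_le_mul_of_nonneg_left (by exact_mod_cast c1) (by positivity)
    linarith

lemma nn_II (hC : Cl2 G x A C) {u : V} (hu : u ∈ C) :
    ((nn G u C).card : ℝ) * x.k ≤ 2 * 10 ^ 9 * x.Δ := by
  have a1 := mul_le_mul_of_nonneg_right (nn_le (G := G) u A C) (Nat.cast_nonneg (α := ℝ) x.k)
  have a2 := hC.inC u hu
  have a3 := hC.new
  linarith [x.Δpos]

lemma vert_II (h : InC G x) (hI : HII x) (hC : Cl2 G x A C) (hc : x.n < C.card) {u : V}
    (hu : u ∈ C) : ((x.k : ℝ) + 1) * kc G (x.k + 1) (nb G u C) ≤ x.Δ * x.D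
      - x.k * x.D * (((nn G u C).card : ℝ) - (x.a + 1)) / (6 * 10 ^ 9)
      + 82 * (x.k / x.Δ * x.D) *
        ∑ y ∈ nb G u C, ((nn G u C ∩ nn G y C ∩ univ).card : ℝ) := by
  have hD := x.Dpos
  have hΔ := x.Δpos
  have a1 := df_nn h C u
  have a2 := nb_df h C u
  have a3 := nn_II hC hu
  obtain ⟨m, hm⟩ : ∃ m, (nn G u C).card = m + (x.a + 1) :=
    ⟨(nn G u C).card - (x.a + 1), by unfold Par.n at hc; omega⟩
  have hm' : ((nn G u C).card : ℝ) - (x.a + 1) = m := by rw [hm]; push_cast; ring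
  have hm0 : (0 : ℝ) ≤ m := Nat.cast_nonneg _
  have hk0 : (0 : ℝ) ≤ x.k := Nat.cast_nonneg _
  have a4 : (m : ℝ) * x.k ≤ 2 * 10 ^ 9 * x.Δ :=
    (mul_le_mul_of_nonneg_right (by linarith [x.a1]) hk0).trans a3
  have a5 : ∀ y ∈ nb G u C, kc G x.k (nb G y (nb G u C)) ≤ x.D - x.k / x.Δ * x.D * m / (3 * 10 ^ 9)
      + 82 * (x.k / x.Δ * x.D) * ((nn G u C ∩ nn G y C ∩ univ).card : ℝ) := fun y hy => by
    rw [inter_univ]
    refine (zyk _ _ _ (h.cf2 (mem_nb.1 hy).2 C)).trans (link2 x (h.degS _ _) ?_ a4)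
    have b1 := codeg (G := G) u y C
    have b2 := card_nb_add_nn (G := G) y C
    have b3 := h.degS y C
    unfold Par.Δ at b3
    omega
  have a6 := sum_le_sum a5
  rw [← kc_succ, sum_add_distrib, sum_const, nsmul_eq_mul, ← mul_sum] at a6
  have a7 : ((nb G u C).card : ℝ) ≤ x.Δ := by exact_mod_cast h.degS u C
  have a8 : (x.Δ : ℝ) ≤ (nb G u C).card + m := by
    exact_mod_cast (show x.Δ ≤ (nb G u C).card + m by unfold Par.n at hc; omega)
  have a9 : 2 * (m : ℝ) ≤ x.Δ := by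
    have := mul_le_mul_of_nonneg_left hI.hk hm0
    linarith
  have b1 : x.k * x.D * m ≤ 2 * ((nb G u C).card * (x.k / x.Δ * x.D * m)) := by
    have e : x.k * x.D * m = x.Δ * (x.k / x.Δ * x.D * m) := by field_simp
    rw [e, ← mul_assoc 2]
    exact mul_le_mul_of_nonneg_right (by linarith) (by positivity)
  have b2 := mul_le_mul_of_nonneg_right a7 hD.le
  rw [hm']
  linarith

theorem bigII (h : InC G x) (hI : HII x) (hC : Cl2 G x A C) (hc : x.n < C.card) :
    ex G x C < -(x.D * (∑ u ∈ C, (df G x C u : ℝ)) / 10 ^ 11) := by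
  have hD := x.Dpos
  have hΔ := x.Δpos
  have hk := hI.hk
  have hk0 : (0 : ℝ) < x.k := by linarith [x.k1]
  have hc' : (x.n : ℝ) + 1 ≤ C.card := by exact_mod_cast hc
  obtain ⟨Q, hQ⟩ : ∃ Q, Q = ∑ u ∈ C, (((nn G u C).card : ℝ) - (x.a + 1)) := ⟨_, rfl⟩
  have a1 := sum_le_sum fun u hu => vert_II h hI hC hc (u := u) hu
  rw [← mul_sum, ← kc_succ, sum_add_distrib, sum_sub_distrib, sum_const, nsmul_eq_mul, ← mul_sum,
    ← sum_div, ← mul_sum, ← hQ] at a1
  have a2 := lemW0 (G := G) (x.q + 2) x.a C univ (h.cf.mono (subset_univ C))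
    (lam := 2 * 10 ^ 9 * x.Δ / x.k) (by positivity) fun z hz => by
      rw [le_div_iff₀ hk0]
      exact nn_II hC (mem_inter.1 hz).1
  have a3 : L2 G C (x.q + 2) x.a ≤ Q + C.card := by
    rw [hQ, sum_sub_distrib, sum_const, nsmul_eq_mul, L2]
    have b1 : ((x.q : ℝ) + 2) * x.a ≤ C.card := by
      linarith [x.nR', Nat.cast_nonneg (α := ℝ) x.r]
    have b2 := mul_le_mul_of_nonneg_right b1 (show (0 : ℝ) ≤ x.a + 1 by positivity)
    push_cast
    linarith
  have a4 : ∑ u ∈ C, (df G x C u : ℝ) ≤ Q := by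
    rw [hQ]
    refine sum_le_sum fun u _ => ?_
    have : (df G x C u : ℝ) + C.card = x.Δ + (nn G u C).card := by exact_mod_cast df_nn h C u
    linarith [x.nR]
  have a5 : (0 : ℝ) ≤ ∑ u ∈ C, (df G x C u : ℝ) := sum_nonneg fun _ _ => Nat.cast_nonneg _
  have a6 : 82 * (x.k / x.Δ * x.D) * Hc G C univ ≤ 10 ^ 12 * (x.D * (Q + C.card)) := by
    have b1 : Hc G C univ ≤ 5 * (2 * 10 ^ 9 * x.Δ / x.k) * (Q + C.card) :=
      a2.trans (mul_le_mul_of_nonneg_left a3 (by positivity))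
    refine (mul_le_mul_of_nonneg_left b1 (by positivity)).trans ?_
    have e : 82 * (x.k / x.Δ * x.D) * (5 * (2 * 10 ^ 9 * x.Δ / x.k) * (Q + C.card))
        = 82 * 10 ^ 10 * (x.D * (Q + C.card)) := by field_simp; ring
    rw [e]
    exact mul_le_mul_of_nonneg_right (by norm_num)
      (mul_nonneg hD.le (add_nonneg (a5.trans a4) (Nat.cast_nonneg _)))
  have hCp : (0 : ℝ) < C.card := by linarith [x.npos]
  have a7 := mul_le_mul_of_nonneg_left (jτ x hI.hx (by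
    have : (4 : ℝ) ≤ x.k := by linarith
    exact_mod_cast this)) hCp.le
  have a8 := mul_le_mul_of_nonneg_right hk (mul_pos hD hCp).le
  have a9 := mul_le_mul_of_nonneg_right hk (mul_nonneg hD.le (a5.trans a4))
  have b1 := mul_le_mul_of_nonneg_left a4 (mul_pos hk0 hD).le
  have b2 := mul_le_mul_of_nonneg_left a4 hD.le
  have b3 := mul_pos hD hCp
  have b4 := mul_nonneg hD.le (a5.trans a4)
  refine lt_of_mul_lt_mul_left ?_ (show (0 : ℝ) ≤ x.k + 1 by positivity)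
  change _ ≤ _ - _ + 82 * (x.k / x.Δ * x.D) * Hc G C univ at a1
  unfold ex
  push_cast at a1
  rw [show (x.k : ℝ) + 1 + 1 = x.k + 2 by ring] at a1
  generalize ∑ u ∈ C, (df G x C u : ℝ) = I at *
  generalize 82 * (x.k / x.Δ * x.D) * Hc G C univ = H at *
  generalize kc G (x.k + 2) C = K at *
  nlinarith

end Pool.Agent.Lib.MP_1b6faf_co.Un
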