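import Pool.Agent.Lib.MP_1b6faf_co.Un.ZA
import Pool.Agent.Lib.MP_1b6faf_co.Un.GC

/-!
Large cliques: cliques that leave the cluster.
-/

namespace Pool.Agent.Lib.MP_1b6faf_co.Un

open Finset Pool.Agent.Lib.MP_1b6faf_co.H8
open scoped Classical

variable {V : Type*} [Fintype V] {G : SimpleGraph V} {x : Par} {A C : Finset V}

lemma k_big (hI : HII x) : 100 ≤ x.k := by
  have h1 := hI.hk
  have h2 : (100 : ℝ) ≤ x.k := le_trans (by norm_num) h1
  exact_mod_cast h2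

lemma cf3 (h : InC G x) {u w w' : V} (h1 : G.Adj u w) (h2 : G.Adj u w') (h3 : G.Adj w w')
    {p : ℕ} (hp : x.q = p + 1) : CF G p (nb G w' (nb G w (nb G u univ))) := by
  have a1 := h.cf2 h1 univ
  rw [hp] at a1
  exact a1.nb (mem_nb.2 ⟨mem_nb.2 ⟨mem_univ _, h2⟩, h3⟩)

lemma outA_le (h : InC G x) (hC : Cl2 G x A C) (u : V) :
    (nb G u (univ \ A)).card ≤ (nn G u A).card := by
  have h1 := h.out_le A u
  have h2 := hC.cardA
  unfold out at h1
  omega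

lemma star' {p l : ℕ} (hp : x.q = p + 1) (hl : x.k = l + 1) :
    x.Δ * Z p x.Δ l ≤ 81 * x.k * x.D := by
  have h1 := star x l
  have h2 : (x.k : ℝ) = l + 1 := by rw [hl]; push_cast; ring
  rw [show x.q - 1 = p by omega, ← h2, ← hl] at h1
  exact h1

lemma YII1 (h : InC G x) (hI : HII x) (hC : Cl2 G x A C) {u w w' : V} (hu : u ∈ A)
    (hw : w ∈ out G C u) (hw' : w' ∈ out G C u) (hne : w ≠ w') :
    (((clq G (x.k + 2) univ).filter fun Q => u ∈ Q ∧ w ∈ Q ∧ w' ∈ Q).card : ℝ)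
      ≤ x.k / x.Δ * x.D / 10 ^ 23 := by
  have hk := k_big hI
  have hΔ := x.Δpos
  have hD := x.Dpos
  have hk0 : (100 : ℝ) ≤ x.k := by exact_mod_cast hk
  rcases ((clq G (x.k + 2) univ).filter fun Q => u ∈ Q ∧ w ∈ Q ∧ w' ∈ Q).eq_empty_or_nonempty
    with e | ⟨Q, hQ⟩
  · rw [e, card_empty, Nat.cast_zero]; positivity
  obtain ⟨a1, -, a3, a4⟩ := mem_filter.1 hQ
  have hadj : G.Adj w w' := (mem_clq.1 a1).2.1 a3 a4 hne
  obtain ⟨l, hl⟩ : ∃ l, x.k = l + 1 := ⟨x.k - 1, by omega⟩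
  obtain ⟨p, hp⟩ : ∃ p, x.q = p + 1 := ⟨x.q - 1, by have := x.hq; omega⟩
  have hl' : (x.k : ℝ) = l + 1 := by rw [hl]; push_cast; ring
  have huw := (mem_out.1 hw).2
  have huw' := (mem_out.1 hw').2
  have b1 := cnt3 (G := G) l huw.ne huw'.ne hne (clq G (x.k + 2) univ) (by rw [hl])
  have b2 := zyk' l (cf3 h huw huw' hadj hp)
    (card_le_card (nb_subset (G := G) w' (nb G w (nb G u univ))))
  have b3 : ((nb G w (nb G u univ)).card : ℝ) ≤ (nb G w A).card + (nb G u (univ \ A)).card := by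
    have : nb G w (nb G u univ) ⊆ nb G w A ∪ nb G u (univ \ A) := fun y hy => by
      simp only [mem_union, mem_nb, mem_sdiff] at *; tauto
    exact_mod_cast (card_le_card this).trans (card_union_le _ _)
  have b4 : ((nb G u (univ \ A)).card : ℝ) ≤ (nn G u A).card := by
    exact_mod_cast outA_le h hC u
  have b5 := card_nb_add_nn' (G := G) w A
  rw [hC.cardA] at b5
  have b6 := hC.inA u hu
  have b7 := hC.outC w (mem_out.1 hw).1
  have b8 : ((nb G w (nb G u univ)).card : ℝ) + (10 ^ 9 - 4) * x.Δ / x.k ≤ x.Δ := by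
    have : (10 ^ 9 - 4) * (x.Δ : ℝ) / x.k ≤ (nn G w A).card - (nn G u A).card := by
      rw [div_le_iff₀ (by linarith)]; linarith
    linarith
  have b9 := Zdec3 (q := p) (j := l) (by positivity) b8 (by
    have := x.hkq; have := qΔ x; omega)
  have c1 := star' hp hl
  have c2 : (3 * 10 ^ 8 : ℝ) ≤ (10 ^ 9 - 4) * x.Δ / x.k * l / (3 * x.Δ) := by
    rw [le_div_iff₀ (by positivity), div_mul_eq_mul_div, le_div_iff₀ (by linarith), hl']
    nlinarith [mul_le_mul_of_nonneg_left (show (99 : ℝ) ≤ l by linarith) hΔ.le]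
  have c3 := pow_le_pow_left₀ (by positivity) c2 3
  have c4 := mul_le_mul_of_nonneg_left c3 (Z_nonneg p (nb G w (nb G u univ)).card l)
  have c5 : Z p x.Δ l ≤ 81 * (x.k / x.Δ * x.D) := by
    rw [div_mul_eq_mul_div, ← mul_div_assoc, le_div_iff₀ hΔ]; linarith
  have c6 : 0 < x.k / x.Δ * x.D := by positivity
  rw [le_div_iff₀ (by positivity)]
  nlinarith [b1.trans b2]

lemma YII2 (h : InC G x) (hI : HII x) (hC : Cl2 G x A C) {u w w' : V} (hu : u ∈ C)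
    (hw : w ∈ out G C u) (hw' : w' ∈ out G C u) (hne : w ≠ w') :
    (x.k + 2) * (((clq G (x.k + 2) univ).filter
      fun Q => 2 * (Q ∩ A).card < x.k + 2 ∧ u ∈ Q ∧ w ∈ Q ∧ w' ∈ Q).card : ℝ)
      ≤ x.k / x.Δ * x.D / 10 ^ 21 := by
  have hk := k_big hI
  have hΔ := x.Δpos
  have hD := x.Dpos
  have hk0 : (100 : ℝ) ≤ x.k := by exact_mod_cast hk
  set F := (clq G (x.k + 2) univ).filter
      fun Q => 2 * (Q ∩ A).card < x.k + 2 ∧ u ∈ Q ∧ w ∈ Q ∧ w' ∈ Q with hF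
  rcases F.eq_empty_or_nonempty with e | ⟨Q0, hQ0⟩
  · rw [e, card_empty, Nat.cast_zero, mul_zero]; positivity
  obtain ⟨a1, -, -, a3, a4⟩ := mem_filter.1 hQ0
  have hadj : G.Adj w w' := (mem_clq.1 a1).2.1 a3 a4 hne
  obtain ⟨l, hl⟩ : ∃ l, x.k = l + 3 := ⟨x.k - 3, by omega⟩
  obtain ⟨p, hp⟩ : ∃ p, x.q = p + 3 := ⟨x.q - 3, by have := x.hq; omega⟩
  have hl' : (x.k : ℝ) = l + 3 := by rw [hl]; push_cast; ring
  have huw := (mem_out.1 hw).2
  have huw' := (mem_out.1 hw').2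
  set S := nb G w' (nb G w (nb G u univ)) with hS
  set O := nb G u (univ \ A) with hO
  have hcf : CF G (p + 1 + 1) S := cf3 h huw huw' hadj hp
  have hSc : S.card ≤ x.Δ := h.degS _ _
  have hqΔ := qΔ x
  have t1 := tail (G := G) l (x.k / 3) S O (Z_nonneg p x.Δ l) fun z hz y hy =>
    zyk' l ((hcf.nb hz).nb hy) (h.degS _ _)
  have c3 : ({u, w, w'} : Finset V).card = 3 := card_eq_three.2 ⟨u, w, w', huw.ne, huw'.ne, hne, rfl⟩
  have t2 : F.card ≤ ((clq G (l + 2) S).filter fun R => x.k / 3 ≤ (R ∩ O).card).card := by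
    refine card_le_card_of_injOn (fun Q => Q \ {u, w, w'}) (fun Q hQ => ?_) fun Q hQ Q' hQ' e => ?_
    · obtain ⟨d1, d2, d3, d4, d5⟩ := mem_filter.1 (mem_coe.1 hQ)
      obtain ⟨-, e2, e3⟩ := mem_clq.1 d1
      have e4 : ({u, w, w'} : Finset V) ⊆ Q :=
        insert_subset d3 (insert_subset d4 (singleton_subset_iff.2 d5))
      have e5 : (Q \ {u, w, w'}).card = l + 2 := by
        rw [card_sdiff_of_subset e4, c3, e3, hl]; omega
      have e6 : Q \ {u, w, w'} ⊆ S := fun z hz => by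
        obtain ⟨c1, c2⟩ := mem_sdiff.1 hz
        simp only [mem_insert, mem_singleton, not_or] at c2
        exact mem_nb.2 ⟨mem_nb.2 ⟨mem_nb.2 ⟨mem_univ _, e2 d3 c1 (Ne.symm c2.1)⟩,
          e2 d4 c1 (Ne.symm c2.2.1)⟩, e2 d5 c1 (Ne.symm c2.2.2)⟩
      refine mem_coe.2 (mem_filter.2 ⟨mem_clq.2 ⟨e6, e2.subset (coe_subset.2 sdiff_subset), e5⟩, ?_⟩)
      have e7 : Q \ {u, w, w'} ⊆ (Q \ {u, w, w'}) ∩ O ∪ Q ∩ A := fun z hz => by
        by_cases c : z ∈ A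
        · exact mem_union_right _ (mem_inter.2 ⟨(mem_sdiff.1 hz).1, c⟩)
        · exact mem_union_left _ (mem_inter.2 ⟨hz, mem_nb.2 ⟨mem_sdiff.2 ⟨mem_univ _, c⟩,
            (mem_nb.1 (mem_nb.1 (mem_nb.1 (e6 hz)).1).1).2⟩⟩)
      have e8 := (card_le_card e7).trans (card_union_le _ _)
      show x.k / 3 ≤ ((Q \ {u, w, w'}) ∩ O).card
      omega
    · obtain ⟨-, -, d3, d4, d5⟩ := mem_filter.1 (mem_coe.1 hQ)
      obtain ⟨-, -, f3, f4, f5⟩ := mem_filter.1 (mem_coe.1 hQ')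
      have e4 : ({u, w, w'} : Finset V) ⊆ Q :=
        insert_subset d3 (insert_subset d4 (singleton_subset_iff.2 d5))
      have f6 : ({u, w, w'} : Finset V) ⊆ Q' :=
        insert_subset f3 (insert_subset f4 (singleton_subset_iff.2 f5))
      have e' : Q \ {u, w, w'} = Q' \ {u, w, w'} := e
      rw [← sdiff_union_of_subset e4, e', sdiff_union_of_subset f6]
  have t3 : (F.card : ℝ) ≤ ((clq G (l + 2) S).filter fun R => x.k / 3 ≤ (R ∩ O).card).card := by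
    exact_mod_cast t2
  have z1 := Zlink (q := p) (N := x.Δ) (by omega) l
  have z2 := Zlink (q := p + 1) (N := x.Δ) (by omega) (l + 1)
  have z3 := star' (p := p + 1 + 1) (l := l + 1 + 1) hp hl
  push_cast at z2
  have n0 := Z_nonneg p x.Δ l
  have n1 := Z_nonneg (p + 1) x.Δ (l + 1)
  have n2 := Z_nonneg (p + 1 + 1) x.Δ (l + 1 + 1)
  have z1' : x.Δ * Z p x.Δ l ≤ 9 * x.k * Z (p + 1) x.Δ (l + 1) := by nlinarith
  have z2' : x.Δ * Z (p + 1) x.Δ (l + 1) ≤ 9 * x.k * Z (p + 1 + 1) x.Δ (l + 1 + 1) := by nlinarith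
  have z4 : (x.Δ : ℝ) ^ 3 * Z p x.Δ l ≤ 6561 * x.k ^ 3 * x.D := by
    have g1 := mul_le_mul_of_nonneg_left z1' (show (0 : ℝ) ≤ x.Δ ^ 2 by positivity)
    have g2 := mul_le_mul_of_nonneg_left z2' (show (0 : ℝ) ≤ 9 * x.k * x.Δ by positivity)
    have g3 := mul_le_mul_of_nonneg_left z3 (show (0 : ℝ) ≤ 81 * x.k ^ 2 by positivity)
    nlinarith
  have o1 : (O.card : ℝ) * x.k ≤ 10 ^ 9 * x.Δ := by
    have : (O.card : ℝ) ≤ (nn G u A).card := by exact_mod_cast outA_le h hC u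
    exact (mul_le_mul_of_nonneg_right this (by positivity)).trans (hC.inC u hu)
  have o2 : ((O.card : ℝ) * x.k) ^ 2 ≤ (10 ^ 9 * x.Δ) ^ 2 := pow_le_pow_left₀ (by positivity) o1 2
  have d1 : (x.k : ℝ) ≤ 3 * ((x.k / 3 : ℕ) : ℝ) + 2 := by
    have : x.k ≤ 3 * (x.k / 3) + 2 := by omega
    exact_mod_cast this
  have d2 : (x.k : ℝ) ^ 2 / 10 ≤ ((x.k / 3 : ℕ) : ℝ) * (((x.k / 3 : ℕ) : ℝ) - 1) := by nlinarith
  have t4 : (x.k : ℝ) ^ 2 / 10 * F.card ≤ (O.card : ℝ) ^ 2 * Z p x.Δ l :=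
    (mul_le_mul d2 t3 (by positivity) (le_trans (by positivity) d2)).trans t1
  have t5 : (x.k : ℝ) * x.Δ * F.card ≤ 6561 * 10 ^ 19 * x.D := by
    have g1 := mul_le_mul_of_nonneg_left t4 (show (0 : ℝ) ≤ x.k ^ 2 * x.Δ by positivity)
    have g2 := mul_le_mul_of_nonneg_right o2 (show (0 : ℝ) ≤ x.Δ * Z p x.Δ l by positivity)
    refine le_of_mul_le_mul_left ?_ (show (0 : ℝ) < x.k ^ 3 / 10 by positivity)
    nlinarith
  have hkb := hI.hk
  rw [le_div_iff₀ (by positivity), div_mul_eq_mul_div, le_div_iff₀ hΔ]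
  have g4 : (0 : ℝ) ≤ x.Δ * F.card := by positivity
  nlinarith [mul_le_mul_of_nonneg_right hkb hD.le, mul_le_mul_of_nonneg_right hk0 g4]

theorem YII (h : InC G x) (hI : HII x) (hC : Cl2 G x A C) :
    ((x.k : ℝ) + 2) * (Yc G (x.k + 2) C).card
      ≤ x.k / x.Δ * x.D / 10 ^ 21 * ∑ u ∈ C, (df G x C u : ℝ) * (df G x C u - 1) := by
  have hΔ := x.Δpos
  have hD := x.Dpos
  have hk2 : (0 : ℝ) < x.k + 2 := by positivity
  have a1 := Ysp (G := G) (x.k + 2) A C hC.sub (β1 := x.k / x.Δ * x.D / 10 ^ 23)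
    (β2 := x.k / x.Δ * x.D / 10 ^ 21 / (x.k + 2)) (by positivity) (by positivity)
    (fun u hu w hw w' hw' hne => YII1 h hI hC hu hw hw' hne)
    fun u hu w hw w' hw' hne => by
      rw [le_div_iff₀ hk2, mul_comm]
      exact YII2 h hI hC hu hw hw' hne
  push_cast at a1
  have a2 := out_sq h C
  have a3 : 0 ≤ ∑ u ∈ C, ((out G C u).card : ℝ) * ((out G C u).card - 1) :=
    sum_nonneg fun u _ => by rw [← offDiag_cast]; exact Nat.cast_nonneg _
  have a4 : 0 ≤ x.k / x.Δ * x.D := by positivity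
  refine a1.trans (mul_le_mul ?_ a2 a3 (by positivity))
  rw [mul_div_cancel₀ _ hk2.ne']
  linarith

end Pool.Agent.Lib.MP_1b6faf_co.Un
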