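import Pool.Agent.Lib.MP_1b6faf_co.Un.IIA
import Pool.Agent.Lib.MP_1b6faf_co.Un.IIY
import Pool.Agent.Lib.MP_1b6faf_co.Un.IIB

/-!
Large cliques: the balance of a cluster and the global bound.
-/

namespace Pool.Agent.Lib.MP_1b6faf_co.Un

open Finset Pool.Agent.Lib.MP_1b6faf_co.H8
open scoped Classical

variable {V : Type*} [Fintype V] {G : SimpleGraph V} {x : Par} {A C : Finset V}

omit [Fintype V] in
lemma df_le_iie (C : Finset V) (u : V) : df G x C u ≤ x.Δ := Nat.sub_le _ _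

omit [Fintype V] in
lemma sumdf_nonneg_iie (C : Finset V) : 0 ≤ ∑ u ∈ C, (df G x C u : ℝ) :=
  sum_nonneg fun _ _ => Nat.cast_nonneg _

/-- the excess from termwise bounds of the links -/
lemma ex_le_iie (h : InC G x) (hI : HII x) (hc : C.card ≤ x.n) (g : V → ℝ)
    (hg : ∀ u ∈ C, Z (x.q + 1) (x.Δ - df G x C u) (x.k + 1) ≤ x.P - g u) :
    ex G x C ≤ x.Δ * x.D / 3 - ∑ u ∈ C, g u := by
  have h1 := (one_level h C).trans (sum_le_sum hg)
  rw [sum_sub_distrib, sum_const, nsmul_eq_mul] at h1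
  have h2 : (C.card : ℝ) ≤ x.n := by exact_mod_cast hc
  have h3 := mul_le_mul_of_nonneg_left h2 (mul_pos x.φpos x.Dpos).le
  have h4 : x.φ * x.D * x.n = x.xr * x.D := by rw [← x.φ_xr]; ring
  have h5 := mul_le_mul_of_nonneg_right hI.hx x.Dpos.le
  unfold ex Par.τ
  linarith

lemma ex_cost2_iie (h : InC G x) (hI : HII x) (hC : Cl2 G x A C) (hc : C.card ≤ x.n) :
    ex G x C ≤ x.Δ * x.D / 3 - x.D * (∑ u ∈ C, (df G x C u : ℝ)) / (3 * 10 ^ 9) := by
  have h1 := ex_le_iie h hI hc (fun u => df G x C u * x.D / (3 * 10 ^ 9)) fun u hu =>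
    cost2 x (df_le_iie C u) (hC.dfk h hu)
  rwa [← sum_div, ← sum_mul, mul_comm (∑ u ∈ C, (df G x C u : ℝ)) x.D] at h1

lemma ex_short_iie (h : InC G x) (hI : HII x) (hC : Cl2 G x A C) (hc : C.card < x.n) :
    ex G x C ≤ -(49 / 100 * (x.Δ * x.D)) := by
  have hk := hI.hk
  have hk4 : 4 ≤ x.k := by
    have : (4 : ℝ) ≤ x.k := le_trans (by norm_num) hk
    exact_mod_cast this
  have hD := x.Dpos
  have hΔ := x.Δpos
  have ha := x.a1
  have h1 := x.short hc
  have h2 := zyk' (x.k + 1 + 1) (h.cf.mono (subset_univ C)) le_rfl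
  have h3 := jτ x hI.hx hk4
  have h4 : (x.Δ : ℝ) ≤ C.card := by
    have := card_le_card hC.sub
    rw [hC.cardA] at this
    exact_mod_cast this
  have h5 := x.kaΔ
  have h6 : (x.k : ℝ) ≤ x.Δ := by nlinarith
  have h7 : 100 * (x.a : ℝ) ≤ x.Δ := by nlinarith
  have hp : (0 : ℝ) < x.n + x.k + 1 := by have := x.npos; positivity
  have h8 : (x.n + x.k + 1) * ex G x C ≤ -(C.card * ((x.k + 1) * x.τ)) := by
    have a1 := mul_le_mul_of_nonneg_left h2 (show (0 : ℝ) ≤ (x.n + x.k + 1) * (x.k + 1 + 1) by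
      positivity)
    unfold ex
    change (x.n + x.k + 1) * ((x.k + 2) * kc G (x.k + 1 + 1) C - C.card * x.τ) ≤ _
    linarith
  have h9 : x.Δ * (x.Δ * x.D) ≤ C.card * ((x.k + 1) * x.τ) :=
    mul_le_mul h4 (by nlinarith) (by positivity) (by positivity)
  have h10 : 49 / 100 * ((x.n : ℝ) + x.k + 1) ≤ x.Δ := by rw [x.nR]; linarith
  refine le_of_mul_le_mul_left ?_ hp
  nlinarith [mul_le_mul_of_nonneg_right h10 (show (0 : ℝ) ≤ x.Δ * x.D by positivity)]

lemma ex_many_iie (h : InC G x) (hI : HII x) (hc : C.card ≤ x.n)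
    (hF : 9 * x.Δ < 10 * (C.filter fun u => 1 ≤ df G x C u).card) :
    ex G x C ≤ -(49 / 100 * (x.Δ * x.D)) := by
  have h1 := ex_le_iie h hI hc (fun u => if 1 ≤ df G x C u then x.D else 0) fun u _ => by
    split_ifs with c
    · exact cost1 x c
    · rw [sub_zero]
      exact Z_mono _ _ (Nat.sub_le _ _)
  rw [← sum_filter, sum_const, nsmul_eq_mul] at h1
  have h2 : 9 * (x.Δ : ℝ) ≤ 10 * (C.filter fun u => 1 ≤ df G x C u).card := by
    exact_mod_cast hF.le
  nlinarith [mul_le_mul_of_nonneg_right h2 x.Dpos.le, mul_pos x.Δpos x.Dpos]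

theorem lossII (h : InC G x) (hI : HII x) (hC : Cl2 G x A C)
    (hcase : C.card ≠ x.n ∨ 9 * x.Δ < 10 * (C.filter fun u => 1 ≤ df G x C u).card ∨
      10 ^ 10 * (x.Δ : ℝ) < ∑ u ∈ C, (df G x C u : ℝ)) :
    ex G x C < -(x.D * (∑ u ∈ C, (df G x C u : ℝ)) / 10 ^ 11) := by
  rcases lt_or_ge x.n C.card with c | c
  · exact bigII h hI hC c
  have h2 := ex_cost2_iie h hI hC c
  have h0 := mul_nonneg x.Dpos.le (sumdf_nonneg_iie (G := G) (x := x) C)
  have hp := mul_pos x.Δpos x.Dpos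
  rcases hcase with d | d | d
  · have h1 := ex_short_iie h hI hC (lt_of_le_of_ne c d)
    linarith
  · have h1 := ex_many_iie h hI c d
    linarith
  · have h1 := mul_lt_mul_of_pos_left d x.Dpos
    linarith

theorem n0II (h : InC G x) (hI : HII x) (hC : Cl2 G x A C) (hc : C.card = x.n)
    (hs : ∑ u ∈ C, (df G x C u : ℝ) ≤ 10 ^ 10 * x.Δ) {u : V} (hu : u ∈ C) (h2 : 2 ≤ df G x C u) :
    ex G x C + (x.k + 2) * (Yc G (x.k + 2) C).card < 0 := by
  obtain ⟨u0, hu0, hmax⟩ := exists_max_image C (df G x C) ⟨u, hu⟩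
  have hi : 2 ≤ df G x C u0 := h2.trans (hmax u hu)
  have hi' : (2 : ℝ) ≤ df G x C u0 := by exact_mod_cast hi
  have hD := x.Dpos
  have hΔ := x.Δpos
  have hk := x.k1
  have a1 := far' h hc hu0
  have a2 := cost3 x (by omega) (df_le_iie C u0) (hC.dfk h hu0)
  have a3 := YII h hI hC
  have a4 : ∑ u ∈ C, (df G x C u : ℝ) * (df G x C u - 1)
      ≤ (10 ^ 10 * x.Δ) * (df G x C u0 - 1) := by
    refine le_trans ?_ (mul_le_mul_of_nonneg_right hs (by linarith))
    rw [sum_mul]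
    refine sum_le_sum fun y hy => mul_le_mul_of_nonneg_left ?_ (Nat.cast_nonneg _)
    have : (df G x C y : ℝ) ≤ df G x C u0 := by exact_mod_cast hmax y hy
    linarith
  have a5 := mul_le_mul_of_nonneg_left a4 (show 0 ≤ x.k / x.Δ * x.D / 10 ^ 21 by positivity)
  have a6 : x.k / x.Δ * x.D / 10 ^ 21 * ((10 ^ 10 * x.Δ) * ((df G x C u0 : ℝ) - 1))
      = x.k * ((df G x C u0 - 1) * x.D) / 10 ^ 11 := by
    field_simp
  have a7 := mul_le_mul_of_nonneg_left (show ((df G x C u0 : ℝ) - 1) * x.D / (6 * 10 ^ 9)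
    ≤ x.P1 - Z (x.q + 1) (x.Δ - df G x C u0) (x.k + 1) by linarith)
    (show (0 : ℝ) ≤ x.k + 2 by positivity)
  have a8 : 0 < ((df G x C u0 : ℝ) - 1) * x.D := mul_pos (by linarith) hD
  rw [a6] at a5
  generalize ((df G x C u0 : ℝ) - 1) * x.D = t at *
  have a9 : 0 < x.k * t := by positivity
  have a10 : ((x.k : ℝ) + 2) * (t / (6 * 10 ^ 9)) = x.k * t / (6 * 10 ^ 9) + t / (3 * 10 ^ 9) := by
    ring
  linarith

theorem goodII (h : InC G x) (hI : HII x) (v : V) (hv : x.τ ≤ kc G (x.k + 1) (nb G v univ)) :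
    ∃ C, Good G x.Δ x.n (x.k + 1) x.τ x.pr v C := by
  obtain ⟨C, hC, hvC, hy⟩ := cl2 h hI hv
  refine ⟨C, hvC, hy, fun O hO => ?_⟩
  have hD := x.Dpos
  have hΔ := x.Δpos
  rw [Bal_eq]
  by_cases hcase : C.card ≠ x.n ∨ 9 * x.Δ < 10 * (C.filter fun u => 1 ≤ df G x C u).card ∨
      10 ^ 10 * (x.Δ : ℝ) < ∑ u ∈ C, (df G x C u : ℝ)
  · left
    have a1 := lossII h hI hC hcase
    have a2 : ∑ w ∈ O, gn G x C w ≤ x.D * (∑ u ∈ C, (df G x C u : ℝ)) / 10 ^ 23 := by
      refine (sum_le_sum fun w hw => gainII1 h hI hC (disjoint_left.1 hO hw)).trans ?_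
      rw [← sum_div, ← sum_mul, sum_nb_comm, mul_comm]
      refine div_le_div_of_nonneg_right (mul_le_mul_of_nonneg_left
        (sum_le_sum fun u _ => ?_) hD.le) (by positivity)
      exact_mod_cast bd_le h hO u
    have a3 : x.k / x.Δ * x.D / 10 ^ 21 * ∑ u ∈ C, (df G x C u : ℝ) * (df G x C u - 1)
        ≤ x.D * (∑ u ∈ C, (df G x C u : ℝ)) / 10 ^ 12 := by
      rw [mul_sum, mul_sum, sum_div]
      refine sum_le_sum fun u hu => ?_
      have b1 := hC.dfk h hu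
      have b0 : (0 : ℝ) ≤ df G x C u := Nat.cast_nonneg _
      have b2 : ((df G x C u : ℝ) - 1) * x.k / x.Δ ≤ 10 ^ 9 := by
        rw [div_le_iff₀ hΔ]
        nlinarith [x.k1]
      have b3 := mul_le_mul_of_nonneg_left b2 (mul_nonneg hD.le b0)
      have b4 : x.k / x.Δ * x.D / 10 ^ 21 * ((df G x C u : ℝ) * (df G x C u - 1))
          = x.D * df G x C u * ((df G x C u - 1) * x.k / x.Δ) / 10 ^ 21 := by ring
      rw [b4]
      linarith
    have a4 := YII h hI hC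
    have h0 := mul_nonneg hD.le (sumdf_nonneg_iie (G := G) (x := x) C)
    linarith
  · push Not at hcase
    obtain ⟨c1, c2, c3⟩ := hcase
    have a2 : ∑ w ∈ O, gn G x C w ≤ 0 := by
      refine sum_nonpos fun w hw => gainII0 h hI C (le_trans (Nat.mul_le_mul_left _
        (card_le_card fun u hu => ?_)) c2)
      obtain ⟨b1, b2⟩ := mem_nb.1 hu
      refine mem_filter.2 ⟨b1, le_trans (card_pos.2 ⟨w, mem_nb.2 ⟨hw, b2.symm⟩⟩) (bd_le h hO u)⟩
    by_cases d : ∃ u ∈ C, 2 ≤ df G x C u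
    · obtain ⟨u, hu, d⟩ := d
      left
      linarith [n0II h hI hC c1 c3 hu d]
    · push Not at d
      have a3 : ∀ u ∈ C, (out G C u).card ≤ 1 := fun u hu => by
        have := out_df h C u
        have := d u hu
        omega
      refine Or.inr ⟨?_, c1.le, a3⟩
      rw [Yc_empty a3, card_empty, Nat.cast_zero, mul_zero, add_zero]
      linarith [ex_zyk h c1]

theorem regII (h : InC G x) (hI : HII x) :
    ((x.k + 1 : ℕ) + 1) * kc G (x.k + 1 + 1) univ ≤ (univ : Finset V).card * x.τ :=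
  (glob (by have := x.hk; omega) h.deg h.cf hI.price (goodII h hI)).1

end Pool.Agent.Lib.MP_1b6faf_co.Un
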