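import Pool.Agent.Lib.MP_1b6faf_co.Un.IIIL

/-!
Remainder close to the divisor: graphs with many triangles have few larger cliques.
-/

namespace Pool.Agent.Lib.MP_1b6faf_co.Un

open Finset Pool.Agent.Lib.MP_1b6faf_co.H8
open scoped Classical

variable {V : Type*} [Fintype V] {G : SimpleGraph V} {x : Par}

omit [Fintype V] in
lemma markov (S : Finset V) (f : V → ℝ) (hf : ∀ u, 0 ≤ f u) (c : ℝ) (p : V → Prop) [DecidablePred p]
    (hp : ∀ u, p u → c ≤ f u) : c * (S.filter p).card ≤ ∑ u ∈ S, f u := by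
  have h1 := card_nsmul_le_sum (S.filter p) f c fun u hu => hp u (mem_filter.1 hu).2
  rw [nsmul_eq_mul, mul_comm] at h1
  exact h1.trans (sum_le_sum_of_subset_of_nonneg (filter_subset _ _) fun u _ _ => hf u)

theorem regIII [Nonempty V] (h : InC G x) (h3 : HIII x)
    (hs : (univ : Finset V).card * (x.P2 - 51 / 100 * x.Γ) ≤ 3 * kc G 3 univ) :
    ((x.k : ℝ) + 2) * kc G (x.k + 2) univ < (univ : Finset V).card * x.τ := by
  have hn : (0 : ℝ) < (univ : Finset V).card := by exact_mod_cast card_pos.2 univ_nonempty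
  have hΓ : 0 < x.Γ := by linarith [x.aΓ, x.a1]
  have hΔ := x.Δpos
  have l0 := ls_nonneg h
  have s1 : ∑ u, ls G x u ≤ 51 / 100 * x.Γ * (univ : Finset V).card := by
    have := kc_succ (G := G) 2 univ
    unfold ls
    rw [sum_sub_distrib, sum_const, nsmul_eq_mul, ← this]
    push_cast
    linarith
  have s2 : ∑ y, ∑ u ∈ nb G y univ, ls G x u ≤ x.Δ * (51 / 100 * x.Γ * (univ : Finset V).card) := by
    rw [sum_comm' (t' := univ) (s' := fun u => nb G u univ) (fun y u => by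
      simp [mem_nb, G.adj_comm])]
    refine le_trans (sum_le_sum fun u _ => ?_) ((mul_sum _ _ _).ge.trans
      (mul_le_mul_of_nonneg_left s1 hΔ.le))
    rw [sum_const, nsmul_eq_mul]
    exact mul_le_mul_of_nonneg_right (by exact_mod_cast h.deg u) (l0 u)
  have m1 := (markov univ _ l0 (74 / 100 * x.Γ) (fun u => 74 / 100 * x.Γ ≤ ls G x u)
    fun _ a => a).trans s1
  have m2 := (markov univ _ l0 (100 * x.Γ) (fun u => 100 * x.Γ < ls G x u) fun _ a => a.le).trans s1
  have m3 := (markov univ (fun y => ∑ u ∈ nb G y univ, ls G x u)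
    (fun y => sum_nonneg fun u _ => l0 u) (100 * x.Γ * x.Δ)
    (fun y => 100 * x.Γ * x.Δ < ∑ u ∈ nb G y univ, ls G x u) fun _ a => a.le).trans s2
  obtain ⟨B2, hB2⟩ : ∃ B2 : Finset V, ∀ u, u ∈ B2 ↔ ls G x u < 74 / 100 * x.Γ ∧ x.Γ / 100 < fw G x u :=
    ⟨univ.filter fun u => ls G x u < 74 / 100 * x.Γ ∧ x.Γ / 100 < fw G x u, fun u => by
      rw [mem_filter, and_iff_right (mem_univ u)]⟩
  have b1 : ∑ u ∈ B2, ((nb G u univ).card : ℝ) = B2.card * x.Δ := by
    rw [← nsmul_eq_mul, ← sum_const]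
    exact sum_congr rfl fun u hu => by rw [ls_card h h3 (by linarith [((hB2 u).1 hu).1])]
  have b2 : ∀ y ∈ (univ : Finset V), ((nb G y B2).card : ℝ) ≤ 3 / 100 * x.Δ
      + x.Δ * (if 100 * x.Γ < ls G x y then 1 else 0)
      + x.Δ * (if 100 * x.Γ * x.Δ < ∑ u ∈ nb G y univ, ls G x u then 1 else 0) := fun y _ => by
    have a1 : ((nb G y B2).card : ℝ) ≤ x.Δ := by exact_mod_cast h.degS y B2
    split_ifs with c1 c2 c2
    · linarith
    · linarith
    · linarith
    have a2 : ((nb G y B2).card : ℝ) ≤ ((nb G y univ).filter fun u => x.Γ / 100 < fw G x u).card := by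
      exact_mod_cast card_le_card fun u hu => mem_filter.2
        ⟨nb_mono y (subset_univ _) hu, ((hB2 u).1 (mem_nb.1 hu).1).2⟩
    linarith [locIII h h3 (not_lt.1 c1) (not_lt.1 c2)]
  have b3 := sum_le_sum b2
  rw [← sum_nb_comm, b1, sum_add_distrib, sum_add_distrib, sum_const, ← mul_sum, ← mul_sum,
    sum_boole, sum_boole, nsmul_eq_mul] at b3
  have b4 : ∀ u ∈ (univ : Finset V), kc G (x.k + 1) (nb G u univ) ≤ x.P - 4 * x.D
      + 4 * x.D * (if 74 / 100 * x.Γ ≤ ls G x u then 1 else 0)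
      + 4 * x.D * (if u ∈ B2 then 1 else 0) := fun u _ => by
    have a1 : kc G (x.k + 1) (nb G u univ) ≤ x.P := zyk' _ (h.cf1 u univ) (h.deg u)
    have := x.Dpos
    split_ifs with c1 c2 c2
    · linarith
    · linarith
    · linarith
    have := lemM h h3 (not_le.1 c1) (not_lt.1 fun c => c2 ((hB2 u).2 ⟨not_le.1 c1, c⟩))
    linarith
  have b5 := sum_le_sum b4
  rw [← kc_succ, sum_add_distrib, sum_add_distrib, sum_const, ← mul_sum, ← mul_sum,
    sum_boole, sum_boole, nsmul_eq_mul, filter_mem_eq_inter, univ_inter] at b5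
  generalize (((univ : Finset V).filter fun u => 74 / 100 * x.Γ ≤ ls G x u).card : ℝ) = n1 at *
  generalize (((univ : Finset V).filter fun u => 100 * x.Γ < ls G x u).card : ℝ) = n2 at *
  generalize (((univ : Finset V).filter
    fun y => 100 * x.Γ * x.Δ < ∑ u ∈ nb G y univ, ls G x u).card : ℝ) = n3 at *
  generalize ((univ : Finset V).card : ℝ) = n at *
  have c1 : 74 * n1 ≤ 51 * n := le_of_mul_le_mul_left (by linarith) hΓ
  have c2 : 10000 * n2 ≤ 51 * n := le_of_mul_le_mul_left (by linarith) hΓ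
  have c3 : 10000 * n3 ≤ 51 * n := le_of_mul_le_mul_left (by linarith) (mul_pos hΓ hΔ)
  have c4 : (B2.card : ℝ) ≤ 3 / 100 * n + n2 + n3 := le_of_mul_le_mul_left (by linarith) hΔ
  have c5 := mul_le_mul_of_nonneg_left (show n1 + B2.card ≤ 3 / 4 * n by linarith) x.Dpos.le
  have c6 := mul_lt_mul_of_pos_left x.φ1 (mul_pos hn x.Dpos)
  push_cast at b5
  unfold Par.τ
  rw [show (x.k : ℝ) + 2 = x.k + 1 + 1 by ring]
  linarith

end Pool.Agent.Lib.MP_1b6faf_co.Un
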