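import Pool.Agent.Lib.MP_1b6faf_co.Un.IIIM

/-!
Remainder close to the divisor: the cluster of a good vertex.
-/

namespace Pool.Agent.Lib.MP_1b6faf_co.Un

open Finset Pool.Agent.Lib.MP_1b6faf_co.H8
open scoped Classical

variable {V : Type*} [Fintype V] {G : SimpleGraph V} {x : Par}

/-- vertices outside `A` that are joined to almost all of `A` -/
noncomputable def Wd (G : SimpleGraph V) (x : Par) (A : Finset V) : Finset V :=
  (univ \ A).filter fun w => 1000 * (nn G w A).card ≤ x.Δ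

lemma loc0 (h : InC G x) (h3 : HIII x) {y : V} (hl : ls G x y ≤ 100 * x.Γ) {z : V}
    (hz : z ∈ nb G y univ) : ((nn G z (nb G y univ)).card : ℝ) ≤ x.a + 1 + 100 * x.Γ := by
  have hc := ls_card h h3 hl
  have a1 := kc_rec (G := G) 1 z (nb G y univ)
  have a2 := zyk' 2 ((h.cf1 y univ).mono (erase_subset z _))
    (show _ ≤ (x.q + 1) * x.a + x.r by
      rw [card_erase_of_mem hz, hc, x.Δ_eq]; omega)
  have a3 := Z_rec' (q := x.q) (a := x.a) (r := x.r) (by have := x.hr; omega) 1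
  rw [add_assoc, ← x.Δ_eq, Z_one'] at a3
  have a4 := card_nb_add_nn' (G := G) z (nb G y univ)
  have a5 : ((x.q * x.a + x.r : ℕ) : ℝ) = x.N := rfl
  rw [kc_one] at a1
  rw [hc] at a4
  have a6 := x.ΔR
  unfold ls Par.P2 at hl
  norm_num at a1 a3
  push_cast at a5
  linarith

omit [Fintype V] in
/-- edges inside a set, split along a subset -/
lemma kc2_split {S T : Finset V} (hT : T ⊆ S) :
    kc G 2 S ≤ kc G 2 T + ∑ w ∈ S \ T, ((nb G w S).card : ℝ) := by
  have a1 := kc_succ (G := G) 1 S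
  have a2 := kc_succ (G := G) 1 T
  simp only [kc_one] at a1 a2
  have a3 := sum_sdiff (f := fun w => ((nb G w S).card : ℝ)) hT
  have a4 : ∑ u ∈ T, ((nb G u S).card : ℝ)
      ≤ ∑ u ∈ T, (((nb G u T).card : ℝ) + (nb G u (S \ T)).card) := by
    refine sum_le_sum fun u _ => ?_
    have : nb G u S ⊆ nb G u T ∪ nb G u (S \ T) := fun w hw => by
      simp only [mem_union, mem_nb, mem_sdiff] at *; tauto
    exact_mod_cast (card_le_card this).trans (card_union_le _ _)
  rw [sum_add_distrib, sum_nb_comm T (S \ T)] at a4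
  have a5 : ∑ w ∈ S \ T, ((nb G w T).card : ℝ) ≤ ∑ w ∈ S \ T, ((nb G w S).card : ℝ) :=
    sum_le_sum fun w _ => by exact_mod_cast card_le_card (nb_mono w hT)
  norm_num at a1 a2
  linarith

lemma P2_steps (x : Par) {i : ℕ} (hi : i ≤ x.N) :
    Z (x.q + 1) (x.Δ - i) 2 + i * (x.N - i) ≤ x.P2 := by
  have h := Par.steps { x with k := 1, hk := le_rfl, hkq := by have := x.hq; omega } i
    (show i ≤ x.Δ from hi.trans (by unfold Par.Δ; omega))
  change Z (x.q + 1) (x.Δ - i) 2 + i * Z x.q (x.N - i) 1 ≤ x.P2 at h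
  rwa [Z_one', Nat.cast_sub hi] at h

lemma Wd_disj (A : Finset V) : Disjoint A (Wd G x A) :=
  disjoint_left.2 fun _ hw hw' => (mem_sdiff.1 (mem_filter.1 hw').1).2 hw

lemma loc_df (h : InC G x) (h3 : HIII x) {y : V} (hl : ls G x y ≤ 100 * x.Γ) {z : V}
    (hz : z ∈ nb G y univ) :
    (df G x (nb G y univ ∪ Wd G x (nb G y univ)) z : ℝ) * (x.Δ / 2000) ≤ ls G x z := by
  have hc := ls_card h h3 hl
  have h0 := loc0 h h3 hl hz
  set A := nb G y univ with hA
  set C := A ∪ Wd G x A with hC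
  have b1 := card_nb_add_nn' (G := G) z A
  rw [hc] at b1
  have b2 : ((nb G z C).card : ℝ) + df G x C z = x.Δ := by exact_mod_cast nb_df h C z
  have b3 : ((nb G z A).card : ℝ) ≤ (nb G z C).card := by
    exact_mod_cast card_le_card (nb_mono z subset_union_left)
  have b4 := x.ΔR
  have b5 := x.a1
  have b6 := h3.hΓ
  have b7 := h3.hg
  have hσ : df G x C z ≤ x.N := by
    have : (df G x C z : ℝ) ≤ x.N := by linarith
    exact_mod_cast this
  have c1 := kc2_split (G := G) (nb_mono (G := G) z (subset_univ C))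
  have c2 := zyk' 2 (h.cf1 z C) (show _ ≤ x.Δ - df G x C z by have := nb_df h C z; omega)
  have c3 := P2_steps x hσ
  have c4 : nb G z univ \ nb G z C = out G C z := by
    ext w
    simp only [mem_sdiff, mem_nb, mem_out, mem_univ, true_and]
    tauto
  rw [c4] at c1
  have c5 : ∀ w ∈ out G C z, ((nb G w (nb G z univ)).card : ℝ)
      ≤ 999 / 1000 * x.Δ + (nn G z A).card := fun w hw => by
    have d1 := (mem_out.1 hw).1
    rw [hC, mem_union, not_or] at d1
    have d2 : x.Δ < 1000 * (nn G w A).card := by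
      by_contra hcon
      exact d1.2 (mem_filter.2 ⟨mem_sdiff.2 ⟨mem_univ w, d1.1⟩, not_lt.1 hcon⟩)
    have d3 : (x.Δ : ℝ) < 1000 * (nn G w A).card := by exact_mod_cast d2
    have d4 := card_nb_add_nn' (G := G) w A
    rw [hc] at d4
    have d5 := nb_le (G := G) w A (nb G z univ)
    have d6 : (nb G z univ \ A).card + (nb G z A).card ≤ x.Δ := by
      have e1 : nb G z univ \ A = nb G z (univ \ A) := by
        ext t
        simp only [mem_sdiff, mem_nb, mem_univ, true_and]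
        tauto
      have e2 := nb_two (G := G) z (disjoint_sdiff (s := A) (t := univ))
      have e3 := h.deg z
      rw [e1]
      omega
    have d7 : ((nb G z univ \ A).card : ℝ) + (nb G z A).card ≤ x.Δ := by exact_mod_cast d6
    linarith
  have c6 := sum_le_card_nsmul _ _ _ c5
  rw [nsmul_eq_mul] at c6
  have c7 : ((out G C z).card : ℝ) ≤ df G x C z := by exact_mod_cast out_df h C z
  have c8 := mul_le_mul_of_nonneg_right c7
    (show (0 : ℝ) ≤ 999 / 1000 * x.Δ + (nn G z A).card by positivity)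
  have c9 := mul_le_mul_of_nonneg_left
    (show x.Δ / 2000 + (999 / 1000 * x.Δ + (nn G z A).card) ≤ (x.N : ℝ) - df G x C z by linarith)
    (Nat.cast_nonneg (α := ℝ) (df G x C z))
  unfold ls
  linarith

theorem loc1 (h : InC G x) (h3 : HIII x) {y : V} (hl : ls G x y ≤ 100 * x.Γ)
    (hs : ∑ u ∈ nb G y univ, ls G x u ≤ 100 * x.Γ * x.Δ) :
    ∑ z ∈ nb G y univ, (df G x (nb G y univ ∪ Wd G x (nb G y univ)) z : ℝ) ≤ 2 * 10 ^ 5 * x.Γ := by
  have a1 := sum_le_sum fun z (hz : z ∈ nb G y univ) => loc_df h h3 hl hz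
  rw [← sum_mul] at a1
  have a2 := x.Δpos
  refine le_of_mul_le_mul_right (a1.trans (hs.trans (le_of_eq ?_)))
    (show (0 : ℝ) < x.Δ / 2000 by positivity)
  ring

theorem loc2 (h : InC G x) (h3 : HIII x) {y : V} (hl : ls G x y ≤ 100 * x.Γ)
    (hs : ∑ u ∈ nb G y univ, ls G x u ≤ 100 * x.Γ * x.Δ) :
    x.a + 1 ≤ (Wd G x (nb G y univ)).card ∧ 10 ^ 4 * (Wd G x (nb G y univ)).card ≤ x.Δ ∧
      L2 G (nb G y univ ∪ Wd G x (nb G y univ)) (x.q + 2) x.a
        ≤ 3 * ((Wd G x (nb G y univ)).card - (x.a + 1)) * x.Δ + 5 * 10 ^ 5 * x.Γ := by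
  have hc := ls_card h h3 hl
  have h1 := loc1 h h3 hl hs
  have h2 := ls_sum (G := G) hc
  have h0 := ls_nonneg h y
  set A := nb G y univ with hA
  set W := Wd G x A with hW
  have hd : Disjoint A W := Wd_disj A
  have b4 := x.ΔR
  have b5 := x.a1
  have b6 := h3.hΓ
  have b7 := h3.hg
  have b8 := x.Δpos
  have b9 := x.Δ_xr
  -- deficiencies on `A`
  have c1 : ∀ z ∈ A, (df G x (A ∪ W) z : ℝ) = (nn G z A).card - (nb G z W).card := fun z _ => by
    have d1 := card_nb_add_nn' (G := G) z A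
    rw [hc] at d1
    have d2 : ((nb G z (A ∪ W)).card : ℝ) + df G x (A ∪ W) z = x.Δ := by
      exact_mod_cast nb_df h (A ∪ W) z
    have d3 : (nb G z (A ∪ W)).card = (nb G z A).card + (nb G z W).card := by
      rw [← card_union_of_disjoint (hd.mono (nb_subset _ _) (nb_subset _ _))]
      unfold nb
      rw [filter_union]
    have d4 : ((nb G z (A ∪ W)).card : ℝ) = (nb G z A).card + (nb G z W).card := by
      exact_mod_cast d3
    linarith
  have c2 := sum_congr rfl c1
  rw [sum_sub_distrib, sum_nb_comm A W] at c2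
  have c3 : 0 ≤ ∑ z ∈ A, (df G x (A ∪ W) z : ℝ) := sum_nonneg fun _ _ => Nat.cast_nonneg _
  have c4 : ∑ w ∈ W, ((nb G w A).card : ℝ) + ∑ w ∈ W, ((nn G w A).card : ℝ) = W.card * x.Δ := by
    rw [← sum_add_distrib, sum_congr rfl fun w _ => card_nb_add_nn' (G := G) w A, sum_const,
      nsmul_eq_mul, hc]
  have c5 : 0 ≤ ∑ w ∈ W, ((nn G w A).card : ℝ) := sum_nonneg fun _ _ => Nat.cast_nonneg _
  have c6 : ∑ w ∈ W, ((nn G w A).card : ℝ) ≤ W.card * (x.Δ / 1000) := by
    rw [← nsmul_eq_mul]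
    refine sum_le_card_nsmul _ _ _ fun w hw => ?_
    have : (1000 : ℝ) * (nn G w A).card ≤ x.Δ := by exact_mod_cast (mem_filter.1 hw).2
    linarith
  have e1 : x.a + 1 ≤ W.card := by
    have f1 : (x.a : ℝ) * x.Δ < W.card * x.Δ := by linarith
    have f2 : (x.a : ℝ) < W.card := lt_of_mul_lt_mul_right f1 b8.le
    exact_mod_cast f2
  have e2 : (W.card : ℝ) ≤ 2 * x.a + 3 := by
    have f1 : (W.card : ℝ) * x.Δ ≤ (2 * x.a + 3) * x.Δ := by
      have := mul_nonneg (Nat.cast_nonneg (α := ℝ) W.card) b8.le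
      have := mul_nonneg (Nat.cast_nonneg (α := ℝ) x.a) b8.le
      linarith
    exact le_of_mul_le_mul_right f1 b8
  have e3 : (10 : ℝ) ^ 4 * W.card ≤ x.Δ := by linarith
  refine ⟨e1, by exact_mod_cast e3, ?_⟩
  have g1 := sum_df h (A ∪ W)
  rw [sum_union hd, card_union_of_disjoint hd, hc, x.nR] at g1
  have g2 : ∑ w ∈ W, (df G x (A ∪ W) w : ℝ) ≤ ∑ w ∈ W, ((nn G w A).card : ℝ) := by
    refine sum_le_sum fun w _ => ?_
    have d1 := card_nb_add_nn (G := G) w A
    have d2 := nb_df h (A ∪ W) w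
    have d3 := card_le_card (nb_mono (G := G) w (subset_union_left (s₁ := A) (s₂ := W)))
    have d4 : df G x (A ∪ W) w ≤ (nn G w A).card := by omega
    exact_mod_cast d4
  have g3 : (x.a : ℝ) + 1 ≤ W.card := by exact_mod_cast e1
  have g4 := mul_le_mul_of_nonneg_left (show (W.card : ℝ) - x.a ≤ x.Δ by linarith)
    (sub_nonneg.2 g3)
  push_cast at g1
  linarith


lemma l3_num (h3 : HIII x) : 0 < x.Γ ∧ (x.a : ℝ) + 1 ≤ x.Γ / 1000 ∧ 10 ^ 16 * x.Γ ≤ x.Δ := by
  have h1 := h3.hg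
  have h2 := x.a1
  refine ⟨by linarith, by linarith, h3.hΓ⟩

lemma l3_disj (A : Finset V) : Disjoint A (Wd G x A) :=
  disjoint_left.2 fun _ hu hw => (mem_sdiff.1 (mem_filter.1 hw).1).2 hu

lemma l3_card (h : InC G x) (h3 : HIII x) {y : V} (hl : ls G x y ≤ 100 * x.Γ) :
    (nb G y univ ∪ Wd G x (nb G y univ)).card = x.Δ + (Wd G x (nb G y univ)).card := by
  rw [card_union_of_disjoint (l3_disj _), ls_card h h3 hl]

/-- codegrees at a vertex of `A` -/
lemma loc_cd (h : InC G x) (h3 : HIII x) {y : V} (hl : ls G x y ≤ 100 * x.Γ)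
    (hW : 10 ^ 4 * (Wd G x (nb G y univ)).card ≤ x.Δ) {z w : V}
    (hz : z ∈ nb G y univ) (hw : G.Adj z w) :
    (nb G w (nb G z univ)).card + (Wd G x (nb G y univ)).card ≤ x.Δ +
      if w ∈ nb G y univ ∪ Wd G x (nb G y univ) then
        (nn G z (nb G y univ ∪ Wd G x (nb G y univ))
          ∩ nn G w (nb G y univ ∪ Wd G x (nb G y univ))).card else 0 := by
  have hC := l3_card h h3 hl
  have hA := ls_card h h3 hl
  have h0 := loc0 h h3 hl hz
  obtain ⟨n1, n2, n3⟩ := l3_num h3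
  generalize nb G y univ = A at *
  have key : ∀ C : Finset V, (nb G w (nb G z univ)).card
      ≤ (nb G w (nb G z C)).card + (out G C z).card := fun C => by
    refine le_trans (card_le_card fun u hu => ?_) (card_union_le _ _)
    simp only [mem_union, mem_nb, mem_out, mem_univ, true_and] at hu ⊢
    tauto
  split_ifs with c
  · have a1 := key (A ∪ Wd G x A)
    have a2 := codeg (G := G) z w (A ∪ Wd G x A)
    have a3 := h.out_le (A ∪ Wd G x A) z
    have a4 := card_nb_add_nn (G := G) w (A ∪ Wd G x A)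
    have a5 := h.degS w (A ∪ Wd G x A)
    omega
  · have a1 := key A
    have a2 : (nb G w (nb G z A)).card ≤ (nb G w A).card :=
      card_le_card (nb_mono w (nb_subset _ _))
    have a3 := h.out_le A z
    have a4 := card_nb_add_nn (G := G) w A
    have a5 : x.Δ < 1000 * (nn G w A).card := by
      by_contra hc
      rw [mem_union, not_or] at c
      exact c.2 (mem_filter.2 ⟨mem_sdiff.2 ⟨mem_univ _, c.1⟩, not_lt.1 hc⟩)
    have a6 : 10 ^ 4 * (nn G z A).card ≤ x.Δ := by
      have : (10 : ℝ) ^ 4 * (nn G z A).card ≤ x.Δ := by linarith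
      exact_mod_cast this
    omega

/-- edges at `z` inside `C` together with a common non-neighbour -/
noncomputable def Hz (G : SimpleGraph V) (C : Finset V) (z : V) : ℝ :=
  ∑ w ∈ nb G z C, ((nn G z C ∩ nn G w C).card : ℝ)

omit [Fintype V] in
lemma Hz_nonneg (C : Finset V) (z : V) : 0 ≤ Hz G C z :=
  sum_nonneg fun _ _ => Nat.cast_nonneg _

lemma Hz_sum {A C : Finset V} (hA : A ⊆ C) : ∑ z ∈ A, Hz G C z ≤ Hc G C univ := by
  unfold Hc
  simp only [inter_univ]
  exact sum_le_sum_of_subset_of_nonneg hA fun z _ _ => Hz_nonneg C z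

lemma Hz_ite (C : Finset V) (z : V) : ∑ w ∈ nb G z univ,
    ((if w ∈ C then (nn G z C ∩ nn G w C).card else 0 : ℕ) : ℝ) = Hz G C z := by
  push_cast
  rw [← sum_filter, Hz]
  congr 1
  ext u
  simp [mem_nb, and_comm]

theorem loc3 (h : InC G x) (h3 : HIII x) {y : V} (hl : ls G x y ≤ 100 * x.Γ)
    (hs : ∑ u ∈ nb G y univ, ls G x u ≤ 100 * x.Γ * x.Δ) :
    (Wd G x (nb G y univ)).card = x.a + 1 := by
  obtain ⟨l1, l2, l3⟩ := loc2 h h3 hl hs
  by_contra hne
  have hw : (x.a : ℝ) + 1 + 1 ≤ (Wd G x (nb G y univ)).card := by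
    exact_mod_cast (show x.a + 1 + 1 ≤ (Wd G x (nb G y univ)).card by omega)
  have hcd := fun z w => loc_cd h h3 hl l2 (z := z) (w := w)
  have h0 := fun z => loc0 h h3 hl (z := z)
  have hA := ls_card h h3 hl
  obtain ⟨n1, n2, n3⟩ := l3_num h3
  have l2' : (10 : ℝ) ^ 4 * (Wd G x (nb G y univ)).card ≤ x.Δ := by exact_mod_cast l2
  have hΔ := x.Δpos
  generalize nb G y univ = A at *
  have b1 : ∀ z ∈ A, x.Δ * ((Wd G x A).card - (x.a + 1) : ℝ) ≤ 2 * ls G x z
      + Hz G (A ∪ Wd G x A) z := fun z hz => by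
    have a1 := kc_succ (G := G) 1 (nb G z univ)
    simp only [kc_one] at a1
    have a2 : ∑ w ∈ nb G z univ, ((nb G w (nb G z univ)).card : ℝ) ≤ ∑ w ∈ nb G z univ,
        ((x.Δ - (Wd G x A).card : ℝ) + ((if w ∈ A ∪ Wd G x A then (nn G z (A ∪ Wd G x A)
          ∩ nn G w (A ∪ Wd G x A)).card else 0 : ℕ) : ℝ)) := sum_le_sum fun w hw => by
      have := (Nat.cast_le (α := ℝ)).2 (hcd z w hz (mem_nb.1 hw).2)
      rw [Nat.cast_add, Nat.cast_add] at this
      linarith
    rw [sum_add_distrib, Hz_ite, sum_const, nsmul_eq_mul] at a2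
    have a3 : ((nb G z univ).card : ℝ) ≤ x.Δ := by exact_mod_cast h.deg z
    have a4 := mul_le_mul_of_nonneg_right a3
      (show (0 : ℝ) ≤ x.Δ - (Wd G x A).card by linarith)
    have a5 := P2_eq x
    have a6 : (x.N : ℝ) = x.Δ - (x.a + 1) := by linarith [x.ΔR]
    rw [a6] at a5
    push_cast at a1
    unfold ls
    nlinarith
  have b2 := sum_le_sum b1
  rw [sum_const, nsmul_eq_mul, hA, sum_add_distrib, ← mul_sum] at b2
  have b3 := Hz_sum (G := G) (subset_union_left : A ⊆ A ∪ Wd G x A)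
  have b4 := lemW0 (x.q + 2) x.a (A ∪ Wd G x A) univ (h.cf.mono (subset_univ _))
    (lam := x.Δ / 500) (by positivity) fun z hz => by
      have c1 := nn_le (G := G) z A (A ∪ Wd G x A)
      have c2 : (((A ∪ Wd G x A) \ A).card : ℝ) ≤ (Wd G x A).card := by
        exact_mod_cast card_le_card fun u hu => by
          simp only [mem_sdiff, mem_union] at hu; tauto
      rcases mem_union.1 (mem_inter.1 hz).1 with c | c
      · linarith [h0 z c]
      · have : (1000 : ℝ) * (nn G z A).card ≤ x.Δ := by exact_mod_cast (mem_filter.1 c).2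
        linarith
  have b5 := mul_le_mul_of_nonneg_left l3 (show (0 : ℝ) ≤ 5 * (x.Δ / 500) by positivity)
  generalize ((Wd G x A).card : ℝ) = w at *
  have b6 : x.Δ * (x.Δ * (w - (x.a + 1))) ≤ x.Δ * (5200 * x.Γ + 3 / 100 * (x.Δ * (w - (x.a + 1)))) := by
    linarith
  have b7 := le_of_mul_le_mul_left b6 hΔ
  nlinarith [mul_le_mul_of_nonneg_left (show (1 : ℝ) ≤ w - (x.a + 1) by linarith) hΔ.le]

theorem locIII (h : InC G x) (h3 : HIII x) {y : V} (hl : ls G x y ≤ 100 * x.Γ)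
    (hs : ∑ u ∈ nb G y univ, ls G x u ≤ 100 * x.Γ * x.Δ) :
    (((nb G y univ).filter fun u => x.Γ / 100 < fw G x u).card : ℝ) ≤ 3 / 100 * x.Δ := by
  obtain ⟨-, l2, l3⟩ := loc2 h h3 hl hs
  have hw := loc3 h h3 hl hs
  have hcd := fun z w => loc_cd h h3 hl l2 (z := z) (w := w)
  have hC := l3_card h h3 hl
  obtain ⟨n1, n2, n3⟩ := l3_num h3
  rw [hw] at hcd hC l3
  have hAC : nb G y univ ⊆ nb G y univ ∪ Wd G x (nb G y univ) := subset_union_left
  generalize nb G y univ ∪ Wd G x (nb G y univ) = C at *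
  generalize nb G y univ = A at *
  have l4 : L2 G C (x.q + 2) x.a ≤ 5 * 10 ^ 5 * x.Γ := by
    push_cast at l3
    linarith
  have b1 : ∑ u ∈ C, (df G x C u : ℝ) ≤ 5 * 10 ^ 5 * x.Γ := by
    rw [sum_df h C, hC, x.nR]
    push_cast
    linarith [x.Δ_xr]
  have b4 := lemW0 (x.q + 2) x.a C univ (h.cf.mono (subset_univ _))
    (lam := 6 * 10 ^ 5 * x.Γ) (by positivity) fun z hz => by
      have c1 := single_le_sum (f := fun u => (df G x C u : ℝ)) (fun u _ => Nat.cast_nonneg _)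
        (mem_inter.1 hz).1
      have c2 := df_nn h C z
      have c3 : ((nn G z C).card : ℝ) = df G x C z + (x.a + 1) := by
        exact_mod_cast (show (nn G z C).card = df G x C z + (x.a + 1) by omega)
      linarith
  have b5 : ∀ u ∈ A, fw G x u ≤ Hz G C u := fun u hu => by
    rw [← Hz_ite, fw]
    refine sum_le_sum fun w hw => Nat.cast_le.2 ?_
    have := hcd u w hu (mem_nb.1 hw).2
    unfold Par.Δ at this
    omega
  have b6 := card_nsmul_le_sum (A.filter fun u => x.Γ / 100 < fw G x u) (Hz G C) (x.Γ / 100)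
    fun u hu => (mem_filter.1 hu).2.le.trans (b5 u (mem_filter.1 hu).1)
  have b7 := Hz_sum (G := G) ((filter_subset (fun u => x.Γ / 100 < fw G x u) A).trans hAC)
  have b8 := mul_le_mul_of_nonneg_left l4 (show (0 : ℝ) ≤ 5 * (6 * 10 ^ 5 * x.Γ) by positivity)
  rw [nsmul_eq_mul] at b6
  refine le_of_mul_le_mul_right ?_ n1
  nlinarith [mul_le_mul_of_nonneg_right n3 n1.le]

end Pool.Agent.Lib.MP_1b6faf_co.Un
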