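import Pool.Agent.Lib.MP_1b6faf_co.Un.IIIN
import Pool.Agent.Lib.MP_1b6faf_co.Un.GA
import Pool.Agent.Lib.MP_1b6faf_co.Un.GB

/-!
Remainder close to the divisor: neighbourhoods with few large codegrees lose cliques.
-/

namespace Pool.Agent.Lib.MP_1b6faf_co.Un

open Finset Pool.Agent.Lib.MP_1b6faf_co.H8
open scoped Classical

variable {V : Type*} [Fintype V] {G : SimpleGraph V} {x : Par}

lemma ls_card (h : InC G x) (h3 : HIII x) {u : V} (hl : ls G x u ≤ 100 * x.Γ) :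
    (nb G u univ).card = x.Δ := by
  by_contra hc
  have h1 : (nb G u univ).card ≤ x.N + x.a := by
    have := h.deg u
    unfold Par.Δ at this hc
    omega
  have h2 := zyk' 2 (h.cf1 u univ) h1
  have h4 := Z_rec' (q := x.q) (a := x.a) (r := x.r) (by have := x.hr; omega) 1
  rw [← x.Na, Z_one'] at h4
  change x.P2 = Z (x.q + 1) (x.N + x.a) 2 + (x.N : ℝ) at h4
  unfold ls at hl
  have h5 := x.ΔR
  linarith [h3.hΓ, h3.hg, x.a1]

lemma ls_sum {u : V} (hc : (nb G u univ).card = x.Δ) :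
    ∑ y ∈ nb G u univ, ((nn G y (nb G u univ)).card : ℝ)
      = x.Δ * (x.a + 1) - x.Γ + 2 * ls G x u := by
  have h1 := kc_succ (G := G) 1 (nb G u univ)
  have h2 : ∀ y ∈ nb G u univ, kc G 1 (nb G y (nb G u univ))
      = x.Δ - ((nn G y (nb G u univ)).card : ℝ) := fun y _ => by
    have := card_nb_add_nn' (G := G) y (nb G u univ)
    rw [kc_one, ← hc]
    linarith
  rw [sum_congr rfl h2, sum_sub_distrib, sum_const, hc, nsmul_eq_mul] at h1
  have h3 := P2_eq x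
  have h4 := x.ΔR
  unfold ls
  norm_num at h1
  rw [show (x.a : ℝ) + 1 = x.Δ - x.N by linarith]
  linarith

namespace IIIMAux

lemma L2_eq {u : V} (hc : (nb G u univ).card = x.Δ) :
    L2 G (nb G u univ) (x.q + 1) x.a = 2 * ls G x u := by
  unfold L2
  rw [ls_sum hc, hc, x.Δ_eq, Par.Γ]
  push_cast
  ring

lemma fw_eq {u : V} (hc : (nb G u univ).card = x.Δ) :
    fw G x u = ∑ y ∈ nb G u univ, max ((x.a : ℝ) + 1 - (nn G y (nb G u univ)).card) 0 := by
  unfold fw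
  refine sum_congr rfl fun y _ => ?_
  have h1 := card_nb_add_nn (G := G) y (nb G u univ)
  rw [hc] at h1
  unfold Par.Δ at h1
  rcases le_total (nb G y (nb G u univ)).card x.N with c | c
  · have h2 : (x.a : ℝ) + 1 ≤ (nn G y (nb G u univ)).card := by
      exact_mod_cast (by omega : x.a + 1 ≤ (nn G y (nb G u univ)).card)
    rw [Nat.sub_eq_zero_of_le c, max_eq_right (by linarith), Nat.cast_zero]
  · have h2 : ((nn G y (nb G u univ)).card : ℝ) ≤ x.a + 1 := by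
      exact_mod_cast (by omega : (nn G y (nb G u univ)).card ≤ x.a + 1)
    have h3 : ((nb G y (nb G u univ)).card : ℝ) + (nn G y (nb G u univ)).card
        = x.N + x.a + 1 := by exact_mod_cast h1
    rw [Nat.cast_sub c, max_eq_left (by linarith)]
    linarith

/-- the heavy vertices carry few non-edges -/
lemma heavy (h3 : HIII x) {u : V} (hc : (nb G u univ).card = x.Δ)
    (hl : ls G x u < 74 / 100 * x.Γ) (hf : fw G x u ≤ x.Γ / 100) {B : Finset V}
    (hB : B ⊆ nb G u univ)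
    (hh : ∀ z ∈ B, (x.a : ℝ) + 1 + x.Γ / 10 ^ 6 ≤ (nn G z (nb G u univ)).card) :
    ∑ z ∈ B, ((nn G z (nb G u univ)).card : ℝ) ≤ x.Γ / 2 := by
  have h1 := ls_sum (G := G) hc
  rw [fw_eq hc] at hf
  have hb : 10 ^ 10 * ((x.a : ℝ) + 1) ≤ 2 * x.Γ := by linarith [h3.hg, x.a1]
  have h2 : ∑ z ∈ B, (((nn G z (nb G u univ)).card : ℝ) - (x.a + 1))
      ≤ ∑ z ∈ nb G u univ, (((nn G z (nb G u univ)).card : ℝ) - (x.a + 1)
        + max ((x.a : ℝ) + 1 - (nn G z (nb G u univ)).card) 0) := by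
    refine (sum_le_sum fun z _ => ?_).trans (sum_le_sum_of_subset_of_nonneg hB fun z _ _ => ?_)
    · linarith [le_max_right ((x.a : ℝ) + 1 - (nn G z (nb G u univ)).card) 0]
    · linarith [le_max_left ((x.a : ℝ) + 1 - (nn G z (nb G u univ)).card) 0]
  rw [sum_add_distrib, sum_sub_distrib (s := nb G u univ), sum_const, hc, nsmul_eq_mul, h1] at h2
  have h4 : ∑ z ∈ B, ((nn G z (nb G u univ)).card : ℝ)
      ≤ ∑ z ∈ B, 1001 / 1000 * (((nn G z (nb G u univ)).card : ℝ) - (x.a + 1)) :=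
    sum_le_sum fun z hz => by linarith [hh z hz, x.a1]
  rw [← mul_sum] at h4
  linarith [x.a1]

/-- cliques in a link -/
lemma link (h : InC G x) (h3 : HIII x) {u y : V} (hc : (nb G u univ).card = x.Δ)
    (hy : y ∈ nb G u univ) {i : ℕ} (hi : i < x.k) :
    kc G i (nb G y (nb G u univ)) ≤ 101 / 100 * Z x.q (x.N + 1) i := by
  rcases i with _ | l
  · rw [kc_zero, Z_zero]
    norm_num
  have h1 : (nb G y (nb G u univ)).card ≤ x.Δ := hc ▸ card_le_card (nb_subset _ _)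
  have h2 := link_up x (h := x.a + 1) h1 (h1.trans (by unfold Par.Δ; omega)) l
  have h4 := zyk (G := G) (l + 1) _ x.q (h.cf2 (mem_nb.1 hy).2 univ)
  have h5 := Z_mono x.q (l + 1) (Nat.le_succ x.N)
  have hΓ : 0 < x.Γ := by linarith [x.aΓ, x.a1]
  have hb : 10 ^ 10 * ((x.a : ℝ) + 1) ≤ 2 * x.Γ := by linarith [h3.hg, x.a1]
  have hl : (l : ℝ) + 1 ≤ x.k + 1 := by exact_mod_cast (by omega : l + 1 ≤ x.k + 1)
  have h6 : ((l : ℝ) + 1) * x.Γ ≤ 41 * x.Δ := (mul_le_mul_of_nonneg_right hl hΓ.le).trans h3.hk2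
  have h7 : ((l : ℝ) + 1) * (10 ^ 10 * ((x.a : ℝ) + 1)) ≤ ((l : ℝ) + 1) * (2 * x.Γ) :=
    mul_le_mul_of_nonneg_left hb (by positivity)
  have h8 : (x.Δ : ℝ) + 81 * (l + 1) * ((x.a + 1 : ℕ) : ℝ) ≤ 101 / 100 * x.Δ := by
    push_cast
    linarith [x.Δpos]
  have h9 := mul_le_mul h8 h5 (Z_nonneg _ _ _) (by linarith [x.Δpos])
  refine h4.trans (le_of_mul_le_mul_left ?_ x.Δpos)
  linarith

/-- cliques through an edge -/
lemma edge (h : InC G x) (h3 : HIII x) {u v y : V} (hc : (nb G u univ).card = x.Δ)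
    (hv : v ∈ nb G u univ) (hy : y ∈ nb G v (nb G u univ)) {i : ℕ} (hi : i < x.k) :
    (((clq G (i + 1) (nb G u univ)).filter fun Q => v ∈ Q ∧ y ∈ Q).card : ℝ)
      ≤ 3321 * Z x.q (x.N + 1) i / x.Γ := by
  have hΓ : 0 < x.Γ := by linarith [x.aΓ, x.a1]
  rcases i with _ | l
  · rw [zero_add, cnt2_zero (mem_nb.1 hy).2, Nat.cast_zero]
    have := Z_nonneg x.q (x.N + 1) 0
    positivity
  refine (cnt2 (mem_nb.1 hy).2 l _).trans ?_
  have e : x.q - 1 + 1 = x.q := Nat.sub_add_cancel (by have := x.hq; omega)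
  have h1 : CF G (x.q - 1 + 1) (nb G v (nb G u univ)) := by
    rw [e]
    exact h.cf2 (mem_nb.1 hv).2 univ
  have h2 := zyk' l (h1.nb hy) (N := x.Δ)
    (hc ▸ card_le_card ((nb_subset _ _).trans (nb_subset _ _)))
  have h4 := star x l
  have h5 := Z_mono x.q (l + 1) (Nat.le_succ x.N)
  have hl : (l : ℝ) + 1 ≤ x.k + 1 := by exact_mod_cast (by omega : l + 1 ≤ x.k + 1)
  have h6 : ((l : ℝ) + 1) * x.Γ ≤ 41 * x.Δ := (mul_le_mul_of_nonneg_right hl hΓ.le).trans h3.hk2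
  have h7 := mul_le_mul h6 h5 (Z_nonneg _ _ _) (by linarith [x.Δpos])
  have h8 := mul_le_mul_of_nonneg_right h4 hΓ.le
  refine h2.trans ?_
  rw [le_div_iff₀ hΓ]
  refine le_of_mul_le_mul_left ?_ x.Δpos
  linarith

end IIIMAux

theorem stepM (h : InC G x) (h3 : HIII x) {u : V} (hl : ls G x u < 74 / 100 * x.Γ)
    (hf : fw G x u ≤ x.Γ / 100) {i : ℕ} (hi : i < x.k) :
    ((i : ℝ) + 2) * kc G (i + 2) (nb G u univ)
      ≤ (x.Δ - (i + 1) * (x.a + 1)) * kc G (i + 1) (nb G u univ)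
        + 3 / 5 * x.Γ * Z x.q (x.N + 1) i := by
  have hΓ : 0 < x.Γ := by linarith [x.aΓ, x.a1]
  have hc := ls_card h h3 (u := u) (by linarith)
  have hb : 10 ^ 10 * ((x.a : ℝ) + 1) ≤ 2 * x.Γ := by linarith [h3.hg, x.a1]
  have hT := Z_nonneg x.q (x.N + 1) i
  have hl0 := ls_nonneg h u
  set S := nb G u univ with hS
  set Lt := S.filter fun z => ((nn G z S).card : ℝ) ≤ x.a + 1 + x.Γ / 10 ^ 6 with hLt
  have h1 := rec_up (G := G) i S Lt ((x.a : ℝ) + 1) (β := 3321 * Z x.q (x.N + 1) i / x.Γ)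
    fun v hv y hy => IIIMAux.edge h h3 hc hv hy hi
  have h2 := lemW0 (x.q + 1) x.a S Lt (h.cf1 u univ) (lam := x.a + 1 + x.Γ / 10 ^ 6)
    (by positivity) fun z hz => (mem_filter.1 (mem_inter.1 hz).2).2
  rw [IIIMAux.L2_eq hc] at h2
  have h4 : Hc G S Lt ≤ 1 / 10 ^ 5 * x.Γ * x.Γ := by
    have a1 : 5 * ((x.a : ℝ) + 1 + x.Γ / 10 ^ 6) ≤ 6 / 10 ^ 6 * x.Γ := by linarith
    have a2 : 2 * ls G x u ≤ 3 / 2 * x.Γ := by linarith
    have a3 := mul_le_mul a1 a2 (by linarith) (by positivity)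
    have a4 : 0 ≤ x.Γ * x.Γ := by positivity
    linarith
  have h5 : 3321 * Z x.q (x.N + 1) i / x.Γ / 2 * Hc G S Lt
      ≤ 1 / 50 * x.Γ * Z x.q (x.N + 1) i := by
    have a1 := mul_le_mul_of_nonneg_left h4
      (show 0 ≤ 3321 * Z x.q (x.N + 1) i / x.Γ / 2 by positivity)
    have a2 : 3321 * Z x.q (x.N + 1) i / x.Γ / 2 * (1 / 10 ^ 5 * x.Γ * x.Γ)
        = 3321 / (2 * 10 ^ 5) * (x.Γ * Z x.q (x.N + 1) i) := by
      field_simp
    have a3 : 0 ≤ x.Γ * Z x.q (x.N + 1) i := by positivity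
    rw [a2] at a1
    linarith
  have h6 : ∀ y ∈ S, ((x.a : ℝ) + 1 - (nn G y S ∩ Lt).card) * kc G i (nb G y S)
      ≤ (max ((x.a : ℝ) + 1 - (nn G y S).card) 0 + (nn G y (S \ Lt)).card)
        * (101 / 100 * Z x.q (x.N + 1) i) := by
    intro y hy
    have a1 : (nn G y S ∩ Lt).card + (nn G y (S \ Lt)).card = (nn G y S).card := by
      rw [← card_inter_add_card_sdiff (nn G y S) Lt]
      congr 2
      ext z
      simp only [mem_nn, mem_sdiff]
      tauto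
    have a2 : ((nn G y S ∩ Lt).card : ℝ) + (nn G y (S \ Lt)).card = (nn G y S).card := by
      exact_mod_cast a1
    have a3 := le_max_left ((x.a : ℝ) + 1 - (nn G y S).card) 0
    have a4 := le_max_right ((x.a : ℝ) + 1 - (nn G y S).card) 0
    exact mul_le_mul (by linarith) (IIIMAux.link h h3 hc hy hi) (kc_nonneg _ _) (by positivity)
  have h7 := sum_le_sum h6
  rw [← sum_mul, sum_add_distrib, ← IIIMAux.fw_eq hc, sum_nn_comm] at h7
  have h8 := IIIMAux.heavy h3 hc hl hf (B := S \ Lt) sdiff_subset fun z hz => by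
    have a1 := mem_sdiff.1 hz
    exact (not_le.1 fun a2 => a1.2 (mem_filter.2 ⟨a1.1, a2⟩)).le
  have h9 : (fw G x u + ∑ z ∈ S \ Lt, ((nn G z S).card : ℝ)) * (101 / 100 * Z x.q (x.N + 1) i)
      ≤ 51 / 100 * x.Γ * (101 / 100 * Z x.q (x.N + 1) i) :=
    mul_le_mul_of_nonneg_right (by linarith) (by positivity)
  have a3 : 0 ≤ x.Γ * Z x.q (x.N + 1) i := by positivity
  rw [hc] at h1
  linarith

theorem lemM (h : InC G x) (h3 : HIII x) {u : V} (hl : ls G x u < 74 / 100 * x.Γ)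
    (hf : fw G x u ≤ x.Γ / 100) : kc G (x.k + 1) (nb G u univ) ≤ x.P - 4 * x.D :=
  numM h3 (fun i => kc G i (nb G u univ)) (by rw [kc_one]; exact_mod_cast h.deg u)
    fun _ hi => stepM h h3 hl hf hi

end Pool.Agent.Lib.MP_1b6faf_co.Un
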