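import Pool.Agent.Lib.MP_1b6faf_co.Un.ZA

/-!
Remainder close to the divisor: the loss accumulated along the recursion.
-/

namespace Pool.Agent.Lib.MP_1b6faf_co.Un

open Finset Pool.Agent.Lib.MP_1b6faf_co.H8
open scoped Classical

variable {x : Par}

lemma Tstep (h3 : HIII x) {i : ℕ} (hi : i < x.k) : ((i : ℝ) + 1) * Z x.q (x.N + 1) (i + 1)
    ≤ (x.Δ - (i + 1) * (x.a + 1) + 4000) * Z x.q (x.N + 1) i := by
  rcases i with _ | i
  · rw [Z_one', Z_zero, x.ΔR]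
    push_cast
    linarith
  have e : x.q - 1 + 1 = x.q := Nat.sub_add_cancel (by have := x.hq; omega)
  have h1 := Zrec2 (q := x.q - 1) (a := x.a) (r := x.r + 1) (by have := x.hr; omega) i
  have e' : ((x.q - 1 : ℕ) : ℝ) + 1 = x.q := by exact_mod_cast e
  rw [e, e', ← add_assoc] at h1
  change _ * Z x.q (x.N + 1) _ = _ * Z x.q (x.N + 1) _ + _ at h1
  have h2 := Z_mono (x.q - 1) i (show (x.q - 1) * x.a + (x.r + 1) ≤ x.Δ by
    have := Nat.mul_le_mul_right x.a (show x.q - 1 ≤ x.q + 1 by omega)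
    rw [x.Δ_eq]; omega)
  have h4 := (star x i).trans (mul_le_mul_of_nonneg_left (Z_succ_le x.q x.N (i + 1)) (by positivity))
  have hi' : (i : ℝ) + 1 ≤ x.k + 1 := by exact_mod_cast (by omega)
  have hΓ : 0 < x.Γ := by linarith [x.aΓ, x.a1]
  have h5 : ((i : ℝ) + 1) * x.Γ ≤ 41 * x.Δ := (mul_le_mul_of_nonneg_right hi' hΓ.le).trans h3.hk2
  have hT := Z_nonneg x.q (x.N + 1) (i + 1)
  have h6 : x.Γ * Z (x.q - 1) x.Δ i ≤ 3321 * Z x.q (x.N + 1) (i + 1) := by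
    refine le_of_mul_le_mul_left ?_ x.Δpos
    nlinarith [mul_le_mul_of_nonneg_left h4 hΓ.le, mul_le_mul_of_nonneg_right h5 hT]
  have h7 : ((x.q : ℝ) - (x.r + 1 : ℕ)) * x.a * Z (x.q - 1) ((x.q - 1) * x.a + (x.r + 1)) i
      ≤ x.Γ * Z (x.q - 1) x.Δ i := mul_le_mul (by
    unfold Par.Γ
    push_cast
    nlinarith [x.a1]) h2 (Z_nonneg _ _ _) hΓ.le
  have h8 : (x.Δ : ℝ) = x.q * x.a + (x.r + 1 : ℕ) + x.a := by rw [x.Δ_eq]; push_cast; ring
  rw [h8]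
  push_cast at h1 h7 ⊢
  rw [show (i : ℝ) + 1 + 1 = i + 2 by ring, h1]
  nlinarith

theorem numM (h3 : HIII x) (c : ℕ → ℝ) (h1 : c 1 ≤ x.Δ)
    (hs : ∀ i < x.k, ((i : ℝ) + 2) * c (i + 2)
      ≤ (x.Δ - (i + 1) * (x.a + 1)) * c (i + 1) + 3 / 5 * x.Γ * Z x.q (x.N + 1) i) :
    c (x.k + 1) ≤ x.P - 4 * x.D := by
  have hΓ : 0 < x.Γ := by linarith [x.aΓ, x.a1]
  have hΔ := x.Δpos
  have key : ∀ i ≤ x.k, 3 / 20 * i * x.Γ * Z x.q (x.N + 1) i
      ≤ x.Δ * (Z (x.q + 1) x.Δ (i + 1) - c (i + 1)) := fun i hi => by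
    induction i with
    | zero =>
      rw [Z_one]
      simpa using mul_nonneg hΔ.le (sub_nonneg.2 h1)
    | succ i ih =>
      have a1 := ih (by omega)
      have a2 := hs i hi
      have a3 := Zrec2 (q := x.q) (a := x.a) (r := x.r + 1) (by have := x.hr; omega) i
      have e : ((x.q : ℝ) + 1) * x.a + (x.r + 1 : ℕ) = x.Δ := by rw [x.Δ_eq]; push_cast; ring
      have e2 : ((x.q : ℝ) + 1 - (x.r + 1 : ℕ)) * x.a = x.Γ := by unfold Par.Γ; push_cast; ring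
      rw [← x.Δ_eq, e, e2, ← add_assoc] at a3
      change _ = _ + _ * Z x.q (x.N + 1) i at a3
      have a4 := Tstep h3 hi
      have hi' : (i : ℝ) + 2 ≤ x.k + 1 := by exact_mod_cast (by omega)
      have a5 : ((i : ℝ) + 2) * 10 ^ 10 * x.a ≤ 41 * x.Δ := by
        nlinarith [mul_le_mul_of_nonneg_right hi' hΓ.le, h3.hk2,
          mul_le_mul_of_nonneg_left h3.hg (show (0 : ℝ) ≤ i + 2 by positivity)]
      have a6 : ((i : ℝ) + 2) ≤ (i + 2) * x.a := le_mul_of_one_le_right (by positivity) x.a1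
      have a7 : 0 ≤ (x.Δ : ℝ) - (i + 1) * (x.a + 1) := by nlinarith [x.a1]
      have a8 : (x.Δ : ℝ) - (i + 1) * (x.a + 1) ≤ x.Δ := sub_le_self _ (by positivity)
      have hT := Z_nonneg x.q (x.N + 1) i
      push_cast
      refine le_of_mul_le_mul_left ?_ (show (0 : ℝ) < i + 2 by positivity)
      generalize (x.Δ : ℝ) - (i + 1) * (x.a + 1) = ρ at *
      have b1 := mul_le_mul_of_nonneg_left a1 a7
      have b2 := mul_le_mul_of_nonneg_left a4 (show (0 : ℝ) ≤ 3 / 20 * (i + 2) * x.Γ by positivity)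
      have b3 := mul_le_mul_of_nonneg_left a2 hΔ.le
      have b4 := mul_le_mul_of_nonneg_right (show 3 / 20 * (i + 2) * (ρ + 4000)
        ≤ 3 / 20 * i * ρ + 2 / 5 * x.Δ by nlinarith) (mul_nonneg hΓ.le hT)
      have b5 := congrArg ((x.Δ : ℝ) * ·) a3
      rw [show i + 1 + 1 = i + 2 from rfl]
      linarith
  have a1 := key x.k le_rfl
  have a2 : x.D ≤ Z x.q (x.N + 1) x.k := Z_succ_le _ _ _
  have a3 := mul_le_mul h3.hk1 a2 x.Dpos.le (by positivity)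
  change _ ≤ _ * (x.P - _) at a1
  refine le_of_mul_le_mul_left ?_ hΔ
  nlinarith [mul_pos hΔ x.Dpos]

end Pool.Agent.Lib.MP_1b6faf_co.Un
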