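import Pool.Agent.Lib.MP_1b6faf_co.Un.ZA

/-!
The rival graph with one more vertex.
-/

namespace Pool.Agent.Lib.MP_1b6faf_co.Un

open Finset Pool.Agent.Lib.MP_1b6faf_co.H8
open scoped Classical

theorem better_gen {q a r : ℕ} (ha : 1 ≤ a) (σ : ℕ → ℕ)
    (hσ : ∀ u < q * a, σ u ≤ q * a ∧ cfn q a r (σ u) ≠ cfn q a r u) (Lo : ℝ)
    (hLo : ∑ e ∈ mis (gr q a r σ) (cfn q a r) (range (q * a + (r + 1) * (a + 1))),
      ((nb (mp (cfn q a r)) e.1 (nb (mp (cfn q a r)) e.2
        (range (q * a + (r + 1) * (a + 1))))).card : ℝ) ≤ Lo) :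
    ∃ (G : SimpleGraph ℕ) (S : Finset ℕ), Wit (q + r) a r G S ∧
      S.card = (q + r + 1) * a + (r + 1) ∧ ebal 3 (q + r + 1) a (r + 1) - Lo ≤ kc G 3 S := by
  set S := range (q * a + (r + 1) * (a + 1)) with hS
  have hprop : Proper (gr q a r σ) (cfn q a r) S := fun x _ y _ h => h.1
  have hcard : S.card = (q + r + 1) * a + (r + 1) := by rw [hS, card_range]; ring
  refine ⟨gr q a r σ, S, ⟨nonempty_range_iff.2 (by positivity), fun x hx => ?_,
    CF_of_proper hprop (fun x _ => cfn_lt q a r x)⟩, hcard, ?_⟩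
  · have h1 := deg_le hprop hx
    rw [hcard, add_mul] at h1
    by_cases c : x < q * a
    · rw [hS, part_small a r (cfn_small c), ← hS] at h1
      have : 0 < (mx (gr q a r σ) (cfn q a r) S x).card := card_pos.2 ⟨σ x, mem_mx.2
        ⟨mem_range.2 (by have := (hσ x c).1; nlinarith), (hσ x c).2, fun h => h.2.1 ⟨c, rfl⟩⟩⟩
      omega
    · rw [hS, part_large a r (cfn_large c).1 (cfn_large c).2, ← hS] at h1
      omega
  · have h1 := kc_lower (gr q a r σ) (cfn q a r) S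
    have hm : ∀ x ∈ S, cfn q a r x ∈ range (q + r + 1) := fun x _ => mem_range.2 (cfn_lt q a r x)
    rw [kc_mp _ 3 S (range (q + r + 1)) hm, es_two_val 3 (q + r + 1) a (r + 1) (by omega) _
      (fun i hi => by
        by_cases c : i < q
        · exact Or.inl (part_small a r c)
        · exact Or.inr (part_large a r (by omega) (mem_range.1 hi)))
      (by rw [← hcard]; exact (card_eq_sum_parts hm).symm)] at h1
    linarith

theorem match_gen {q a r : ℕ} (ha : 1 ≤ a) (hq : 2 ≤ q) :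
    ∃ (G : SimpleGraph ℕ) (S : Finset ℕ), Wit (q + r) a r G S ∧
      S.card = (q + r + 1) * a + (r + 1) ∧ ebal 3 (q + r + 1) a (r + 1)
        - (q * a + (q * a % 2 : ℕ)) * ((q + r - 1) * a + r + 1) / 2 ≤ kc G 3 S := by
  set σ : ℕ → ℕ := fun u => if u % 2 = 0 then u + 1 else u - 1 with hσ
  have hmod : ∀ u, (u + 1) % q ≠ u % q := fun u h => by
    have := (Nat.modEq_iff_dvd' (Nat.le_succ u)).1 h.symm
    rw [Nat.succ_sub (le_refl u), Nat.sub_self] at this
    have := Nat.le_of_dvd (by norm_num) this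
    omega
  refine better_gen ha σ (fun u hu => ?_)
    ((q * a + (q * a % 2 : ℕ)) * ((q + r - 1) * a + r + 1) / 2) ?_
  · simp only [hσ]
    split_ifs with c
    · refine ⟨by omega, ?_⟩
      by_cases d : u + 1 < q * a
      · unfold cfn; rw [if_pos d, if_pos hu]; exact hmod u
      · have := cfn_small (r := r) hu
        have := (cfn_large (r := r) d).1
        omega
    · refine ⟨by omega, ?_⟩
      unfold cfn; rw [if_pos hu, if_pos (by omega)]
      have := hmod (u - 1)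
      rw [Nat.sub_add_cancel (by omega)] at this
      exact this.symm
  · set S := range (q * a + (r + 1) * (a + 1)) with hS
    have h1 : ∀ x ∈ S, ((mx (gr q a r σ) (cfn q a r) S x).card : ℝ)
        ≤ if x < q * a + q * a % 2 then 1 else 0 := by
      intro x _
      have key : ∀ y ∈ mx (gr q a r σ) (cfn q a r) S x, y = σ x ∧ x < q * a + q * a % 2 := by
        intro y hy
        obtain ⟨_, c1, c2⟩ := mem_mx.1 hy
        have c3 : (x < q * a ∧ y = σ x) ∨ (y < q * a ∧ x = σ y) := by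
          by_contra d
          push Not at d
          exact c2 ⟨c1.symm, fun e => d.1 e.1 e.2, fun e => d.2 e.1 e.2⟩
        simp only [hσ] at c3 ⊢
        split_ifs at c3 ⊢ <;> omega
      split_ifs with c
      · have := card_le_card (show mx (gr q a r σ) (cfn q a r) S x ⊆ {σ x} from
          fun y hy => mem_singleton.2 (key y hy).1)
        exact_mod_cast this
      · rw [eq_empty_of_forall_notMem (fun y hy => c (key y hy).2)]; simp
    have h2 := sum_le_sum h1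
    rw [sum_card_mx, ← sum_filter, sum_const, nsmul_eq_mul, mul_one] at h2
    have h3 : (S.filter (fun x => x < q * a + q * a % 2)).card ≤ q * a + q * a % 2 := by
      conv_rhs => rw [← card_range (q * a + q * a % 2)]
      exact card_le_card fun x hx => mem_range.2 (mem_filter.1 hx).2
    have h3' : ((S.filter (fun x => x < q * a + q * a % 2)).card : ℝ) ≤ q * a + (q * a % 2 : ℕ) := by
      exact_mod_cast h3
    have hpa : ∀ x, a ≤ (part S (cfn q a r) (cfn q a r x)).card := fun x => by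
      by_cases c : x < q * a
      · rw [hS, part_small a r (cfn_small c)]
      · rw [hS, part_large a r (cfn_large c).1 (cfn_large c).2]; omega
    have h4 := sum_le_card_nsmul (mis (gr q a r σ) (cfn q a r) S) (fun e =>
      ((nb (mp (cfn q a r)) e.1 (nb (mp (cfn q a r)) e.2 S)).card : ℝ)) ((q + r - 1) * a + r + 1)
      (fun e he => by
        have b1 := codeg_le S (mem_mis.1 he).2.2.1.ne
        have b2 := hpa e.1
        have b3 := hpa e.2
        have b4 : (nb (mp (cfn q a r)) e.1 (nb (mp (cfn q a r)) e.2 S)).card + a + a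
            ≤ q * a + (r + 1) * (a + 1) := by
          rw [hS, card_range, ← hS] at b1; omega
        have b5 : ((nb (mp (cfn q a r)) e.1 (nb (mp (cfn q a r)) e.2 S)).card : ℝ) + a + a
            ≤ q * a + (r + 1) * (a + 1) := by exact_mod_cast b4
        linarith)
    rw [nsmul_eq_mul] at h4
    have hq' : (2 : ℝ) ≤ q := by exact_mod_cast hq
    have h5 : (0 : ℝ) ≤ (q + r - 1) * a + r + 1 := by
      have : (0 : ℝ) ≤ q + r - 1 := by linarith [Nat.cast_nonneg (α := ℝ) r]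
      positivity
    have h6 := mul_le_mul_of_nonneg_right (h2.trans h3') h5
    linarith

theorem rival1 (x : Par) (hq : x.r + 2 ≤ x.q) : ∃ (G : SimpleGraph ℕ) (S : Finset ℕ),
    Wit (x.q + 1) x.a (x.r + 1) G S ∧ S.card * (x.P2 - x.Γ / 2 - 3) ≤ 3 * kc G 3 S := by
  obtain ⟨d, hd⟩ : ∃ d, x.q = d + x.r := ⟨x.q - x.r, by omega⟩
  obtain ⟨G, S, hW, hc, hk⟩ := match_gen (q := d) (r := x.r + 1) x.ha (by omega)
  have e1 : d + (x.r + 1) = x.q + 1 := by omega
  rw [e1] at hW hc hk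
  refine ⟨G, S, hW, ?_⟩
  have h1 := Z_double (q := x.q + 1) (a := x.a) (r := x.r + 1 + 1) (by omega) 2
  have h2 := Z_rec' (q := x.q) (a := x.a) (r := x.r + 1) (by omega) 1
  obtain ⟨m, hm⟩ : ∃ m, x.q = m + 1 := ⟨x.q - 1, by omega⟩
  have h3 : Z x.q (x.q * x.a + (x.r + 1)) 1 = (x.q * x.a + (x.r + 1) : ℕ) := by
    rw [hm]
    exact Z_one _ _
  rw [Z_eq (by omega), show (x.q + 1) * x.a + (x.r + 1 + 1) - 1 = x.Δ by rw [x.Δ_eq]; omega,
    show (x.q + 1) * x.a + (x.r + 1 + 1) = (x.q + 1) * x.a + (x.r + 1) + 1 by omega, h2, h3,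
    ← x.Δ_eq] at h1
  change _ = _ * x.P2 + _ * (x.P2 + _) at h1
  have hdR : (x.q : ℝ) = d + x.r := by exact_mod_cast hd
  have hp : ((d * x.a % 2 : ℕ) : ℝ) ≤ 1 := by
    have : d * x.a % 2 ≤ 1 := by omega
    exact_mod_cast this
  have hp0 : (0 : ℝ) ≤ ((d * x.a % 2 : ℕ) : ℝ) := Nat.cast_nonneg _
  generalize ((d * x.a % 2 : ℕ) : ℝ) = p at hk hp hp0
  have ha := x.a1
  have hd0 : (0 : ℝ) ≤ d := Nat.cast_nonneg _
  have hr0 : (0 : ℝ) ≤ x.r := Nat.cast_nonneg _
  rw [hc, Par.Γ]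
  push_cast at h1 hk ⊢
  rw [hdR] at h1 ⊢
  have b1 : p * ((d + (x.r + 1) - 1) * x.a + (x.r + 1) + 1)
      ≤ (d + (x.r + 1) - 1) * x.a + (x.r + 1) + 1 := by
    have : (0 : ℝ) ≤ (d + (x.r + 1) - 1) * x.a + (x.r + 1) + 1 := by
      have : (0 : ℝ) ≤ d + (x.r + 1) - 1 := by linarith
      positivity
    exact mul_le_of_le_one_left this hp
  have b2 : (0 : ℝ) ≤ d * x.a * (x.a - 1) := by
    have : (0 : ℝ) ≤ x.a - 1 := by linarith
    positivity
  have b3 : (0 : ℝ) ≤ d * x.a := by positivity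
  have b4 : (0 : ℝ) ≤ x.r * x.a := by positivity
  linarith

theorem rival2 {s a r : ℕ} (ha : 1 ≤ a) (hs : 10 ≤ s) (hr : r + 2 ≤ s)
    (hc : s * a + r + 3 + 3 * (a * (s - r) % 2) ≤ 3 * (r * (a + 1))) :
    ∃ (G : SimpleGraph ℕ) (S : Finset ℕ), Wit s a r G S ∧ rho s 0 a r * S.card < kc G 3 S := by
  obtain ⟨q, rfl⟩ : ∃ q, s = q + r := ⟨s - r, by omega⟩
  rw [Nat.add_sub_cancel, mul_comm a q] at hc
  obtain ⟨r, rfl⟩ : ∃ r', r = r' + 1 := ⟨r - 1, by
    rcases Nat.eq_zero_or_pos r with c | c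
    · subst c
      omega
    · omega⟩
  refine better_match ha (by omega) ?_
  obtain ⟨m, hm⟩ : ∃ m, q + r = m + 1 := ⟨q + r - 1, by omega⟩
  have h1 := Z_double (q := q + r + 1) (a := a) (r := r + 1) (by omega) 2
  have h2 := Z_rec' (q := q + r) (a := a) (r := r) (by omega) 1
  have h3 := Z_double (q := q + r) (a := a) (r := r + 1) (by omega) 1
  have h4 : ∀ N, Z (q + r) N 1 = N := fun N => by
    rw [hm]
    exact Z_one _ _
  rw [Z_eq (by omega), show (q + r + 1) * a + (r + 1) - 1 = (q + r + 1) * a + r by omega] at h1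
  rw [h4, h4, show (q + r) * a + (r + 1) - 1 = (q + r) * a + r by omega] at h3
  rw [h4, add_assoc ((q + r + 1) * a)] at h2
  have hcR : ((q : ℝ) + (r + 1)) * a + (r + 1) + 3 + 3 * ((q * a % 2 : ℕ) : ℝ)
      ≤ 3 * ((r + 1) * (a + 1)) := by exact_mod_cast hc
  have hp : ((q * a % 2 : ℕ) : ℝ) ≤ 1 := by
    have : q * a % 2 ≤ 1 := by omega
    exact_mod_cast this
  have hp0 : (0 : ℝ) ≤ ((q * a % 2 : ℕ) : ℝ) := Nat.cast_nonneg _
  have haR : (1 : ℝ) ≤ a := by exact_mod_cast ha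
  have hsR : (10 : ℝ) ≤ q + (r + 1) := by exact_mod_cast hs
  have hr0 : (0 : ℝ) ≤ r := Nat.cast_nonneg _
  have hq0 : (0 : ℝ) ≤ q := Nat.cast_nonneg _
  unfold rho
  rw [show q + (r + 1) + 1 = q + r + 1 + 1 by omega, show 0 + 3 = 2 + 1 by omega]
  generalize ((q * a % 2 : ℕ) : ℝ) = p at hcR hp hp0 ⊢
  generalize ebal (2 + 1) (q + r + 1 + 1) a (r + 1) = e at h1 ⊢
  generalize Z (q + r + 1) ((q + r + 1) * a + (r + 1)) (1 + 1) = P at h1 h2 h3
  generalize Z (q + r + 1) ((q + r + 1) * a + r) (1 + 1) = P' at h1 h2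
  push_cast at h1 h2 h3 ⊢
  obtain ⟨N, hN⟩ : ∃ N : ℝ, N = (q + r) * a + r := ⟨_, rfl⟩
  obtain ⟨n, hn⟩ : ∃ n : ℝ, n = (q + (r + 1) + 1) * a + (r + 1) := ⟨_, rfl⟩
  obtain ⟨X, hX⟩ : ∃ X : ℝ, X = (r + 1) * (a + 1) := ⟨_, rfl⟩
  have hnN : n = N + 2 * a + 1 := by rw [hn, hN]; ring
  have hN9 : 9 * a ≤ N := by
    have := mul_le_mul_of_nonneg_right (show (9 : ℝ) ≤ q + r by linarith) (zero_le_one.trans haR)
    rw [hN]
    linarith
  have hnpos : 0 < n := by linarith
  have e1 : 3 * e = n * P - X * N := by rw [hn, hX, hN]; rw [h2] at h1 ⊢; linarith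
  have e2 : 2 * P = (N + a + 1) * N + (N + a + 1 - X) := by rw [hX, hN]; linarith
  have e3 : N + a + 1 + 3 + 3 * p ≤ 3 * X := by rw [hX, hN]; linarith
  have e4 : (q : ℝ) * a = N + a + 1 - X := by rw [hX, hN]; ring
  have e5 : ((q : ℝ) + (r + 1) - 1) * a + (r + 1) + 1 = N + 2 := by rw [hN]; ring
  have e6 : (((q : ℝ) + (r + 1)) * a + (r + 1)) ^ 2 - ((q + (r + 1)) * a ^ 2 + 2 * (r + 1) * a + (r + 1))
      = 2 * P := by rw [e2, hX, hN]; ring
  rw [e6, e5, e4, ← hn]
  have e7 : e / n = P / 3 - X * N / (3 * n) := by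
    field_simp
    linarith
  rw [e7]
  clear e1 e4 e5 e6 e7 h1 h2 h3 h4 hcR hN hn hX hsR
  have hN0 : 0 ≤ N := by linarith
  have k1 : 8 * (N + a + 1) * n ≤ 9 * N * n + 2 * (N + a + 1) * N := by
    have c1 := mul_le_mul_of_nonneg_right hN9 hN0
    have c2 := mul_le_mul_of_nonneg_right haR hN0
    have c3 := mul_le_mul_of_nonneg_right hN9 (zero_le_one.trans haR)
    have c4 := mul_le_mul_of_nonneg_right haR (zero_le_one.trans haR)
    rw [hnN]
    linarith
  have k2 := mul_le_mul_of_nonneg_right (show (N + a + 1 : ℝ) ≤ 3 * X by linarith) hN0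
  have k3 : 8 * (N + a + 1) - 9 * N ≤ 18 * (X * N / (3 * n)) := by
    rw [← mul_div_assoc, le_div_iff₀ (by positivity)]
    linarith
  have k4 : 0 ≤ (3 * X - (N + a + 1) - 3 - 3 * p) * N := mul_nonneg (by linarith) hN0
  linarith

end Pool.Agent.Lib.MP_1b6faf_co.Un
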