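import Pool.Agent.Lib.MP_1b6faf_co.H8Main
import Pool.Agent.Lib.MP_1b6faf_co.Un.IE
import Pool.Agent.Lib.MP_1b6faf_co.Un.IIE
import Pool.Agent.Lib.MP_1b6faf_co.Un.IIIE
import Pool.Agent.Lib.MP_1b6faf_co.Un.Riv

/-!
The two directions, uniformly in the quotient.
-/

namespace Pool.Agent.Lib.MP_1b6faf_co.Un

open Finset Pool.Agent.Lib.MP_1b6faf_co.H8
open scoped Classical

lemma J_eq (x : Par) : x.J = (x.k + 1) * (x.k + 2) / 2 := rfl

lemma pow25 (k : ℕ) : (((k + 2 : ℕ) : ℝ) + 2) * (2 / 5) ^ (k + 2) ≤ 16 / 25 := by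
  induction k with
  | zero => norm_num
  | succ k ih =>
    rw [show k + 1 + 2 = k + 2 + 1 by ring, pow_succ]
    push_cast at ih ⊢
    nlinarith [pow_pos (show (0 : ℝ) < 2 / 5 by norm_num) (k + 2),
      mul_nonneg (Nat.cast_nonneg (α := ℝ) k) (pow_pos (show (0 : ℝ) < 2 / 5 by norm_num) (k + 2)).le]

lemma hI_pos (x : Par) (hk : (x.k : ℝ) ≤ 10 ^ 45) (h : 3 * x.xr + 10 ^ 250 * x.a ≤ x.Δ) :
    ∃ β, HI x (10 ^ 240 * x.a) β := by
  have ha := x.a1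
  have hΔ := x.Δpos
  have hx := x.xr_pos
  have hE : 10 ^ 7 * ((x.k : ℝ) + 1) ^ 5 * (x.a + 1) ≤ 10 ^ 240 * x.a := by
    have a1 : ((x.k : ℝ) + 1) ^ 5 ≤ (10 ^ 46) ^ 5 :=
      pow_le_pow_left₀ (by positivity) (by linarith) 5
    nlinarith [mul_le_mul a1 (show (x.a : ℝ) + 1 ≤ 2 * x.a by linarith) (by positivity)
      (by positivity)]
  obtain ⟨e, he⟩ : ∃ e, 10 ^ 240 * (x.a : ℝ) = e * x.Δ := ⟨_, (div_mul_cancel₀ _ hΔ.ne').symm⟩
  have e1 : e ≤ 1 / 2000 := le_of_mul_le_mul_right (by linarith) hΔ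
  have e2 : 10 ^ 240 * (x.a : ℝ) / x.Δ = e := by rw [he, mul_div_cancel_right₀ _ hΔ.ne']
  rcases Nat.lt_or_ge x.k 2 with c | c
  · have c1 : x.k = 1 := by have := x.hk; omega
    refine ⟨(1 - e) / 3, hE, by linarith, by linarith, ?_, by linarith, ?_⟩
    · rw [e2, c1]; push_cast; linarith
    · rw [J_eq, c1]; push_cast; linarith
  · obtain ⟨k, c1⟩ : ∃ k, x.k = k + 2 := ⟨x.k - 2, by omega⟩
    have c2 : (2 : ℝ) ≤ x.k := by exact_mod_cast c
    refine ⟨2 / 5, hE, by linarith, by norm_num, ?_, by linarith, ?_⟩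
    · rw [e2, c1]; linarith [pow25 k]
    · rw [J_eq]
      nlinarith [mul_nonneg (mul_nonneg (show (0 : ℝ) ≤ x.k + 1 by positivity) (sub_nonneg.2 c2))
        hΔ.le, mul_le_mul_of_nonneg_right c2 hΔ.le]

lemma pow_small {y : ℝ} (h0 : 0 ≤ y) (h1 : y ≤ 1) (m : ℕ) : (1 - y) ^ m * (1 + m * y) ≤ 1 := by
  have a1 := one_add_mul_le_pow (show -2 ≤ y by linarith) m
  refine (mul_le_mul_of_nonneg_left a1 (pow_nonneg (by linarith) m)).trans ?_
  rw [← mul_pow]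
  exact pow_le_one₀ (by nlinarith) (by nlinarith)

lemma hI_neg (x : Par) {m : ℕ} (hm : (m : ℝ) = 10 ^ 17) (hk : x.k = m * 1000)
    (h1 : 10 ^ 250 * (x.a : ℝ) ≤ x.Γ) (h2 : x.Δ ≤ 10 ^ 16 * x.Γ) :
    HI x (10 ^ 120 * x.a) (1 - 5 / 10 ^ 17) := by
  have ha := x.a1
  have hΔ := x.Δpos
  have hx := x.xr_pos
  have hd := x.Δ_xr
  have hk' : (x.k : ℝ) = 10 ^ 20 := by rw [hk]; push_cast; rw [hm]; norm_num
  refine ⟨by rw [hk']; linarith, by linarith, by norm_num, ?_, by linarith, ?_⟩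
  · have a1 := pow_small (y := 5 / 10 ^ 17) (by norm_num) (by norm_num) m
    rw [hm] at a1
    have a2 : (1 - 5 / 10 ^ 17 : ℝ) ^ m ≤ 1 / 6 := by linarith
    have a3 := pow_le_pow_left₀ (pow_nonneg (by norm_num) m) a2 1000
    have a4 : (1 / 6 : ℝ) ^ 1000 ≤ (1 / 6) ^ 30 :=
      pow_le_pow_of_le_one (by norm_num) (by norm_num) (by norm_num)
    have a5 : 10 ^ 120 * (x.a : ℝ) / x.Δ ≤ 1 / 2 := by rw [div_le_iff₀ hΔ]; linarith
    rw [← pow_mul, ← hk] at a3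
    rw [hk']
    generalize (1 - 5 / 10 ^ 17 : ℝ) ^ x.k = z at *
    generalize (1 / 6 : ℝ) ^ 1000 = w at *
    norm_num at a4
    linarith
  · rw [J_eq, hk']
    linarith

theorem posU {s r a k : ℕ} (ha : 1 ≤ a) (hr : r < s) (hk : k + 2 ≤ s)
    (h : 3 * (r * (a + 1)) + 10 ^ 250 * a ≤ s * a + r) : UB s k a r := by
  rcases r with _ | r
  · exact ub_zero s k ha
  obtain ⟨q, rfl⟩ : ∃ q, s = q + 1 := ⟨s - 1, by omega⟩
  have hq : 3 ≤ q := by
    by_contra hc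
    have a1 := Nat.mul_le_mul_right a (show q + 1 ≤ 3 by omega)
    have a2 := Nat.mul_le_mul_right a (show 4 ≤ 10 ^ 250 by norm_num)
    have a3 := Nat.le_mul_of_pos_right (r + 1) (show 0 < a + 1 by omega)
    omega
  obtain ⟨x, rfl, rfl, rfl, h4⟩ : ∃ x : Par, x.q = q ∧ x.a = a ∧ x.r = r ∧ x.k = k + 1 :=
    ⟨⟨q, a, r, k + 1, ha, by omega, by omega, by omega, hq⟩, rfl, rfl, rfl, rfl⟩
  intro V _ _ G g1 g2
  let _ := Fintype.ofFinite V
  rw [← x.Δ_eq] at h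
  have h' : 3 * x.xr + 10 ^ 250 * x.a ≤ x.Δ := by unfold Par.xr; exact_mod_cast h
  refine (conv x h4 G).1 ?_
  rcases le_total (x.k : ℝ) (10 ^ 45) with c | c
  · obtain ⟨β, hI⟩ := hI_pos x c h'
    exact (regI (inC x g1 g2) hI).1
  · exact regII (inC x g1 g2) ⟨c, by linarith [x.a1]⟩

lemma conv_lt (x : Par) {k : ℕ} (hk : x.k = k + 1) {V : Type} [Fintype V] [Nonempty V]
    (G : SimpleGraph V)
    (h : ((x.k : ℝ) + 2) * kc G (x.k + 2) univ < (univ : Finset V).card * x.τ) :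
    ((G.cliqueSet (k + 3)).ncard : ℝ) / Nat.card V < rho (x.q + 1) k x.a (x.r + 1) := by
  have e : ((x.k + 1 : ℕ) : ℝ) + 1 = x.k + 2 := by push_cast; ring
  refine lt_of_le_of_ne ((conv x hk G).1 (by rw [e]; exact h.le)) fun c => ?_
  have := (conv x hk G).2.1 c
  rw [e] at this
  exact h.ne this

theorem negU {s r a : ℕ} (ha : 1 ≤ a) (hr : r + 10 ^ 250 ≤ s)
    (hc : s * a + r + 3 + 3 * (a * (s - r) % 2) ≤ 3 * (r * (a + 1))) :
    ∃ k, k + 2 ≤ s ∧ ∃ (G' : SimpleGraph ℕ) (S' : Finset ℕ), Wit s a r G' S' ∧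
      ∀ (V : Type) [Finite V] [Nonempty V] (G : SimpleGraph V),
        (∀ v, (G.neighborSet v).ncard ≤ s * a + r) → G.CliqueFree (s + 1 + 1) →
        kc G' 3 S' / S'.card ≤ ((G.cliqueSet 3).ncard : ℝ) / Nat.card V →
        ((G.cliqueSet (k + 3)).ncard : ℝ) / Nat.card V < rho s k a r := by
  obtain ⟨m, hm⟩ : ∃ m : ℕ, m = 10 ^ 17 := ⟨_, rfl⟩
  have hm' : (m : ℝ) = 10 ^ 17 := by rw [hm]; norm_num
  have hr' : (r : ℝ) + 10 ^ 250 ≤ s := by exact_mod_cast hr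
  have hs : r + m * 1000 + 10 ≤ s := by
    have : (r : ℝ) + m * 1000 + 10 ≤ s := by linarith
    exact_mod_cast this
  have hm0 : 0 < m := by rw [hm]; positivity
  clear hr hm
  rcases r with _ | r
  · omega
  obtain ⟨q, rfl⟩ : ∃ q, s = q + 1 := ⟨s - 1, by omega⟩
  have ha' : (1 : ℝ) ≤ a := by exact_mod_cast ha
  push_cast at hr'
  have hΓ : 10 ^ 250 * (a : ℝ) ≤ (q - r) * a := mul_le_mul_of_nonneg_right (by linarith) (by linarith)
  rcases le_total (((q + 1) * a + (r + 1) : ℕ) : ℝ) (10 ^ 16 * ((q - r) * a)) with c | c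
  · obtain ⟨G', S', hW, hG⟩ := rival2 ha (by omega) (by omega) hc
    obtain ⟨k, hk⟩ : ∃ k, m * 1000 = k + 1 := ⟨m * 1000 - 1, by omega⟩
    obtain ⟨x, rfl, rfl, rfl, h4⟩ : ∃ x : Par, x.q = q ∧ x.a = a ∧ x.r = r ∧ x.k = k + 1 :=
      ⟨⟨q, a, r, k + 1, ha, by omega, by omega, by omega, by omega⟩, rfl, rfl, rfl, rfl⟩
    refine ⟨k, by omega, G', S', hW, fun V _ _ G g1 g2 g3 => ?_⟩
    let _ := Fintype.ofFinite V
    rw [← x.Δ_eq] at c
    have h5 := regI (inC x g1 g2) (hI_neg x hm' (h4.trans hk.symm) hΓ c)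
    refine lt_of_le_of_ne ((conv x h4 G).1 h5.1) fun e => ?_
    have h6 := (conv x h4 G).2.2 (h5.2 ((conv x h4 G).2.1 e))
    have hn : (0 : ℝ) < S'.card := by exact_mod_cast card_pos.2 hW.1
    exact absurd ((div_le_iff₀ hn).1 (g3.trans h6)) (not_le.2 hG)
  · obtain ⟨Γ, hΓe⟩ : ∃ Γ : ℝ, Γ = (q - r) * a := ⟨_, rfl⟩
    obtain ⟨D, hD⟩ : ∃ D : ℝ, D = ((q + 1) * a + (r + 1) : ℕ) := ⟨_, rfl⟩
    rw [← hΓe] at hΓ
    rw [← hΓe, ← hD] at c
    have g0 : 0 < Γ := by linarith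
    have k1 : 40 * D ≤ ⌈40 * D / Γ⌉₊ * Γ := (div_le_iff₀ g0).1 (Nat.le_ceil _)
    have k2 : (⌈40 * D / Γ⌉₊ - 1) * Γ < 40 * D := (lt_div_iff₀ g0).1 (by
      linarith [Nat.ceil_lt_add_one (show 0 ≤ 40 * D / Γ from div_nonneg (by linarith) g0.le)])
    generalize ⌈40 * D / Γ⌉₊ = K at k1 k2
    have k3 : 1 ≤ K := Nat.pos_of_ne_zero (by
      rintro rfl
      push_cast at k1
      linarith)
    have k4 : K ≤ q := by
      have b1 : (r : ℝ) ≤ q := by linarith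
      have b2 : (10 : ℝ) ≤ q := by linarith [Nat.cast_nonneg (α := ℝ) r]
      have b3 : D ≤ 3 * (q * a) := by
        rw [hD]; push_cast
        nlinarith [mul_le_mul_of_nonneg_left ha' (Nat.cast_nonneg (α := ℝ) q)]
      have b4 := mul_le_mul_of_nonneg_left hΓ (Nat.cast_nonneg (α := ℝ) q)
      have : (K : ℝ) ≤ q := le_of_mul_le_mul_right (by
        nlinarith [mul_nonneg (Nat.cast_nonneg (α := ℝ) q) (Nat.cast_nonneg (α := ℝ) a)]) g0
      exact_mod_cast this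
    obtain ⟨k, rfl⟩ : ∃ k, K = k + 1 := ⟨K - 1, by omega⟩
    obtain ⟨x, rfl, rfl, rfl, h4⟩ : ∃ x : Par, x.q = q ∧ x.a = a ∧ x.r = r ∧ x.k = k + 1 :=
      ⟨⟨q, a, r, k + 1, ha, by omega, by omega, by omega, by omega⟩, rfl, rfl, rfl, rfl⟩
    rw [← x.Δ_eq] at hD
    rw [← h4] at k1 k2
    change Γ = x.Γ at hΓe
    subst hD hΓe
    obtain ⟨G', S', hW, hG⟩ := rival1 x (by omega)
    refine ⟨k, by omega, G', S', hW, fun V _ _ G g1 g2 g3 => ?_⟩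
    let _ := Fintype.ofFinite V
    refine conv_lt x h4 G (regIII (inC x g1 g2) ⟨c, by linarith, k1, by linarith⟩ ?_)
    have hn : (0 : ℝ) < S'.card := by exact_mod_cast card_pos.2 hW.1
    have hn' : (0 : ℝ) < (univ : Finset V).card := by exact_mod_cast card_pos.2 univ_nonempty
    rw [ncard_clique, Nat.card_eq_fintype_card, ← card_univ, div_le_div_iff₀ hn hn'] at g3
    refine le_of_mul_le_mul_right ?_ hn
    have b1 := mul_le_mul_of_nonneg_left (show x.P2 - 51 / 100 * x.Γ ≤ x.P2 - x.Γ / 2 - 3 by linarith)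
      hn.le
    nlinarith [mul_le_mul_of_nonneg_left (b1.trans hG) hn'.le]

lemma densk_le {V : Type} [Finite V] [Nonempty V] (G : SimpleGraph V) {D : ℕ} (t : ℕ)
    (h : ∀ v, (G.neighborSet v).ncard ≤ D) :
    ((G.cliqueSet (t + 1)).ncard : ℝ) / (Nat.card V : ℝ) ≤ (D : ℝ) ^ t := by
  let _ := Fintype.ofFinite V
  have hn : (0 : ℝ) < (univ : Finset V).card := by exact_mod_cast card_pos.2 univ_nonempty
  rw [ncard_clique, Nat.card_eq_fintype_card, ← card_univ, div_le_iff₀ hn]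
  have h1 := kc_succ (G := G) t univ
  have h2 := sum_le_card_nsmul univ (fun x => kc G t (nb G x univ)) ((D : ℝ) ^ t) (fun x _ =>
    (kc_le_pow t _).trans (pow_le_pow_left₀ (Nat.cast_nonneg _)
      (by exact_mod_cast ncard_nbr G x ▸ h x) t))
  rw [nsmul_eq_mul] at h2
  nlinarith [mul_nonneg (Nat.cast_nonneg (α := ℝ) t) (kc_nonneg (G := G) (t + 1) univ)]

end Pool.Agent.Lib.MP_1b6faf_co.Un
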