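import Pool.Agent.Lib.MP_1b6faf_co.Un.Defs

/-!
Inequalities for clique numbers of Turan graphs that are uniform in the part size.
-/

namespace Pool.Agent.Lib.MP_1b6faf_co.Un

open Finset Pool.Agent.Lib.MP_1b6faf_co.H8
open scoped Classical

lemma Zstep {q N m : ℕ} (hm : 1 ≤ m) (h : q * m ≤ N) (j : ℕ) :
    (m : ℝ) * Z q (N + 1) j ≤ (m + 1) * Z q N j := by
  rcases j with _ | j
  · simp
  rcases q with _ | q
  · simp [Z_nil]
  obtain ⟨a, r, hr, rfl⟩ := decomp q N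
  have ha : m ≤ a := by
    by_contra hc
    have := Nat.mul_le_mul_left (q + 1) (Nat.succ_le_of_lt (not_le.1 hc))
    rw [Nat.mul_succ] at this
    omega
  have ha' : (m : ℝ) ≤ a := by exact_mod_cast ha
  have h1 := link_le (a := a) hr j
  rw [Z_rec' hr]
  nlinarith [mul_le_mul_of_nonneg_right ha' (Z_nonneg q (q * a + r) j)]

lemma Z9 {q N m i : ℕ} (hm : 1 ≤ m) (h : q * m ≤ N) (hi : i ≤ 2 * m) (j : ℕ) :
    Z q (N + i) j ≤ 9 * Z q N j := by
  have hm' : (0 : ℝ) < m := by exact_mod_cast hm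
  have h1 : ∀ i, Z q (N + i) j ≤ (1 + 1 / m) ^ i * Z q N j := fun i => by
    induction i with
    | zero => simp
    | succ i ih =>
      have a1 := Zstep (q := q) (N := N + i) hm (by omega) j
      have a2 : Z q (N + i + 1) j ≤ (1 + 1 / m) * Z q (N + i) j := by
        refine le_of_mul_le_mul_left ?_ hm'
        rw [← mul_assoc, mul_add, mul_one, mul_one_div_cancel hm'.ne']
        exact a1
      rw [← add_assoc, pow_succ', mul_assoc]
      exact a2.trans (mul_le_mul_of_nonneg_left ih (by positivity))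
  have h2 : (1 + 1 / m : ℝ) ^ m ≤ 3 := by
    have a1 : (1 + 1 / m : ℝ) ≤ Real.exp (1 / m) := by linarith [Real.add_one_le_exp (1 / m : ℝ)]
    have a2 := pow_le_pow_left₀ (by positivity) a1 m
    rw [← Real.exp_nat_mul, mul_one_div_cancel hm'.ne'] at a2
    linarith [Real.exp_one_lt_d9]
  have h3 : (1 + 1 / m : ℝ) ^ (2 * m) ≤ 9 := by
    rw [mul_comm, pow_mul]
    exact (pow_le_pow_left₀ (by positivity) h2 2).trans (by norm_num)
  exact (Z_mono q j (Nat.add_le_add_left hi N)).trans ((h1 _).trans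
    (mul_le_mul_of_nonneg_right h3 (Z_nonneg _ _ _)))

lemma Zlink {q N : ℕ} (h : q + 1 ≤ N) (j : ℕ) :
    (N : ℝ) * Z q N j ≤ 9 * (j + 1) * Z (q + 1) N (j + 1) := by
  obtain ⟨a, r, hr, rfl⟩ := decomp q N
  have ha : 1 ≤ a := by
    rcases Nat.eq_zero_or_pos a with rfl | c
    · omega
    · exact c
  have h1 := Z_double (a := a) hr.le j
  have h2 : Z q ((q + 1) * a + r) j ≤ 9 * Z q (q * a + r) j := by
    have := Z9 (q := q) (N := q * a + r) (i := a) ha (by omega) (by omega) j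
    rwa [show q * a + r + a = (q + 1) * a + r by ring] at this
  have h3 : (r : ℝ) * (a + 1) * Z q ((q + 1) * a + r) j
      ≤ r * (a + 1) * (9 * Z q (q * a + r - 1) j) := by
    rcases Nat.eq_zero_or_pos r with rfl | c
    · simp
    have := Z9 (q := q) (N := q * a + r - 1) (i := a + 1) ha (by omega) (by omega) j
    rw [show q * a + r - 1 + (a + 1) = (q + 1) * a + r by rw [add_mul]; omega] at this
    exact mul_le_mul_of_nonneg_left this (by positivity)
  have h4 : (0 : ℝ) ≤ (q + 1 - r) * a := by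
    have : (r : ℝ) ≤ q + 1 := by exact_mod_cast hr.le
    exact mul_nonneg (by linarith) (Nat.cast_nonneg _)
  rw [mul_assoc, h1]
  push_cast
  nlinarith [mul_le_mul_of_nonneg_left h2 h4]

lemma Zinc (q N j i : ℕ) :
    Z (q + 1) (N + i) (j + 1) ≤ Z (q + 1) N (j + 1) + i * Z q (N + i) j := by
  induction i with
  | zero => simp
  | succ i ih =>
    obtain ⟨a, r, hr, e⟩ := decomp q (N + i)
    have h1 := Z_rec' (a := a) hr j
    rw [← e] at h1
    have h2 := Z_mono q j (show q * a + r ≤ N + i + 1 by rw [e, add_mul]; omega)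
    have h3 := Z_succ_le q (N + i) j
    rw [← add_assoc, h1]
    push_cast
    nlinarith [mul_le_mul_of_nonneg_left h3 (Nat.cast_nonneg (α := ℝ) i)]

lemma Zlow {q N b k : ℕ} (h : N ≤ q * b) (hk : k * b ≤ N) :
    ((N : ℝ) - k * b) ^ k ≤ k.factorial * Z q N k := by
  induction k generalizing q N with
  | zero => simp
  | succ k ih =>
    have hk' : (0 : ℝ) ≤ N - (k + 1 : ℕ) * b := by
      rw [sub_nonneg]; exact_mod_cast hk
    rcases Nat.eq_zero_or_pos N with rfl | hN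
    · have : ((0 : ℕ) : ℝ) - (k + 1 : ℕ) * b = 0 := by
        have : (0 : ℝ) ≤ (k + 1 : ℕ) * b := by positivity
        push_cast at *
        linarith
      rw [this, zero_pow (by omega)]
      exact mul_nonneg (Nat.cast_nonneg _) (Z_nonneg _ _ _)
    rcases q with _ | q
    · omega
    obtain ⟨a, r, hr, rfl⟩ := decomp q N
    have hab : a ≤ b := by
      by_contra hc
      have := Nat.mul_le_mul_left (q + 1) (Nat.succ_le_of_lt (not_le.1 hc))
      rw [Nat.mul_succ] at this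
      omega
    rw [Nat.succ_mul] at hk
    have h1 := Z_double (a := a) hr.le k
    have h2 := ih (q := q) (N := (q + 1) * a + r - b) (by rw [add_mul q 1 b] at h; omega) (by omega)
    rw [Nat.cast_sub (by omega)] at h2
    have h3 := Z_mono q k (show (q + 1) * a + r - b ≤ q * a + r by rw [add_mul]; omega)
    have h4 : (r : ℝ) * (a + 1) * Z q ((q + 1) * a + r - b) k
        ≤ r * (a + 1) * Z q (q * a + r - 1) k := by
      rcases Nat.eq_zero_or_pos r with rfl | c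
      · simp
      have : a < b := by
        by_contra hc
        have := Nat.mul_le_mul_left (q + 1) (not_lt.1 hc)
        omega
      exact mul_le_mul_of_nonneg_left (Z_mono q k (by rw [add_mul]; omega)) (by positivity)
    have h5 : (0 : ℝ) ≤ (q + 1 - r) * a := by
      have : (r : ℝ) ≤ q + 1 := by exact_mod_cast hr.le
      exact mul_nonneg (by linarith) (Nat.cast_nonneg _)
    have h6 : (((q + 1) * a + r : ℕ) : ℝ) * Z q ((q + 1) * a + r - b) k
        ≤ (k + 1) * Z (q + 1) ((q + 1) * a + r) (k + 1) := by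
      rw [h1]
      push_cast
      nlinarith [mul_le_mul_of_nonneg_left h3 h5]
    generalize (((q + 1) * a + r : ℕ) : ℝ) = M at *
    rw [Nat.factorial_succ, pow_succ]
    push_cast at hk' ⊢
    rw [show M - b - k * b = M - (k + 1) * b by ring] at h2
    have h7 : (0 : ℝ) ≤ (k + 1) * b := by positivity
    have h8 := mul_le_mul h2 (show M - (k + 1) * b ≤ M by linarith) hk'
      (mul_nonneg (Nat.cast_nonneg _) (Z_nonneg _ _ _))
    nlinarith [mul_le_mul_of_nonneg_left h6 (Nat.cast_nonneg (α := ℝ) k.factorial)]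

lemma Zrec2 {q a r : ℕ} (hr : r ≤ q + 1) (k : ℕ) :
    ((k : ℝ) + 2) * Z (q + 1) ((q + 1) * a + r) (k + 2)
      = ((q + 1) * a + r - (k + 1) * (a + 1)) * Z (q + 1) ((q + 1) * a + r) (k + 1)
        + (q + 1 - r) * a * Z q (q * a + r) k := by
  have h1 := es_succ_mul (k + 1) (range (q + 1)) (fun i => (balw a r i : ℝ))
  have h2 : ∀ i ∈ range (q + 1), (balw a r i : ℝ) * es (k + 1) ((range (q + 1)).erase i)
      (fun i => (balw a r i : ℝ)) = (fun y : ℕ => (y : ℝ) * Z (q + 1) ((q + 1) * a + r) (k + 1)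
        - (y : ℝ) ^ 2 * Z q ((q + 1) * a + r - y) k) (balw a r i) := fun i hi => by
    have a1 := es_erase k hi (fun i => (balw a r i : ℝ))
    rw [erase_bal hr (mem_range.1 hi) k] at a1
    simp only
    rw [Z_eq hr, ebal, a1]
    ring
  rw [sum_congr rfl h2, sum_balw_g (fun y : ℕ => (y : ℝ) * Z (q + 1) ((q + 1) * a + r) (k + 1)
        - (y : ℝ) ^ 2 * Z q ((q + 1) * a + r - y) k) hr,
    show (q + 1) * a + r - (a + 1) = q * a + r - 1 by rw [add_mul]; omega,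
    show (q + 1) * a + r - a = q * a + r by rw [add_mul]; omega] at h1
  have h3 := Z_double (a := a) hr k
  rw [Z_eq hr (k + 2), ebal]
  push_cast at h1
  rw [show (k : ℝ) + 2 = k + 1 + 1 by ring, h1]
  linear_combination (a + 1) * h3

lemma Zdec3 {q b N j : ℕ} {t : ℝ} (ht : 0 ≤ t) (h : (b : ℝ) + t ≤ N) (hj : j ≤ N) :
    Z q b j * (t * j / (3 * N)) ^ 3 ≤ Z q N j := by
  rcases Nat.eq_zero_or_pos N with rfl | hN
  · simpa using Z_nonneg q 0 j
  have hN' : (0 : ℝ) < N := by exact_mod_cast hN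
  have a2 : b ≤ N := by
    have : (b : ℝ) ≤ N := by linarith
    exact_mod_cast this
  obtain ⟨i, hi⟩ := Nat.exists_eq_add_of_le a2
  have a3 : (N : ℝ) = b + i := by rw [hi]; push_cast; ring
  have a4 := decay q b j i hN' (by linarith)
  rw [← hi] at a4
  refine le_trans (mul_le_mul_of_nonneg_left ?_ (Z_nonneg _ _ _)) a4
  have a5 : (i : ℝ) ≤ 3 * ((i / 3 : ℕ) + 1) := by exact_mod_cast (by omega)
  have hy : (0 : ℝ) ≤ j / N := by positivity
  have hy1 : (j / N : ℝ) ≤ 1 := (div_le_one hN').2 (by exact_mod_cast hj)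
  have a6 := one_add_mul_le_pow ((by norm_num : (-2 : ℝ) ≤ 0).trans hy) (i / 3)
  have a7 : t * j / (3 * N) ≤ 1 + (i / 3 : ℕ) * (j / N : ℝ) := by
    rw [show t * j / (3 * N) = t / 3 * (j / N) by ring]
    nlinarith [mul_le_mul_of_nonneg_right (show t / 3 ≤ (i / 3 : ℕ) + 1 by linarith) hy]
  calc _ ≤ ((1 + j / N : ℝ) ^ (i / 3)) ^ 3 := pow_le_pow_left₀ (by positivity) (a7.trans a6) 3
    _ ≤ _ := by
        rw [← pow_mul]
        exact pow_le_pow_right₀ (by linarith) (by omega)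

lemma Z_one (q N : ℕ) : Z (q + 1) N 1 = N := by
  obtain ⟨a, r, hr, rfl⟩ := decomp q N
  have h := Z_double (a := a) hr.le 0
  simp only [Z_zero, Nat.cast_zero, zero_add, one_mul, mul_one] at h
  rw [h]
  push_cast
  ring

variable (x : Par)

lemma Z_one' (N : ℕ) : Z x.q N 1 = N := by
  have := Z_one (x.q - 1) N
  rwa [Nat.sub_add_cancel (by have := x.hq; omega)] at this

lemma P2_eq : 2 * x.P2 = x.Δ * x.N + x.Γ := by
  have h := Z_double (q := x.q) (a := x.a) (r := x.r + 1) (by have := x.hr; omega) 1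
  rw [← x.Δ_eq, Z_one', Z_one', ← add_assoc, Nat.add_sub_cancel] at h
  have e : (x.N : ℝ) = x.q * x.a + x.r := by unfold Par.N; push_cast; ring
  push_cast at h
  rw [Par.P2, x.Δ_xr, Par.xr, Par.Γ, e]
  linear_combination h

lemma top9 (j : ℕ) : Z x.q x.Δ j ≤ 9 * Z x.q x.N j :=
  Z9 (i := x.a + 1) x.ha (by unfold Par.N; omega) (by have := x.ha; omega) j

lemma top18 : Z x.q x.Δ x.k ≤ x.D + 18 * (x.a + 1) * (x.k / x.Δ * x.D) := by
  have h1 := growth x.q x.N x.k (x.a + 1)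
  have h2 := top9 x x.k
  change _ * (Z x.q x.Δ x.k - x.D) ≤ _ * Z x.q x.Δ x.k at h1
  change Z x.q x.Δ x.k ≤ _ * x.D at h2
  have h3 : x.D ≤ Z x.q x.Δ x.k := Z_mono _ _ (by unfold Par.Δ; omega)
  have h4 : (x.Δ : ℝ) ≤ 2 * (x.N + 1) := by rw [x.ΔR]; linarith [x.aNR, x.a1]
  have h5 : (0 : ℝ) ≤ (x.a + 1 : ℕ) * x.k := by positivity
  have h6 : x.Δ * (Z x.q x.Δ x.k - x.D) ≤ 18 * (x.a + 1) * x.k * x.D := by
    have := mul_le_mul_of_nonneg_left h2 h5
    push_cast at h1 this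
    nlinarith [mul_le_mul_of_nonneg_right h4 (sub_nonneg.2 h3)]
  have h7 : 18 * (x.a + 1) * (x.k / x.Δ * x.D) = 18 * (x.a + 1) * x.k * x.D / x.Δ := by ring
  rw [h7, ← sub_le_iff_le_add', le_div_iff₀ x.Δpos]
  linarith

lemma qΔ : x.q ≤ x.Δ := by have := x.qN; unfold Par.Δ; omega

lemma star (j : ℕ) : x.Δ * Z (x.q - 1) x.Δ j ≤ 81 * (j + 1) * Z x.q x.N (j + 1) := by
  have e : x.q - 1 + 1 = x.q := Nat.sub_add_cancel (by have := x.hq; omega)
  have h1 := Zlink (q := x.q - 1) (N := x.Δ) (by rw [e]; exact qΔ x) j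
  rw [e] at h1
  nlinarith [mul_le_mul_of_nonneg_left (top9 x (j + 1)) (show (0 : ℝ) ≤ 9 * (j + 1) by positivity)]

/-- a link with at most `h` more vertices than the large link -/
lemma link_up {c h : ℕ} (h1 : c ≤ x.Δ) (h2 : c ≤ x.N + h) (j : ℕ) :
    x.Δ * Z x.q c (j + 1) ≤ (x.Δ + 81 * (j + 1) * h) * Z x.q x.N (j + 1) := by
  have hZ := Z_nonneg x.q x.N (j + 1)
  rcases le_total c x.N with c1 | c1
  · exact mul_le_mul (le_add_of_nonneg_right (by positivity)) (Z_mono _ _ c1) (Z_nonneg _ _ _)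
      (by positivity)
  obtain ⟨i, rfl⟩ := Nat.exists_eq_add_of_le c1
  have e : x.q - 1 + 1 = x.q := Nat.sub_add_cancel (by have := x.hq; omega)
  have a1 := Zinc (x.q - 1) x.N j i
  rw [e] at a1
  have a2 := mul_le_mul (show (i : ℝ) ≤ h by exact_mod_cast (by omega)) (Z_mono (x.q - 1) j h1)
    (Z_nonneg _ _ _) (Nat.cast_nonneg _)
  nlinarith [mul_le_mul_of_nonneg_left (a1.trans (add_le_add le_rfl a2)) x.Δpos.le,
    mul_le_mul_of_nonneg_left (star x j) (Nat.cast_nonneg (α := ℝ) h)]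

lemma φ3 (h : 3 * x.xr ≤ x.Δ) : 3 * x.φ ≤ 1 := by
  refine le_of_mul_le_mul_right ?_ x.npos
  rw [mul_assoc, x.φ_xr, x.nR]
  linarith [x.a1]

lemma jτ (h : 3 * x.xr ≤ x.Δ) (hk : 4 ≤ x.k) :
    x.Δ * x.D + x.k * x.D / 4 ≤ (x.k + 1) * x.τ := by
  have h1 := x.jP
  have hk' : (4 : ℝ) ≤ x.k := by exact_mod_cast hk
  have hD := x.Dpos
  have hΔ := x.Δpos
  have h3 : x.Δ * (x.k / x.Δ * x.D) = x.k * x.D := by field_simp
  have h4 := mul_le_mul_of_nonneg_right h (show 0 ≤ x.k / x.Δ * x.D by positivity)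
  have h5 := mul_le_mul_of_nonneg_right (φ3 x h) (show 0 ≤ (x.k + 1) * x.D by positivity)
  change _ + (_ - x.xr) * _ ≤ _ at h1
  unfold Par.τ
  nlinarith [mul_le_mul_of_nonneg_right hk' hD.le]

lemma cost1 {i : ℕ} (h : 1 ≤ i) : Z (x.q + 1) (x.Δ - i) (x.k + 1) ≤ x.P - x.D := by
  have := Z_mono (x.q + 1) (x.k + 1) (show x.Δ - i ≤ x.N + x.a by unfold Par.Δ; omega)
  change _ ≤ x.P1 at this
  linarith [x.P_eq]

lemma cost_aux {z P y d : ℝ} (hz : 0 ≤ z) (hy : 0 ≤ y) (h1 : z * (1 + y) ≤ P) (h2 : y ≤ 2 * 10 ^ 9)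
    (h3 : d ≤ P * y) : z ≤ P - d / (3 * 10 ^ 9) := by
  have a1 : 0 ≤ P - z := by nlinarith [mul_nonneg hz hy]
  rw [le_sub_comm, div_le_iff₀ (by positivity)]
  nlinarith [mul_le_mul_of_nonneg_left h2 a1]

lemma cost_y {i : ℝ} (h0 : 0 ≤ i) (h2 : i * x.k ≤ 10 ^ 9 * x.Δ) :
    i * ((x.k + 1 : ℕ) / x.Δ : ℝ) ≤ 2 * 10 ^ 9 := by
  rw [← mul_div_assoc, div_le_iff₀ x.Δpos]
  push_cast
  nlinarith [mul_le_mul_of_nonneg_left x.k1 h0]

lemma cost2 {i : ℕ} (h : i ≤ x.Δ) (h2 : (i : ℝ) * x.k ≤ 10 ^ 9 * x.Δ) :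
    Z (x.q + 1) (x.Δ - i) (x.k + 1) ≤ x.P - i * x.D / (3 * 10 ^ 9) := by
  have a1 := decay' (x.q + 1) (x.Δ - i) (x.k + 1) i x.Δpos (by rw [Nat.cast_sub h]; linarith)
  rw [Nat.sub_add_cancel h] at a1
  refine cost_aux (Z_nonneg _ _ _) (by positivity) a1 (cost_y x (Nat.cast_nonneg _) h2) ?_
  rw [← mul_div_assoc, ← mul_div_assoc, le_div_iff₀ x.Δpos]
  push_cast
  nlinarith [mul_le_mul_of_nonneg_left x.jP' (Nat.cast_nonneg (α := ℝ) i)]

lemma cost3 {i : ℕ} (h1 : 1 ≤ i) (h : i ≤ x.Δ) (h2 : (i : ℝ) * x.k ≤ 10 ^ 9 * x.Δ) :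
    Z (x.q + 1) (x.Δ - i) (x.k + 1) ≤ x.P1 - (i - 1) * x.D / (6 * 10 ^ 9) := by
  obtain ⟨l, rfl⟩ : ∃ l, i = l + 1 := ⟨i - 1, by omega⟩
  have a1 := decay' (x.q + 1) (x.Δ - (l + 1)) (x.k + 1) l x.Δpos (by
    rw [Nat.cast_sub h]; push_cast; linarith)
  rw [show x.Δ - (l + 1) + l = x.N + x.a by unfold Par.Δ at *; omega] at a1
  push_cast at h2
  have a2 := cost_aux (d := l * x.D / 2) (Z_nonneg _ _ _) (by positivity) a1
    (cost_y x (Nat.cast_nonneg _) (by nlinarith [x.k1])) (by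
      change _ ≤ x.P1 * _
      rw [← mul_div_assoc, ← mul_div_assoc, le_div_iff₀ x.Δpos]
      push_cast
      nlinarith [mul_le_mul_of_nonneg_left x.jP' (Nat.cast_nonneg (α := ℝ) l),
        mul_le_mul_of_nonneg_left x.P_le (show (0 : ℝ) ≤ l * (x.k + 1) by positivity)])
  change _ ≤ x.P1 - _ at a2
  push_cast
  rw [add_sub_cancel_right]
  linarith

end Pool.Agent.Lib.MP_1b6faf_co.Un
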